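import Pool.Agent.LOW.Targets

/-!
# Target SEL: selection of certificates
-/

set_option autoImplicit false

namespace Pool.Agent.LOW

namespace SEL_

variable {V : Type}

open Classical in
/-- Certificates whose blocks meet `S` and do not meet the sets of the later certificates. -/
theorem few (z : V → Bool) (l : List (Finset V × (V → Bool))) : ∀ S : Finset V,
    (∀ c ∈ l, ∃ v ∈ S, v ∈ c.1 ∧ c.2 v ≠ z v) →
    l.Pairwise (fun a b => ∀ v ∈ b.1, v ∈ a.1 → a.2 v = z v) → l.length ≤ S.card := by
  induction l with
  | nil => intro S _ _; exact Nat.zero_le _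
  | cons a l ih =>
    intro S hS hl
    obtain ⟨v, hvS, hva, hne⟩ := hS a List.mem_cons_self
    rw [List.pairwise_cons] at hl
    have h1 : l.length ≤ (S.erase v).card := by
      refine ih (S.erase v) ?_ hl.2
      intro b hb
      obtain ⟨u, huS, hub, hune⟩ := hS b (List.mem_cons_of_mem a hb)
      refine ⟨u, Finset.mem_erase.2 ⟨?_, huS⟩, hub, hune⟩
      rintro rfl
      exact hne (hl.1 b hb u hub hva)
    have h2 : 0 < S.card := Finset.card_pos.2 ⟨v, hvS⟩
    rw [Finset.card_erase_of_mem hvS] at h1
    rw [List.length_cons]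
    omega

open Classical in
/-- The selection for the reversed list. -/
theorem rev (z : V → Bool) (w : ℕ) : ∀ (n : ℕ) (ds : List (Finset V × (V → Bool))),
    (∀ c ∈ ds, c.1.card ≤ w) → (w + 1) * n ≤ ds.length →
    ds.Pairwise (fun a b => ∀ v ∈ b.1, v ∈ a.1 → a.2 v = z v) →
    ∃ ds' : List (Finset V × (V → Bool)), ds'.Sublist ds ∧ ds'.length = n ∧
      ds'.Pairwise (fun a b => (∀ v ∈ b.1, v ∈ a.1 → a.2 v = z v) ∧
        ∀ v ∈ b.1, v ∈ a.1 → b.2 v = z v) := by
  intro n
  induction n with
  | zero =>
    intro ds _ _ _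
    exact ⟨[], List.nil_sublist ds, rfl, List.Pairwise.nil⟩
  | succ n ih =>
    intro ds hw hlen hp
    cases ds with
    | nil =>
      exfalso
      rw [List.length_nil, Nat.mul_succ] at hlen
      omega
    | cons c tl =>
      rw [List.pairwise_cons] at hp
      have hrem : (tl.filter fun b => ¬ ∀ v ∈ c.1, v ∈ b.1 → b.2 v = z v).length ≤ w := by
        refine le_trans (few z _ c.1 ?_ (hp.2.sublist List.filter_sublist)) (hw c
          List.mem_cons_self)
        intro b hb
        have h1 := of_decide_eq_true (List.mem_filter.1 hb).2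
        push Not at h1
        obtain ⟨v, hv1, hv2, hv3⟩ := h1
        exact ⟨v, hv1, hv2, hv3⟩
      have hsum : (tl.filter fun b => ∀ v ∈ c.1, v ∈ b.1 → b.2 v = z v).length +
          (tl.filter fun b => ¬ ∀ v ∈ c.1, v ∈ b.1 → b.2 v = z v).length = tl.length := by
        have h1 := List.length_eq_length_filter_add (l := tl)
          (fun b => decide (∀ v ∈ c.1, v ∈ b.1 → b.2 v = z v))
        rw [h1]
        congr 2
        refine List.filter_congr fun b _ => ?_
        rw [decide_not]
      obtain ⟨ds', hsub, hl', hp'⟩ := ih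
        (tl.filter fun b => ∀ v ∈ c.1, v ∈ b.1 → b.2 v = z v)
        (fun b hb => hw b (List.mem_cons_of_mem c (List.mem_of_mem_filter hb)))
        (by rw [List.length_cons, Nat.mul_succ] at hlen; omega)
        (hp.2.sublist List.filter_sublist)
      refine ⟨c :: ds', (hsub.trans List.filter_sublist).cons_cons c, by
        rw [List.length_cons, hl'], ?_⟩
      rw [List.pairwise_cons]
      refine ⟨fun b hb => ⟨?_, ?_⟩, hp'⟩
      · exact hp.1 b (List.mem_of_mem_filter (hsub.subset hb))
      · have h1 := of_decide_eq_true (List.mem_filter.1 (hsub.subset hb)).2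
        intro v hv hvc
        exact h1 v hvc hv

end SEL_

/-- Selection of certificates whose blocks do not meet the other certificates. -/
theorem p_SEL : T_SEL := by
  intro V z w n cs hw hlen hp
  obtain ⟨ds', hsub, hl', hp'⟩ := SEL_.rev z w n cs.reverse
    (fun c hc => hw c (List.mem_reverse.1 hc)) (by rw [List.length_reverse]; exact hlen)
    (by
      rw [List.pairwise_reverse]
      exact hp)
  refine ⟨ds'.reverse, ?_, by rw [List.length_reverse, hl'], ?_⟩
  · have h1 := hsub.reverse
    rwa [List.reverse_reverse] at h1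
  · rw [List.pairwise_reverse]
    exact hp'

end Pool.Agent.LOW
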