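import Pool.Agent.LOW.Targets

set_option autoImplicit false

/-!
# The chain of certificates (target CHAIN)
-/

namespace Pool.Agent.LOW

namespace CHAIN_

open Classical in
/-- The bits asked by the tree on the input `h`. -/
noncomputable def path {V : Type} (h : V → Bool) : DT V → Finset V
  | DT.leaf _ => ∅
  | DT.node v l r => insert v (if h v then path h r else path h l)

lemma path_card {V : Type} (h : V → Bool) (T : DT V) : (path h T).card ≤ T.depth := by
  induction T with
  | leaf a => simp [path]
  | node v l r ihl ihr =>
    classical
    have h1 : (path h (DT.node v l r)).card ≤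
        (if h v then path h r else path h l).card + 1 := by
      have h0 : path h (DT.node v l r) =
          insert v (if h v then path h r else path h l) := by
        rw [path]
      rw [h0]
      exact Finset.card_insert_le _ _
    have h2 : (if h v then path h r else path h l).card ≤ max l.depth r.depth := by
      by_cases hv : h v = true
      · rw [if_pos hv]
        exact ihr.trans (le_max_right _ _)
      · rw [if_neg hv]
        exact ihl.trans (le_max_left _ _)
    have h3 : (DT.node v l r).depth = max l.depth r.depth + 1 := rfl
    omega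

lemma path_in {V : Type} (h : V → Bool) {S : Set V} (T : DT V) (hT : T.In S) :
    ∀ v ∈ path h T, v ∈ S := by
  induction T with
  | leaf a => simp [path]
  | node v l r ihl ihr =>
    classical
    obtain ⟨h1, h2, h3⟩ := hT
    intro u hu
    unfold path at hu
    rw [Finset.mem_insert] at hu
    rcases hu with rfl | hu
    · exact h1
    · by_cases hv : h v = true
      · rw [if_pos hv] at hu
        exact ihr h3 u hu
      · rw [if_neg hv] at hu
        exact ihl h2 u hu

lemma path_eval {V : Type} (h z : V → Bool) (T : DT V) (hz : ∀ v ∈ path h T, z v = h v) :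
    T.eval z = T.eval h := by
  induction T with
  | leaf a => rfl
  | node v l r ihl ihr =>
    classical
    unfold path at hz
    have hzv : z v = h v := hz v (Finset.mem_insert_self _ _)
    unfold DT.eval
    rw [hzv]
    by_cases hv : h v = true
    · rw [if_pos hv, if_pos hv]
      apply ihr
      intro u hu
      apply hz
      rw [if_pos hv]
      exact Finset.mem_insert_of_mem hu
    · rw [if_neg hv, if_neg hv]
      apply ihl
      intro u hu
      apply hz
      rw [if_neg hv]
      exact Finset.mem_insert_of_mem hu

/-- Ask all the bits of a list and go on with a tree for the answers. -/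
lemma ask {V : Type} {S : Set V} (D : ℕ) (f : (V → Bool) → Prop) (l : List V)
    (hl : ∀ v ∈ l, v ∈ S) : ∀ Good : (V → Bool) → Prop,
    (∀ q : V → Bool, ∃ T : DT V, T.depth ≤ D ∧ T.In S ∧
      ∀ z, (∀ v ∈ l, z v = q v) → Good z → (T.eval z = true ↔ f z)) →
    ∃ T : DT V, T.depth ≤ l.length + D ∧ T.In S ∧
      ∀ z, Good z → (T.eval z = true ↔ f z) := by
  classical
  induction l with
  | nil =>
    intro Good h
    obtain ⟨T, h1, h2, h3⟩ := h fun _ => false
    refine ⟨T, ?_, h2, fun z hz => h3 z (by simp) hz⟩
    rw [List.length_nil, zero_add]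
    exact h1
  | cons a l ih =>
    intro Good h
    have hl' : ∀ v ∈ l, v ∈ S := fun v hv => hl v (List.mem_cons_of_mem a hv)
    have key : ∀ b : Bool, ∃ T : DT V, T.depth ≤ l.length + D ∧ T.In S ∧
        ∀ z, (Good z ∧ z a = b) → (T.eval z = true ↔ f z) := by
      intro b
      apply ih hl'
      intro q
      obtain ⟨T, h1, h2, h3⟩ := h (Function.update q a b)
      refine ⟨T, h1, h2, fun z hz hg => h3 z ?_ hg.1⟩
      intro v hv
      by_cases hva : v = a
      · subst hva
        rw [Function.update_self]
        exact hg.2
      · rw [Function.update_of_ne hva]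
        rcases List.mem_cons.1 hv with h4 | h4
        · exact absurd h4 hva
        · exact hz v h4
    obtain ⟨T0, h01, h02, h03⟩ := key false
    obtain ⟨T1, h11, h12, h13⟩ := key true
    refine ⟨DT.node a T0 T1, ?_, ⟨hl a List.mem_cons_self, h02, h12⟩, ?_⟩
    · have h3 : (DT.node a T0 T1).depth = max T0.depth T1.depth + 1 := rfl
      rw [h3, List.length_cons]
      omega
    · intro z hz
      unfold DT.eval
      by_cases hza : z a = true
      · rw [if_pos hza]
        exact h13 z ⟨hz, hza⟩
      · rw [if_neg hza]
        exact h03 z ⟨hz, by simpa using hza⟩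

end CHAIN_

open CHAIN_ in
theorem p_CHAIN : T_CHAIN := by
  classical
  intro V L w S m
  induction m with
  | zero =>
    intro p hL H
    -- a certificate
    have h1 : ∃ h : V → Bool, (∀ v b, p v = some b → h v = b) ∧ ∃ T ∈ L, T.eval h = true := by
      by_contra hcon
      push Not at hcon
      apply H
      refine ⟨DT.leaf false, Nat.zero_le _, trivial, fun z hz => ?_⟩
      constructor
      · intro h
        exact absurd h (by simp [DT.eval])
      · rintro ⟨T, hT, h⟩
        exact absurd h (hcon z hz T hT)
    have h2 : ∃ z : V → Bool, (∀ v b, p v = some b → z v = b) ∧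
        ¬ ∃ T' ∈ L, T'.eval z = true := by
      by_contra hcon
      push Not at hcon
      apply H
      refine ⟨DT.leaf true, Nat.zero_le _, trivial, fun z hz => ?_⟩
      constructor
      · intro _
        exact hcon z hz
      · intro _
        rfl
    obtain ⟨h, hp, T, hT, hTh⟩ := h1
    obtain ⟨z, hz, hfz⟩ := h2
    refine ⟨z, hz, hfz, [(path h T, h)], rfl, ?_, List.pairwise_singleton _ _⟩
    intro c hc
    rw [List.mem_singleton] at hc
    subst hc
    refine ⟨(path_card h T).trans (hL T hT).1, fun z' hz' => ⟨T, hT, ?_⟩, fun v _ hv => ?_⟩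
    · rw [path_eval h z' T hz']
      exact hTh
    · by_contra hne
      obtain ⟨b, hb⟩ := Option.ne_none_iff_exists'.1 hne
      exact hv ((hp v b hb).trans (hz v b hb).symm)
  | succ m ih =>
    intro p hL H
    have h1 : ∃ h : V → Bool, (∀ v b, p v = some b → h v = b) ∧ ∃ T ∈ L, T.eval h = true := by
      by_contra hcon
      push Not at hcon
      apply H
      refine ⟨DT.leaf false, Nat.zero_le _, trivial, fun z hz => ?_⟩
      constructor
      · intro h
        exact absurd h (by simp [DT.eval])
      · rintro ⟨T, hT, h⟩
        exact absurd h (hcon z hz T hT)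
    obtain ⟨h, hp, T, hT, hTh⟩ := h1
    set C := path h T with hC
    -- the answers
    have h2 : ∃ q : V → Bool, (∀ v ∈ C, ∀ b, p v = some b → q v = b) ∧
        ¬ ∃ T : DT V, T.depth ≤ w * m ∧ T.In S ∧ ∀ z : V → Bool,
          (∀ v b, (if v ∈ C then some (q v) else p v) = some b → z v = b) →
          (T.eval z = true ↔ ∃ T' ∈ L, T'.eval z = true) := by
      by_contra hcon
      push Not at hcon
      apply H
      obtain ⟨T₁, h3, h4, h5⟩ := ask (S := S) (w * m) (fun z => ∃ T' ∈ L, T'.eval z = true)
        C.toList (fun v hv => path_in h T (hL T hT).2 v (Finset.mem_toList.1 hv))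
        (fun z => ∀ v b, p v = some b → z v = b) (by
          intro q
          by_cases hq : ∀ v ∈ C, ∀ b, p v = some b → q v = b
          · obtain ⟨T₂, h6, h7, h8⟩ := hcon q hq
            refine ⟨T₂, h6, h7, fun z hz hg => h8 z ?_⟩
            intro v b hvb
            by_cases hv : v ∈ C
            · rw [if_pos hv] at hvb
              rw [hz v (Finset.mem_toList.2 hv)]
              exact Option.some.inj hvb
            · rw [if_neg hv] at hvb
              exact hg v b hvb
          · push Not at hq
            obtain ⟨v, hv, b, hvb, hne⟩ := hq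
            refine ⟨DT.leaf false, Nat.zero_le _, trivial, fun z hz hg => ?_⟩
            exfalso
            apply hne
            rw [← hz v (Finset.mem_toList.2 hv)]
            exact hg v b hvb)
      refine ⟨T₁, ?_, h4, h5⟩
      rw [Finset.length_toList] at h3
      have h6 : C.card ≤ w := (path_card h T).trans (hL T hT).1
      calc T₁.depth ≤ C.card + w * m := h3
        _ ≤ w + w * m := by omega
        _ = w * (m + 1) := by ring
    obtain ⟨q, hq, hno⟩ := h2
    obtain ⟨z, hz, hfz, cs, hlen, hcs, hpw⟩ :=
      ih (fun v => if v ∈ C then some (q v) else p v) hL hno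
    have hzp : ∀ v b, p v = some b → z v = b := by
      intro v b hvb
      by_cases hv : v ∈ C
      · rw [hz v (q v) (if_pos hv)]
        exact hq v hv b hvb
      · exact hz v b (by rw [if_neg hv]; exact hvb)
    refine ⟨z, hzp, hfz, (C, h) :: cs, by rw [List.length_cons, hlen], ?_, ?_⟩
    · intro c hc
      rcases List.mem_cons.1 hc with rfl | hc
      · refine ⟨(path_card h T).trans (hL T hT).1, fun z' hz' => ⟨T, hT, ?_⟩, fun v _ hv => ?_⟩
        · rw [path_eval h z' T hz']
          exact hTh
        · by_contra hne
          obtain ⟨b, hb⟩ := Option.ne_none_iff_exists'.1 hne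
          exact hv ((hp v b hb).trans (hzp v b hb).symm)
      · obtain ⟨h3, h4, h5⟩ := hcs c hc
        refine ⟨h3, h4, fun v hv hne => ?_⟩
        have h6 := h5 v hv hne
        by_cases hvC : v ∈ C
        · rw [if_pos hvC] at h6
          exact absurd h6 (by simp)
        · rwa [if_neg hvC] at h6
    · rw [List.pairwise_cons]
      refine ⟨fun c hc v hv hvc => ?_, hpw⟩
      by_contra hne
      have h6 := (hcs c hc).2.2 v hvc hne
      rw [if_pos hv] at h6
      exact absurd h6 (by simp)

end Pool.Agent.LOW
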