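import Pool.Agent.LOW.Targets

set_option autoImplicit false

/-!
# The functionals are local (target LOCN)
-/

namespace Pool.Agent.LOW

open Classical

namespace LOCN_

lemma pair_len (x y : List Bool) : (pair x y).length = 2 * x.length + 1 + y.length := by
  have h : ∀ l : List Bool, (l.flatMap (fun b => [true, b])).length = 2 * l.length := by
    intro l
    induction l with
    | nil => rfl
    | cons a l ih =>
      rw [List.flatMap_cons, List.length_append, ih]
      simp only [List.length_cons, List.length_nil]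
      ring
  simp only [pair, List.length_append, List.length_cons, h]
  ring

lemma two_pow_le {N a b : ℕ} (hN : 2 ≤ N) (h : a < b) : 2 * N ^ a ≤ N ^ b := by
  calc 2 * N ^ a ≤ N * N ^ a := Nat.mul_le_mul_right _ hN
    _ = N ^ (a + 1) := by rw [pow_succ, mul_comm]
    _ ≤ N ^ b := Nat.pow_le_pow_right (by omega) h

/-- the pairs are short -/
lemma pair_bound (x y : List Bool) (j : ℕ) (hy : y.length ≤ (x.length + 2) ^ j) :
    (pair x y).length + 2 ≤ (x.length + 2) ^ (j + 3) := by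
  rw [pair_len]
  have hN : 2 ≤ x.length + 2 := by omega
  have h1 : 2 * (x.length + 2) ^ 1 ≤ (x.length + 2) ^ (j + 2) := two_pow_le hN (by omega)
  have h2 : (x.length + 2) ^ j ≤ (x.length + 2) ^ (j + 2) :=
    Nat.pow_le_pow_right (by omega) (by omega)
  have h3 : 2 * (x.length + 2) ^ (j + 2) ≤ (x.length + 2) ^ (j + 3) := two_pow_le hN (by omega)
  rw [pow_one] at h1
  omega

lemma acc_iff (hLOC : T_LOC) (X X' Y Y' : Lang) (Q : List Instr) (c : ℕ) (u : List Bool)
    (h : ∀ v : List Bool, v.length ≤ u.length + (u.length + 2) ^ c → X v = X' v ∧ Y v = Y' v) :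
    acc X Y Q c u ↔ acc X' Y' Q c u := by
  unfold acc
  rw [hLOC X X' Y Y' Q u _ h _ le_rfl]

lemma acc_pair (hLOC : T_LOC) (X X' : Lang) (Q : List Instr) (j c K : ℕ) (x y : List Bool)
    (hK : (j + 3) * (c + 1) + 2 ≤ K) (hy : y.length ≤ (x.length + 2) ^ j)
    (h : ∀ v : List Bool, v.length < (x.length + 2) ^ K → X v = X' v) :
    acc X emp Q c (pair x y) ↔ acc X' emp Q c (pair x y) := by
  refine acc_iff hLOC X X' emp emp Q c _ fun v hv => ⟨h v ?_, rfl⟩
  have hN : 2 ≤ x.length + 2 := by omega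
  have h1 := pair_bound x y j hy
  have h2 : ((pair x y).length + 2) ^ c ≤ (x.length + 2) ^ ((j + 3) * c) := by
    rw [pow_mul]
    exact Nat.pow_le_pow_left h1 c
  have h3 : (x.length + 2) ^ ((j + 3) * c) ≤ (x.length + 2) ^ ((j + 3) * (c + 1)) :=
    Nat.pow_le_pow_right (by omega) (Nat.mul_le_mul_left _ (by omega))
  have h4 : (x.length + 2) ^ (j + 3) ≤ (x.length + 2) ^ ((j + 3) * (c + 1)) :=
    Nat.pow_le_pow_right (by omega) (Nat.le_mul_of_pos_right _ (by omega))
  have h5 : 2 * (x.length + 2) ^ ((j + 3) * (c + 1)) ≤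
      (x.length + 2) ^ ((j + 3) * (c + 1) + 2) := two_pow_le hN (by omega)
  have h6 : (x.length + 2) ^ ((j + 3) * (c + 1) + 2) ≤ (x.length + 2) ^ K :=
    Nat.pow_le_pow_right (by omega) hK
  omega

lemma npf_loc (hLOC : T_LOC) (Q : List Instr) (j c K : ℕ) (hK : (j + 3) * (c + 1) + 2 ≤ K) :
    Loc (npf Q j c) K := by
  intro X X' x h
  unfold npf
  rw [decide_eq_decide]
  refine exists_congr fun y => and_congr_right fun hy => ?_
  exact acc_pair hLOC X X' Q j c K x y hK hy h

lemma paf_loc (hLOC : T_LOC) (Q : List Instr) (j c K : ℕ) (hK : (j + 3) * (c + 1) + 2 ≤ K) :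
    Loc (paf Q j c) K := by
  intro X X' x h
  unfold paf
  have hs : {y : List Bool | y.length ≤ (x.length + 2) ^ j ∧ acc X emp Q c (pair x y)} =
      {y : List Bool | y.length ≤ (x.length + 2) ^ j ∧ acc X' emp Q c (pair x y)} := by
    ext y
    exact and_congr_right fun hy => acc_pair hLOC X X' Q j c K x y hK hy h
  rw [hs]

lemma cof_loc (hLOC : T_LOC) (R : List Instr) (d : ℕ) (Q : List Instr) (j c K : ℕ)
    (hK : (d + 2) * ((j + 3) * (c + 1) + 2) + (d + 3) ≤ K) :
    Loc (cof R d Q j c) K := by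
  intro X X' x h
  unfold cof
  rw [decide_eq_decide]
  have hN : 2 ≤ x.length + 2 := by omega
  have h1 : (x.length + 2) ^ 1 ≤ (x.length + 2) ^ (d + 1) :=
    Nat.pow_le_pow_right (by omega) (by omega)
  have h2 : (x.length + 2) ^ d ≤ (x.length + 2) ^ (d + 1) :=
    Nat.pow_le_pow_right (by omega) (by omega)
  have h3 : 2 * (x.length + 2) ^ (d + 1) ≤ (x.length + 2) ^ (d + 2) := two_pow_le hN (by omega)
  rw [pow_one] at h1
  refine acc_iff hLOC X X' _ _ R d x fun v hv => ?_
  have hv2 : v.length + 2 ≤ (x.length + 2) ^ (d + 2) := by omega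
  refine ⟨h v ?_, ?_⟩
  · have h4 : (x.length + 2) ^ (d + 2) ≤ (x.length + 2) ^ K :=
      Nat.pow_le_pow_right (by omega) (by
        have := Nat.zero_le ((d + 2) * ((j + 3) * (c + 1) + 2))
        omega)
    omega
  · refine npf_loc hLOC Q j c _ le_rfl X X' v fun w hw => h w (lt_of_lt_of_le hw ?_)
    calc (v.length + 2) ^ ((j + 3) * (c + 1) + 2)
        ≤ ((x.length + 2) ^ (d + 2)) ^ ((j + 3) * (c + 1) + 2) := Nat.pow_le_pow_left hv2 _
      _ = (x.length + 2) ^ ((d + 2) * ((j + 3) * (c + 1) + 2)) := by rw [← pow_mul]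
      _ ≤ (x.length + 2) ^ K := Nat.pow_le_pow_right (by omega) (by omega)

end LOCN_

open LOCN_

theorem p_LOCN (hLOC : T_LOC) : T_LOCN :=
  ⟨fun Q j c => ⟨(j + 3) * (c + 1) + 2, fun K hK =>
      ⟨npf_loc hLOC Q j c K hK, paf_loc hLOC Q j c K hK⟩⟩,
    fun R d Q j c => ⟨(d + 2) * ((j + 3) * (c + 1) + 2) + (d + 3), fun K hK =>
      cof_loc hLOC R d Q j c K hK⟩⟩

end Pool.Agent.LOW
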