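import Pool.Agent.LOW.Targets

/-!
# Lemmas on programs (job MACH)
-/

set_option autoImplicit false

namespace Pool.Agent.LOW

namespace MACH_

theorem run_zero (X Y : Lang) (Q : List Instr) (x : List Bool) :
    run X Y Q x 0 = ⟨0, Function.update (fun _ => []) 0 x⟩ := rfl

theorem run_succ (X Y : Lang) (Q : List Instr) (x : List Bool) (t : ℕ) :
    run X Y Q x (t + 1) = step X Y Q (run X Y Q x t) := by
  unfold run
  rw [Function.iterate_succ_apply']

theorem step_of_halt (X Y : Lang) (Q : List Instr) (c : Cfg) (h : Q.length ≤ c.pc) :
    step X Y Q c = c := by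
  unfold step
  rw [List.getElem?_eq_none h]

end MACH_

open MACH_

theorem p_LEN : T_LEN := by
  intro X Y Q x s i
  induction s generalizing i with
  | zero =>
    rw [run_zero]
    by_cases h : i = 0
    · subst h; simp
    · simp [Function.update_of_ne h]
  | succ s ih =>
    rw [run_succ]
    generalize run X Y Q x s = c at ih
    unfold step
    rcases hp : Q[c.pc]? with _ | ⟨k, b⟩ | ⟨k, l₀, l₁, l₂⟩ | ⟨a, k, l₀, l₁⟩
    · exact (ih i).trans (by omega)
    · by_cases h : i = k
      · subst h
        have := ih i
        simp only [Function.update_self, List.length_cons]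
        omega
      · simp only [Function.update_of_ne h]
        exact (ih i).trans (by omega)
    · rcases hc : c.st k with _ | ⟨b, u⟩
      · simp only [hc]
        exact (ih i).trans (by omega)
      · have hk := ih k
        rw [hc, List.length_cons] at hk
        have hu : (Function.update c.st k u i).length ≤ x.length + (s + 1) := by
          by_cases h : i = k
          · subst h
            rw [Function.update_self]
            omega
          · rw [Function.update_of_ne h]
            exact (ih i).trans (by omega)
        cases b
        · simp only [hc]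
          exact hu
        · simp only [hc]
          exact hu
    · exact (ih i).trans (by omega)

theorem p_LOC (hLEN : T_LEN) : T_LOC := by
  intro X X' Y Y' Q x t h s
  induction s with
  | zero => intro _; rfl
  | succ s ih =>
    intro hs
    have hs' : s < t := hs
    rw [run_succ, run_succ, ← ih hs'.le]
    have hq : ∀ i, X ((run X Y Q x s).st i) = X' ((run X Y Q x s).st i) ∧
        Y ((run X Y Q x s).st i) = Y' ((run X Y Q x s).st i) := fun i =>
      h _ ((hLEN X Y Q x s i).trans (by omega))
    generalize run X Y Q x s = c at hq
    unfold step
    rcases hp : Q[c.pc]? with _ | ⟨i, b⟩ | ⟨i, l₀, l₁, l₂⟩ | ⟨a, i, l₀, l₁⟩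
    · rfl
    · rfl
    · rfl
    · simp only [(hq i).1, (hq i).2]

theorem p_STAY : T_STAY := by
  intro X Y Q x t t' h htt'
  obtain ⟨k, rfl⟩ := Nat.exists_eq_add_of_le htt'
  induction k with
  | zero => rfl
  | succ k ih =>
    have ih' := ih (Nat.le_add_right _ _)
    rw [← Nat.add_assoc, run_succ, ih']
    exact step_of_halt X Y Q _ h

end Pool.Agent.LOW
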