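import Pool.Agent.LOW.Targets

/-!
# Job LOW-NPP: the collapse
-/

set_option autoImplicit false

namespace Pool.Agent.LOW

open Classical

namespace NPP_

theorem acc_iff {X Y : Lang} {Q : List Instr} {C : Lang} {c : ℕ}
    (h : Decides X Y Q C (fun n => (n + 2) ^ c)) (u : List Bool) :
    acc X Y Q c u ↔ C u = true := by
  unfold acc
  rw [(h u).2]
  simp

theorem np_eq {O A : Lang} (hA : A ∈ NP O) : ∃ (Q : List Instr) (j c : ℕ), A = npf Q j c O := by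
  obtain ⟨C, ⟨Q, c, hQ⟩, j, hj⟩ := hA
  refine ⟨Q, j, c, ?_⟩
  funext x
  unfold npf
  rw [Bool.eq_iff_iff, hj x, decide_eq_true_iff]
  simp only [acc_iff hQ]

theorem pa_eq {O A : Lang} (hA : A ∈ ParP O) :
    ∃ (Q : List Instr) (j c : ℕ), A = paf Q j c O := by
  obtain ⟨C, ⟨Q, c, hQ⟩, j, hj⟩ := hA
  refine ⟨Q, j, c, ?_⟩
  funext x
  unfold paf
  rw [Bool.eq_iff_iff, hj x, decide_eq_true_iff]
  simp only [acc_iff hQ]

end NPP_

open NPP_ in
theorem p_NPP (hROBDT : T_ROBDT) (hCODT : T_CODT) (hLOCN : T_LOCN) (hCOLL : T_COLL) : T_NPP := by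
  intro cd g hcd hrob A hA
  obtain ⟨Q, j, c, h1⟩ := np_eq hA.1
  obtain ⟨Q', j', c', h2⟩ := pa_eq hA.2
  have hR : ∃ m, Robust cd g m Q j c Q' j' c' := by
    rcases hrob Q j c Q' j' c' with ⟨x, hx⟩ | h
    · exact absurd (by rw [← h1, ← h2]) hx
    · exact h
  obtain ⟨m, hm⟩ := hR
  constructor
  · obtain ⟨K₀, hK₀⟩ := hROBDT cd g m Q j c Q' j' c' hm
    obtain ⟨K₁, hK₁⟩ := hLOCN.1 Q j c
    have h3 := hCOLL cd g m (max K₀ K₁) (Fn.np Q j c) hcd (hK₁ _ (le_max_right _ _)).1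
      (hK₀ _ (le_max_left _ _))
    rw [h1]
    exact h3
  · rintro B ⟨R, d, hB⟩
    obtain ⟨K₀, hK₀⟩ := hCODT cd g m R d Q j c Q' j' c' hm
    obtain ⟨K₁, hK₁⟩ := hLOCN.2 R d Q j c
    have h3 := hCOLL cd g m (max K₀ K₁) (Fn.co R d Q j c) hcd (hK₁ _ (le_max_right _ _))
      (hK₀ _ (le_max_left _ _))
    have h4 : B = cof R d Q j c (orc cd g) := by
      funext x
      unfold cof
      rw [← h1, Bool.eq_iff_iff, decide_eq_true_iff]
      exact (acc_iff hB x).symm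
    rw [h4]
    exact h3

end Pool.Agent.LOW
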