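import Pool.Agent.LOW.Targets

/-!
# The second requirement is dense (target DENS2)
-/

set_option autoImplicit false

namespace Pool.Agent.LOW

open Classical

namespace DENS2_

theorem bd_mono {V : Type} (M s s' : ℕ) (hs : s ≤ s') : ∀ (r : ℕ) (C : Ckt V r),
    Ckt.Bd M s r C → Ckt.Bd M s' r C
  | 0, _, h => le_trans (show _ ≤ s from h) hs
  | r + 1, _, h => by
    refine ⟨h.1, fun C hC => bd_mono M s s' hs r C (h.2 C hC)⟩

theorem two_pow_le_card_W (b : ℕ) : 2 ^ b ≤ (W b).card := by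
  have h1 : (Finset.univ : Finset (Fin b → Bool)).card = 2 ^ b := by
    rw [Finset.card_univ, Fintype.card_fun, Fintype.card_bool, Fintype.card_fin]
  rw [← h1]
  refine Finset.card_le_card_of_injOn (fun f => List.ofFn f) ?_ ?_
  · intro f _
    simp only [W, Finset.mem_coe, Set.Finite.mem_toFinset, Set.mem_ofPred_eq, List.length_ofFn]
    exact le_rfl
  · intro f _ g _ hfg
    exact List.ofFn_injective hfg

theorem fr_top (n k : ℕ) : Fr n k (R n (k + 1)) := by
  refine ⟨subset_rfl, fun u hu => ?_⟩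
  have h1 : Ch (R n (k + 1)) u = W ((u.length + 2) ^ 2) := by
    unfold Ch
    rw [Finset.filter_eq_self]
    intro y hy
    rw [R]
    exact Finset.mem_biUnion.mpr ⟨u, hu, Finset.mem_image_of_mem _ hy⟩
  rw [h1]
  refine le_trans ?_ (two_pow_le_card_W _)
  exact Nat.pow_le_pow_right (by norm_num) (Nat.sub_le _ _)

/-- One exponent for the lengths of all words of the levels up to `k`. -/
theorem rlen (hRLEN : T_RLEN) (k : ℕ) : ∃ c : ℕ, ∀ n i : ℕ, i ≤ k → ∀ u ∈ R n i,
    n ≤ u.length ∧ u.length ≤ (n + 2) ^ c := by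
  induction k with
  | zero =>
    obtain ⟨c, hc⟩ := hRLEN 0
    refine ⟨c, fun n i hi u hu => ?_⟩
    obtain rfl : i = 0 := by omega
    exact hc n u hu
  | succ k ih =>
    obtain ⟨c, hc⟩ := ih
    obtain ⟨c', hc'⟩ := hRLEN (k + 1)
    refine ⟨c + c', fun n i hi u hu => ?_⟩
    rcases Nat.lt_or_ge i (k + 1) with h | h
    · have h1 := hc n i (by omega) u hu
      exact ⟨h1.1, h1.2.trans (Nat.pow_le_pow_right (by omega) (by omega))⟩
    · obtain rfl : i = k + 1 := by omega
      have h1 := hc' n u hu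
      exact ⟨h1.1, h1.2.trans (Nat.pow_le_pow_right (by omega) (by omega))⟩

theorem num_bound (n k A a : ℕ) (hA : 1 ≤ A) (ha : 1 ≤ a) :
    (16 * (k * A + A + 2) + 1) * (a + 3) ≤ 2 ^ (k + 10) * (A * a) := by
  have h1 : k + 3 ≤ 2 ^ (k + 2) := by
    have := Nat.lt_two_pow_self (n := k + 2)
    omega
  have h2 : 16 * (k * A + A + 2) + 1 ≤ 17 * (k + 3) * A := by nlinarith
  have h3 : a + 3 ≤ 4 * a := by omega
  have _ := n
  calc (16 * (k * A + A + 2) + 1) * (a + 3) ≤ (17 * (k + 3) * A) * (4 * a) :=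
        Nat.mul_le_mul h2 h3
    _ = 68 * ((k + 3) * (A * a)) := by ring
    _ ≤ 128 * (2 ^ (k + 2) * (A * a)) :=
        Nat.mul_le_mul (by norm_num) (Nat.mul_le_mul_right _ h1)
    _ ≤ 2 ^ (k + 10) * (A * a) := by
        have h4 : 2 ^ (k + 10) = 256 * 2 ^ (k + 2) := by
          rw [show k + 10 = 8 + (k + 2) by omega, pow_add]
          norm_num
        rw [h4]
        have h5 : 0 ≤ 2 ^ (k + 2) * (A * a) := Nat.zero_le _
        nlinarith

end DENS2_

open DENS2_ in
theorem p_DENS2 (hBR : T_BR) (hLB : T_LB) (hRLEN : T_RLEN) (hNUM : T_NUM) : T_DENS2 := by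
  intro cd Q c js g₀ m
  by_contra hcon
  push Not at hcon
  obtain ⟨C₀, hC₀⟩ := hBR cd Q c js
  obtain ⟨c', hc'⟩ := rlen hRLEN js.length
  obtain ⟨c₂, hc₂⟩ := hRLEN (js.length + 1)
  obtain ⟨n, hn, hn2⟩ := hNUM (js.length + 10 + C₀ + c') m
  obtain ⟨C, hCB, hCe⟩ := hC₀ (List.replicate n true)
  rw [List.length_replicate] at hCB
  set A := (n + 2) ^ C₀ with hA
  set a := (n + 2) ^ c' with ha
  have hA1 : 1 ≤ A := Nat.one_le_pow _ _ (by omega)
  have ha1 : 1 ≤ a := Nat.one_le_pow _ _ (by omega)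
  have hnum : (16 * (js.length * A + A + 2) + 1) * (a + 3) ≤ 2 ^ n := by
    refine (num_bound n js.length A a hA1 ha1).trans (le_trans ?_ hn2)
    have h1 : 2 ^ (js.length + 10) ≤ (n + 2) ^ (js.length + 10) := Nat.pow_le_pow_left (by omega) _
    calc 2 ^ (js.length + 10) * (A * a) ≤ (n + 2) ^ (js.length + 10) * (A * a) := Nat.mul_le_mul_right _ h1
      _ = (n + 2) ^ (js.length + 10 + C₀ + c') := by rw [hA, ha]; ring
  have hM : 4 * (2 ^ A) ^ js.length ≤ 2 ^ (js.length * A + A + 2) := by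
    rw [← pow_mul, show (4 : ℕ) = 2 ^ 2 by norm_num, ← pow_add]
    refine Nat.pow_le_pow_right (by norm_num) ?_
    nlinarith
  refine hLB n (js.length * A + A + 2) a (2 ^ A) js.length (R n (js.length + 1)) g₀ C (by omega) (by omega)
    (fr_top n js.length) (fun v hv hv' => absurd hv hv') (fun i hi u hu => hc' n i hi u hu) hnum
    Nat.one_le_two_pow hM (bd_mono _ A _ (by nlinarith) js.length C hCB) ?_
  intro z hz
  have hE : Eqm m g₀ z := by
    intro v hv
    refine (hz v ?_).symm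
    intro hvR
    have := (hc₂ n v hvR).1
    omega
  rw [hCe z]
  exact (hcon z hE n).symm

end Pool.Agent.LOW
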