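import Pool.Agent.LOW.Targets

/-!
# Languages of alternating machines are computed by circuits
-/

set_option autoImplicit false

namespace Pool.Agent.LOW

open Classical

namespace BR_

/-- Words as numbers with a leading `1`. -/
def enc : List Bool → ℕ
  | [] => 1
  | b :: l => 2 * enc l + (if b then 1 else 0)

theorem enc_pos (l : List Bool) : 1 ≤ enc l := by
  induction l with
  | nil => exact le_refl 1
  | cons b l ih =>
    change 1 ≤ 2 * enc l + _
    omega

theorem enc_lt (l : List Bool) : enc l < 2 ^ (l.length + 1) := by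
  induction l with
  | nil => norm_num [enc]
  | cons b l ih =>
    change 2 * enc l + (if b then 1 else 0) < 2 ^ (l.length + 1 + 1)
    rw [pow_succ]
    split_ifs <;> omega

theorem enc_inj : ∀ l l' : List Bool, enc l = enc l' → l = l' := by
  intro l
  induction l with
  | nil =>
    intro l' h
    cases l' with
    | nil => rfl
    | cons b l' =>
      exfalso
      change 1 = 2 * enc l' + _ at h
      have := enc_pos l'
      omega
  | cons b l ih =>
    intro l' h
    cases l' with
    | nil =>
      exfalso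
      change 2 * enc l + _ = 1 at h
      have := enc_pos l
      omega
    | cons b' l' =>
      change 2 * enc l + (if b then 1 else 0) = 2 * enc l' + (if b' then 1 else 0) at h
      have h1 : enc l = enc l' := by
        split_ifs at h <;> omega
      have h2 : b = b' := by
        cases b <;> cases b' <;> simp at h <;> first | rfl | omega
      rw [ih l' h1, h2]

theorem card_W (m : ℕ) : (W m).card ≤ 2 ^ (m + 1) := by
  have h := Finset.card_le_card_of_injOn (s := W m) (t := Finset.range (2 ^ (m + 1))) enc ?_ ?_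
  · rwa [Finset.card_range] at h
  · intro l hl
    have h1 : l.length ≤ m := by
      have := (List.finite_length_le Bool m).mem_toFinset.1 hl
      exact this
    rw [Finset.mem_coe, Finset.mem_range]
    exact lt_of_lt_of_le (enc_lt l) (Nat.pow_le_pow_right (by norm_num) (by omega))
  · intro l _ l' _ h
    exact enc_inj l l' h

theorem mem_W {m : ℕ} {y : List Bool} : y ∈ W m ↔ y.length ≤ m := by
  unfold W
  rw [Set.Finite.mem_toFinset]
  rfl

theorem in_mono {V : Type} {S S' : Set V} (h : S ⊆ S') : ∀ T : DT V, T.In S → T.In S'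
  | DT.leaf _, _ => trivial
  | DT.node _ l r, ⟨h1, h2, h3⟩ => ⟨h h1, in_mono h l h2, in_mono h r h3⟩

theorem bd_mono {V : Type} {M s M' s' : ℕ} (hM : M ≤ M') (hs : s ≤ s') :
    ∀ (r : ℕ) (C : Ckt V r), Ckt.Bd M s r C → Ckt.Bd M' s' r C
  | 0, _, h => le_trans h hs
  | r + 1, _, h => ⟨le_trans h.1 hM, fun C hC => bd_mono hM hs r C (h.2 C hC)⟩

theorem len_pair (x y : List Bool) : (pair x y).length = 2 * x.length + 1 + y.length := by
  unfold pair
  rw [List.length_append, List.length_cons]
  have h : (x.flatMap fun b => [true, b]).length = 2 * x.length := by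
    induction x with
    | nil => rfl
    | cons b l ih =>
      rw [List.flatMap_cons, List.length_append, ih, List.length_cons]
      simp
      omega
  rw [h]
  omega

theorem base (hRUNDT : T_RUNDT) (hDEP : T_DEP) (cd : ℕ → Code) (Q : List Instr) (c : ℕ)
    (x : List Bool) : ∃ T : DT (List Bool), T.depth ≤ (x.length + 2) ^ (2 * c + 2) ∧
      ∀ g : Lang, T.eval g = decide (acc (orc cd g) emp Q c x) := by
  set N := x.length + 2 with hN
  have hN2 : 2 ≤ N := by omega
  obtain ⟨T, h1, _, h3⟩ := hRUNDT Set.univ (orc cd) (fun _ => emp) (tr cd)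
    (fun _ => DT.leaf false) Q x (N ^ c) (x.length + N ^ c) (x.length + N ^ c) (by
      intro v hv
      obtain ⟨d1, d2⟩ := hDEP cd v
      refine ⟨d1.trans hv, in_mono ?_ _ d2, Nat.zero_le _, trivial, fun g _ => ⟨rfl, rfl⟩⟩
      intro w hw
      exact le_trans (show w.length ≤ v.length from hw) hv)
  refine ⟨T, h1.trans ?_, fun g => ?_⟩
  · have e1 : N ^ c ≤ N ^ (c + 1) := Nat.pow_le_pow_right (by omega) (by omega)
    have e2 : x.length ≤ N ^ (c + 1) := by
      calc x.length ≤ N ^ 1 := by rw [pow_one]; omega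
        _ ≤ N ^ (c + 1) := Nat.pow_le_pow_right (by omega) (by omega)
    calc N ^ c * (x.length + N ^ c) ≤ N ^ c * (N * N ^ (c + 1)) := by
          refine Nat.mul_le_mul_left _ ?_
          calc x.length + N ^ c ≤ 2 * N ^ (c + 1) := by omega
            _ ≤ N * N ^ (c + 1) := Nat.mul_le_mul_right _ hN2
      _ = N ^ (2 * c + 2) := by ring
  · have := h3 g (Set.mem_univ g)
    rw [Bool.eq_iff_iff, this, decide_eq_true_iff]
    rfl

end BR_

open BR_

theorem p_BR (hRUNDT : T_RUNDT) (hDEP : T_DEP) : T_BR := by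
  intro cd Q c js
  induction js with
  | nil =>
    refine ⟨2 * c + 2, fun x => ?_⟩
    obtain ⟨T, h1, h2⟩ := base hRUNDT hDEP cd Q c x
    exact ⟨T, h1, h2⟩
  | cons j js ih =>
    obtain ⟨C', hC'⟩ := ih
    choose C hB hE using hC'
    refine ⟨(j + 3) * C' + j + 1, fun x => ?_⟩
    set N := x.length + 2 with hN
    have hN2 : 2 ≤ N := by omega
    have hN1 : 1 ≤ N := by omega
    have key : ∀ y ∈ W (N ^ j), ((pair x y).length + 2) ^ C' ≤ N ^ ((j + 3) * C' + j + 1) := by
      intro y hy
      have hy' := mem_W.1 hy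
      have e0 : (pair x y).length + 2 ≤ N ^ (j + 3) := by
        rw [len_pair]
        have e1 : N ^ j ≤ N ^ (j + 2) := Nat.pow_le_pow_right hN1 (by omega)
        have e2 : N ^ 2 ≤ N ^ (j + 2) := Nat.pow_le_pow_right hN1 (by omega)
        have e3 : 2 * N ≤ N ^ 2 := by nlinarith
        calc 2 * x.length + 1 + y.length + 2 ≤ 2 * N ^ (j + 2) := by omega
          _ ≤ N * N ^ (j + 2) := Nat.mul_le_mul_right _ hN2
          _ = N ^ (j + 3) := by ring
      calc ((pair x y).length + 2) ^ C' ≤ (N ^ (j + 3)) ^ C' := Nat.pow_le_pow_left e0 _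
        _ = N ^ ((j + 3) * C') := by rw [← pow_mul]
        _ ≤ N ^ ((j + 3) * C' + j + 1) := Nat.pow_le_pow_right hN1 (by omega)
    refine ⟨((W (N ^ j)).toList.map fun y => C (pair x y) : List (Ckt (List Bool) js.length)),
      ⟨?_, ?_⟩, fun g => ?_⟩
    · rw [List.length_map, Finset.length_toList]
      refine (card_W _).trans (Nat.pow_le_pow_right (by norm_num) ?_)
      have e1 : 1 ≤ N ^ j := Nat.one_le_pow _ _ (by omega)
      calc N ^ j + 1 ≤ 2 * N ^ j := by omega
        _ ≤ N * N ^ j := Nat.mul_le_mul_right _ hN2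
        _ = N ^ (j + 1) := by ring
        _ ≤ N ^ ((j + 3) * C' + j + 1) := Nat.pow_le_pow_right hN1 (by omega)
    · intro D hD
      obtain ⟨y, hy, rfl⟩ := List.mem_map.1 hD
      have hk := key y (Finset.mem_toList.1 hy)
      exact bd_mono (Nat.pow_le_pow_right (by norm_num) hk) hk _ _ (hB (pair x y))
    · change List.any ((W (N ^ j)).toList.map fun y => C (pair x y))
        (fun D => !(Ckt.ev g js.length D)) = decide (∃ y : List Bool,
          y.length ≤ (x.length + 2) ^ j ∧ SigF (orc cd g) Q c js (pair x y) = false)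
      rw [Bool.eq_iff_iff, List.any_eq_true, decide_eq_true_iff]
      constructor
      · rintro ⟨D, hD, h⟩
        obtain ⟨y, hy, rfl⟩ := List.mem_map.1 hD
        refine ⟨y, mem_W.1 (Finset.mem_toList.1 hy), ?_⟩
        rw [← hE]
        simpa using h
      · rintro ⟨y, hy, h⟩
        refine ⟨C (pair x y), List.mem_map.2 ⟨y, Finset.mem_toList.2 (mem_W.2 hy), rfl⟩, ?_⟩
        rw [hE, h]
        rfl

end Pool.Agent.LOW
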