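import Pool.Agent.LOW.Targets

set_option autoImplicit false

namespace Pool.Agent.LOW

open Classical

namespace EVEN_

/-- The vectors that agree with `ζ₀` outside `I`. -/
noncomputable def cls {n : ℕ} (I : Finset (Fin n)) (ζ₀ : Fin n → Bool) :
    Finset (Fin n → Bool) :=
  Finset.univ.filter fun ζ => ∀ i, i ∉ I → ζ i = ζ₀ i

lemma mem_cls {n : ℕ} {I : Finset (Fin n)} {ζ₀ ζ : Fin n → Bool} :
    ζ ∈ cls I ζ₀ ↔ ∀ i, i ∉ I → ζ i = ζ₀ i := by
  simp [cls]

lemma cls_split {n : ℕ} {I : Finset (Fin n)} {i : Fin n} (hi : i ∈ I) (ζ₀ : Fin n → Bool)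
    (c : Bool) :
    (cls I ζ₀).filter (fun ζ => ζ i = c) = cls (I.erase i) (Function.update ζ₀ i c) := by
  ext ζ
  rw [Finset.mem_filter, mem_cls, mem_cls]
  constructor
  · rintro ⟨h1, h2⟩ j hj
    by_cases hji : j = i
    · rw [hji, Function.update_self]; exact h2
    · rw [Function.update_of_ne hji]
      exact h1 j fun hjI => hj (Finset.mem_erase.2 ⟨hji, hjI⟩)
  · intro h
    refine ⟨fun j hj => ?_, ?_⟩
    · have hji : j ≠ i := by
        rintro rfl
        exact hj hi
      have := h j fun hjI => hj (Finset.mem_of_mem_erase hjI)
      rwa [Function.update_of_ne hji] at this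
    · have := h i (Finset.notMem_erase i I)
      rwa [Function.update_self] at this

lemma sum_one {n : ℕ} {I : Finset (Fin n)} {i : Fin n} (hi : i ∈ I) (ζ₀ : Fin n → Bool) :
    ∑ _ζ ∈ cls I ζ₀, (1 : ZMod 2) = 0 := by
  apply Finset.sum_involution (fun ζ _ => Function.update ζ i (!(ζ i)))
  · intro ζ _
    decide
  · intro ζ _ _ h
    have := congrFun h i
    rw [Function.update_self] at this
    exact absurd this (by cases ζ i <;> decide)
  · intro ζ _
    rw [Function.update_self, Function.update_idem, Bool.not_not, Function.update_eq_self]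
  · intro ζ hζ
    rw [mem_cls] at hζ ⊢
    intro j hj
    have hji : j ≠ i := by
      rintro rfl
      exact hj hi
    rw [Function.update_of_ne hji]
    exact hζ j hj

lemma main {V : Type} {n : ℕ} (B : Fin n → Set V) (z : V → Bool)
    (hB : ∀ i j, i ≠ j → Disjoint (B i) (B j)) (T : DT V) :
    ∀ (I : Finset (Fin n)) (ζ₀ : Fin n → Bool), T.depth < I.card →
      ∑ ζ ∈ cls I ζ₀, (if T.eval (flp z B ζ) = true then (1 : ZMod 2) else 0) = 0 := by
  induction T with
  | leaf a =>
    intro I ζ₀ h
    simp only [DT.depth] at h
    obtain ⟨i, hi⟩ := Finset.card_pos.1 h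
    cases a with
    | true =>
      simp only [DT.eval, if_true]
      exact sum_one hi ζ₀
    | false => simp [DT.eval]
  | node v l r ihl ihr =>
    intro I ζ₀ h
    simp only [DT.depth] at h
    by_cases hv : ∃ i ∈ I, v ∈ B i
    · obtain ⟨i, hi, hvi⟩ := hv
      have hcard : (I.erase i).card + 1 = I.card := Finset.card_erase_add_one hi
      have hval : ∀ ζ : Fin n → Bool, flp z B ζ v = if ζ i = true then !(z v) else z v := by
        intro ζ
        unfold flp
        by_cases hζ : ζ i = true
        · rw [if_pos hζ, if_pos ⟨i, hζ, hvi⟩]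
        · rw [if_neg hζ, if_neg]
          rintro ⟨j, hj, hvj⟩
          by_cases hji : j = i
          · rw [hji] at hj; exact hζ hj
          · exact Set.disjoint_left.1 (hB j i hji) hvj hvi
      have hsplit : ∑ ζ ∈ cls I ζ₀,
          (if (DT.node v l r).eval (flp z B ζ) = true then (1 : ZMod 2) else 0)
          = ∑ ζ ∈ (cls I ζ₀).filter (fun ζ => ζ i = true),
              (if (DT.node v l r).eval (flp z B ζ) = true then (1 : ZMod 2) else 0)
            + ∑ ζ ∈ (cls I ζ₀).filter (fun ζ => ζ i = false),
              (if (DT.node v l r).eval (flp z B ζ) = true then (1 : ZMod 2) else 0) := by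
        rw [← Finset.sum_filter_add_sum_filter_not (cls I ζ₀) (fun ζ => ζ i = true)]
        congr 2
        apply Finset.filter_congr
        intro ζ _
        cases ζ i <;> simp
      rw [hsplit]
      have hhalf : ∀ c : Bool, ∑ ζ ∈ (cls I ζ₀).filter (fun ζ => ζ i = c),
          (if (DT.node v l r).eval (flp z B ζ) = true then (1 : ZMod 2) else 0) = 0 := by
        intro c
        by_cases hc : (if c = true then !(z v) else z v) = true
        · have e1 : ∀ ζ ∈ (cls I ζ₀).filter (fun ζ => ζ i = c),
              (if (DT.node v l r).eval (flp z B ζ) = true then (1 : ZMod 2) else 0)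
              = if r.eval (flp z B ζ) = true then (1 : ZMod 2) else 0 := by
            intro ζ hζ
            have h1 := (Finset.mem_filter.1 hζ).2
            have h2 : flp z B ζ v = true := by rw [hval, h1]; exact hc
            have h3 : (DT.node v l r).eval (flp z B ζ) = r.eval (flp z B ζ) := by
              change (if flp z B ζ v = true then r.eval (flp z B ζ) else l.eval (flp z B ζ)) = _
              rw [if_pos h2]
            rw [h3]
          rw [Finset.sum_congr rfl e1, cls_split hi]
          apply ihr
          have := le_max_right l.depth r.depth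
          omega
        · have e1 : ∀ ζ ∈ (cls I ζ₀).filter (fun ζ => ζ i = c),
              (if (DT.node v l r).eval (flp z B ζ) = true then (1 : ZMod 2) else 0)
              = if l.eval (flp z B ζ) = true then (1 : ZMod 2) else 0 := by
            intro ζ hζ
            have h1 := (Finset.mem_filter.1 hζ).2
            have h2 : ¬ flp z B ζ v = true := by rw [hval, h1]; exact hc
            have h3 : (DT.node v l r).eval (flp z B ζ) = l.eval (flp z B ζ) := by
              change (if flp z B ζ v = true then r.eval (flp z B ζ) else l.eval (flp z B ζ)) = _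
              rw [if_neg h2]
            rw [h3]
          rw [Finset.sum_congr rfl e1, cls_split hi]
          apply ihl
          have := le_max_left l.depth r.depth
          omega
      rw [hhalf, hhalf, add_zero]
    · push Not at hv
      have hval : ∀ ζ ∈ cls I ζ₀, flp z B ζ v = flp z B ζ₀ v := by
        intro ζ hζ
        rw [mem_cls] at hζ
        have hiff : (∃ i, ζ i = true ∧ v ∈ B i) ↔ (∃ i, ζ₀ i = true ∧ v ∈ B i) := by
          constructor
          · rintro ⟨i, h1, h2⟩
            have hi : i ∉ I := fun hi => hv i hi h2
            exact ⟨i, by rw [← hζ i hi]; exact h1, h2⟩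
          · rintro ⟨i, h1, h2⟩
            have hi : i ∉ I := fun hi => hv i hi h2
            exact ⟨i, by rw [hζ i hi]; exact h1, h2⟩
        unfold flp
        by_cases h : ∃ i, ζ₀ i = true ∧ v ∈ B i
        · rw [if_pos h, if_pos (hiff.2 h)]
        · rw [if_neg h, if_neg (fun h' => h (hiff.1 h'))]
      by_cases hc : flp z B ζ₀ v = true
      · have e1 : ∀ ζ ∈ cls I ζ₀,
            (if (DT.node v l r).eval (flp z B ζ) = true then (1 : ZMod 2) else 0)
            = if r.eval (flp z B ζ) = true then (1 : ZMod 2) else 0 := by
          intro ζ hζ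
          have h3 : (DT.node v l r).eval (flp z B ζ) = r.eval (flp z B ζ) := by
            change (if flp z B ζ v = true then r.eval (flp z B ζ) else l.eval (flp z B ζ)) = _
            rw [if_pos (by rw [hval ζ hζ]; exact hc)]
          rw [h3]
        rw [Finset.sum_congr rfl e1]
        apply ihr
        have := le_max_right l.depth r.depth
        omega
      · have e1 : ∀ ζ ∈ cls I ζ₀,
            (if (DT.node v l r).eval (flp z B ζ) = true then (1 : ZMod 2) else 0)
            = if l.eval (flp z B ζ) = true then (1 : ZMod 2) else 0 := by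
          intro ζ hζ
          have h3 : (DT.node v l r).eval (flp z B ζ) = l.eval (flp z B ζ) := by
            change (if flp z B ζ v = true then r.eval (flp z B ζ) else l.eval (flp z B ζ)) = _
            rw [if_neg (by rw [hval ζ hζ]; exact hc)]
          rw [h3]
        rw [Finset.sum_congr rfl e1]
        apply ihl
        have := le_max_left l.depth r.depth
        omega

end EVEN_

theorem p_EVEN : T_EVEN := by
  intro V n B z T hB hT
  have h := EVEN_.main B z hB T Finset.univ (fun _ => false) (by simpa using hT)
  have hcls : EVEN_.cls (Finset.univ : Finset (Fin n)) (fun _ => false) = Finset.univ := by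
    ext ζ
    rw [EVEN_.mem_cls]
    simp
  rw [hcls, Finset.sum_boole] at h
  exact (ZMod.natCast_eq_zero_iff_even).1 h

end Pool.Agent.LOW
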