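import Pool.Agent.LOW.Targets

set_option autoImplicit false

/-!
# LOW: small facts about decision trees, words and exponentials
-/

namespace Pool.Agent.LOW

open Classical

theorem p_SUB : T_SUB := by
  intro V V' f T
  induction T with
  | leaf a => exact ⟨DT.leaf a, le_rfl, fun z' => rfl⟩
  | node v l r ihl ihr =>
    obtain ⟨l', hl1, hl2⟩ := ihl
    obtain ⟨r', hr1, hr2⟩ := ihr
    rcases hf : f v with ⟨w, c⟩ | b
    · cases c with
      | false =>
        refine ⟨DT.node w l' r', ?_, ?_⟩
        · simp only [DT.depth]; omega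
        · intro z'
          simp only [DT.eval, hf, hl2 z', hr2 z', Bool.xor_false]
      | true =>
        refine ⟨DT.node w r' l', ?_, ?_⟩
        · simp only [DT.depth]; omega
        · intro z'
          simp only [DT.eval, hf, hl2 z', hr2 z', Bool.xor_true]
          cases z' w <;> simp
    · cases b with
      | false =>
        refine ⟨l', ?_, ?_⟩
        · simp only [DT.depth]; omega
        · intro z'
          simp only [DT.eval, hf, hl2 z']
          simp
      | true =>
        refine ⟨r', ?_, ?_⟩
        · simp only [DT.depth]; omega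
        · intro z'
          simp only [DT.eval, hf, hr2 z']
          simp

theorem p_PATHS : T_PATHS := by
  intro V T
  induction T with
  | leaf a =>
    cases a with
    | false =>
      refine ⟨[[]], ?_, ?_⟩
      · intro τ hτ
        simp only [List.mem_singleton] at hτ
        subst hτ
        simp
      · intro z
        simp [DT.eval, Dnf]
    | true =>
      refine ⟨[], ?_, ?_⟩
      · intro τ hτ
        simp at hτ
      · intro z
        simp [DT.eval, Dnf]
  | node v l r ihl ihr =>
    obtain ⟨Fl, hl1, hl2⟩ := ihl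
    obtain ⟨Fr', hr1, hr2⟩ := ihr
    refine ⟨Fl.map (fun τ => (v, false) :: τ) ++ Fr'.map (fun τ => (v, true) :: τ), ?_, ?_⟩
    · intro τ hτ
      rw [List.mem_append, List.mem_map, List.mem_map] at hτ
      rcases hτ with ⟨σ, hσ, rfl⟩ | ⟨σ, hσ, rfl⟩
      · have := hl1 σ hσ
        simp only [DT.depth, List.length_cons]
        omega
      · have := hr1 σ hσ
        simp only [DT.depth, List.length_cons]
        omega
    · intro z
      have key : Dnf (Fl.map (fun τ => (v, false) :: τ) ++ Fr'.map (fun τ => (v, true) :: τ)) z ↔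
          (z v = false ∧ Dnf Fl z) ∨ (z v = true ∧ Dnf Fr' z) := by
        constructor
        · rintro ⟨τ, hτ, h⟩
          rw [List.mem_append, List.mem_map, List.mem_map] at hτ
          rcases hτ with ⟨σ, hσ, rfl⟩ | ⟨σ, hσ, rfl⟩
          · exact Or.inl ⟨h (v, false) (by simp), σ, hσ, fun l hl => h l (by simp [hl])⟩
          · exact Or.inr ⟨h (v, true) (by simp), σ, hσ, fun l hl => h l (by simp [hl])⟩
        · rintro (⟨h0, σ, hσ, h⟩ | ⟨h0, σ, hσ, h⟩)
          · refine ⟨(v, false) :: σ, ?_, ?_⟩
            · rw [List.mem_append, List.mem_map]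
              exact Or.inl ⟨σ, hσ, rfl⟩
            · intro l hl
              rw [List.mem_cons] at hl
              rcases hl with rfl | hl
              · exact h0
              · exact h l hl
          · refine ⟨(v, true) :: σ, ?_, ?_⟩
            · rw [List.mem_append, List.mem_map, List.mem_map]
              exact Or.inr ⟨σ, hσ, rfl⟩
            · intro l hl
              rw [List.mem_cons] at hl
              rcases hl with rfl | hl
              · exact h0
              · exact h l hl
      rw [key, ← hl2 z, ← hr2 z]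
      simp only [DT.eval]
      cases z v <;> simp

/-- the number of words of length `a` in a finite set is at most `2 ^ a` -/
theorem SMALL_.card_len (S : Finset (List Bool)) (a : ℕ) :
    (S.filter (fun u => u.length = a)).card ≤ 2 ^ a := by
  have h : (S.filter (fun u => u.length = a)).card ≤
      (Finset.univ : Finset (Fin a → Bool)).card := by
    apply Finset.card_le_card_of_injOn (fun u => fun i : Fin a => u.getD i.1 false)
    · intro u _
      exact Finset.mem_coe.2 (Finset.mem_univ _)
    · intro u hu v hv huv
      have hu' : u.length = a := (Finset.mem_filter.1 (Finset.mem_coe.1 hu)).2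
      have hv' : v.length = a := (Finset.mem_filter.1 (Finset.mem_coe.1 hv)).2
      apply List.ext_getElem (hu'.trans hv'.symm)
      intro i h1 h2
      have := congrFun huv ⟨i, by omega⟩
      simpa [List.getD_eq_getElem, h1, h2] using this
  refine le_trans h ?_
  simp

theorem p_KRAFT : T_KRAFT := by
  intro S
  set m := S.sup (fun u => u.length) with hm
  have hmaps : ∀ u ∈ S, u.length ∈ Finset.range (m + 1) := by
    intro u hu
    have : u.length ≤ m := Finset.le_sup (f := fun u : List Bool => u.length) hu
    rw [Finset.mem_range]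
    omega
  rw [← Finset.sum_fiberwise_of_maps_to hmaps]
  have h1 : ∀ a ∈ Finset.range (m + 1),
      ∑ u ∈ S.filter (fun u => u.length = a), (1 / 4 : ℝ) ^ u.length ≤ (1 / 2 : ℝ) ^ a := by
    intro a _
    have h2 : ∑ u ∈ S.filter (fun u => u.length = a), (1 / 4 : ℝ) ^ u.length =
        ((S.filter (fun u => u.length = a)).card : ℝ) * (1 / 4 : ℝ) ^ a := by
      rw [Finset.sum_congr rfl (g := fun _ => (1 / 4 : ℝ) ^ a)]
      · rw [Finset.sum_const, nsmul_eq_mul]
      · intro u hu
        rw [(Finset.mem_filter.1 hu).2]
    rw [h2]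
    have h3 : ((S.filter (fun u => u.length = a)).card : ℝ) ≤ 2 ^ a := by
      exact_mod_cast SMALL_.card_len S a
    calc ((S.filter (fun u => u.length = a)).card : ℝ) * (1 / 4 : ℝ) ^ a
        ≤ 2 ^ a * (1 / 4 : ℝ) ^ a := mul_le_mul_of_nonneg_right h3 (by positivity)
      _ = (1 / 2 : ℝ) ^ a := by
          rw [← mul_pow]; norm_num
  refine le_trans (Finset.sum_le_sum h1) ?_
  rw [geom_sum_eq (by norm_num)]
  have : (0 : ℝ) < (1 / 2 : ℝ) ^ (m + 1) := by positivity
  rw [div_le_iff_of_neg (by norm_num)]
  linarith

theorem p_NUM : T_NUM := by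
  intro c m
  have h := tendsto_pow_const_div_const_pow_of_one_lt c (one_lt_two : (1 : ℝ) < 2)
  have h2 : ∀ᶠ n : ℕ in Filter.atTop, (n : ℝ) ^ c / 2 ^ n < 1 / 4 :=
    h.eventually (gt_mem_nhds (by norm_num))
  obtain ⟨N, hN1, hN2⟩ := (h2.and (Filter.eventually_ge_atTop (m + 3))).exists
  obtain ⟨n, rfl⟩ : ∃ n, N = n + 2 := ⟨N - 2, by omega⟩
  refine ⟨n, by omega, ?_⟩
  rw [div_lt_iff₀ (by positivity)] at hN1
  have h3 : (((n + 2 : ℕ) : ℝ)) ^ c ≤ 2 ^ n := by
    calc (((n + 2 : ℕ) : ℝ)) ^ c ≤ 1 / 4 * 2 ^ (n + 2) := hN1.le
      _ = 2 ^ n := by rw [pow_add]; ring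
  exact_mod_cast h3

end Pool.Agent.LOW
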