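import Pool.Agent.LOW.Targets

/-!
# Project LOW, target LB: the lower bound for circuits
-/

set_option autoImplicit false

namespace Pool.Agent.LOW

open Classical

namespace LB_

theorem asked {V : Type} (z : V → Bool) (T : DT V) : ∃ A : Finset V, A.card ≤ T.depth ∧
    ∀ z' : V → Bool, (∀ v ∈ A, z' v = z v) → T.eval z' = T.eval z := by
  induction T with
  | leaf a => exact ⟨∅, by simp, fun z' _ => rfl⟩
  | node v l r ihl ihr =>
    obtain ⟨Al, hl1, hl2⟩ := ihl
    obtain ⟨Ar, hr1, hr2⟩ := ihr
    rcases hz : z v with _ | _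
    · refine ⟨insert v Al, ?_, ?_⟩
      · refine (Finset.card_insert_le _ _).trans ?_
        simp only [DT.depth]
        omega
      · intro z' hz'
        have h1 : z' v = z v := hz' v (Finset.mem_insert_self _ _)
        have h2 := hl2 z' fun u hu => hz' u (Finset.mem_insert_of_mem hu)
        simp [DT.eval, h1, hz, h2]
    · refine ⟨insert v Ar, ?_, ?_⟩
      · refine (Finset.card_insert_le _ _).trans ?_
        simp only [DT.depth]
        omega
      · intro z' hz'
        have h1 : z' v = z v := hz' v (Finset.mem_insert_self _ _)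
        have h2 := hr2 z' fun u hu => hz' u (Finset.mem_insert_of_mem hu)
        simp [DT.eval, h1, hz, h2]

theorem pair_inj (x : List Bool) : Function.Injective (pair x) := by
  intro y y' h
  simp only [pair] at h
  have h1 := List.append_cancel_left h
  simpa using h1

/-- The lists of trees at the bottom of a circuit. -/
def bot {V : Type} : (r : ℕ) → Ckt V (r + 1) → List (List (DT V))
  | 0, C => [C]
  | r + 1, C => (show List (Ckt V (r + 1)) from C).flatMap (bot r)

theorem bot_len {V : Type} (M s : ℕ) : ∀ (r : ℕ) (C : Ckt V (r + 1)), Ckt.Bd M s (r + 1) C →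
    (bot r C).length ≤ M ^ r := by
  intro r
  induction r with
  | zero =>
    intro C _
    simp [bot]
  | succ r ih =>
    intro C hC
    obtain ⟨h1, h2⟩ := hC
    have key : ∀ L : List (Ckt V (r + 1)), (∀ C ∈ L, Ckt.Bd M s (r + 1) C) →
        (L.flatMap (bot r)).length ≤ L.length * M ^ r := by
      intro L
      induction L with
      | nil => intro _; simp
      | cons C₀ L ihL =>
        intro hL
        rw [List.flatMap_cons, List.length_append, List.length_cons, Nat.add_mul, one_mul,
          Nat.add_comm]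
        exact Nat.add_le_add (ihL fun C hC => hL C (List.mem_cons_of_mem _ hC))
          (ih C₀ (hL C₀ List.mem_cons_self))
    calc (bot (r + 1) C).length ≤ List.length (show List (Ckt V (r + 1)) from C) * M ^ r :=
          key C h2
      _ ≤ M * M ^ r := Nat.mul_le_mul_right _ h1
      _ = M ^ (r + 1) := by rw [pow_succ, mul_comm]

theorem bot_depth {V : Type} (M s : ℕ) : ∀ (r : ℕ) (C : Ckt V (r + 1)), Ckt.Bd M s (r + 1) C →
    ∀ L ∈ bot r C, ∀ T ∈ L, T.depth ≤ s := by
  intro r
  induction r with
  | zero =>
    intro C hC L hL T hT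
    have hL' : L = C := by simpa [bot] using hL
    subst hL'
    exact hC.2 T hT
  | succ r ih =>
    intro C hC L hL T hT
    obtain ⟨C₀, h1, h2⟩ := List.mem_flatMap.mp hL
    exact ih C₀ (hC.2 C₀ h1) L h2 T hT

theorem repl {V V' : Type} (M s : ℕ) (A : Set (V' → Bool)) (lift : (V' → Bool) → V → Bool) :
    ∀ (r : ℕ) (C : Ckt V (r + 1)), Ckt.Bd M s (r + 1) C →
    (∀ L ∈ bot r C, ∃ T : DT V', T.depth ≤ s ∧ ∀ z' ∈ A,
      T.eval z' = List.any L (fun T' => !(T'.eval (lift z')))) →
    ∃ C' : Ckt V' r, Ckt.Bd M s r C' ∧ ∀ z' ∈ A, Ckt.ev z' r C' = Ckt.ev (lift z') (r + 1) C := by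
  intro r
  induction r with
  | zero =>
    intro C hC h
    obtain ⟨T, h1, h2⟩ := h C (by simp [bot])
    exact ⟨T, h1, h2⟩
  | succ r ih =>
    intro C hC h
    have h0 : ∀ C₀ ∈ (show List (Ckt V (r + 1)) from C), ∃ C' : Ckt V' r, Ckt.Bd M s r C' ∧
        ∀ z' ∈ A, Ckt.ev z' r C' = Ckt.ev (lift z') (r + 1) C₀ := by
      intro C₀ hC₀
      exact ih C₀ (hC.2 C₀ hC₀) fun L hL => h L (List.mem_flatMap.mpr ⟨C₀, hC₀, hL⟩)
    have h1 : ∃ L' : List (Ckt V' r), L'.length = List.length (show List (Ckt V (r + 1)) from C) ∧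
        (∀ C' ∈ L', Ckt.Bd M s r C') ∧ ∀ z' ∈ A, List.any L' (fun C' => !(Ckt.ev z' r C')) =
          List.any (show List (Ckt V (r + 1)) from C)
            (fun C₀ => !(Ckt.ev (lift z') (r + 1) C₀)) := by
      have key : ∀ L : List (Ckt V (r + 1)), (∀ C₀ ∈ L, ∃ C' : Ckt V' r, Ckt.Bd M s r C' ∧
          ∀ z' ∈ A, Ckt.ev z' r C' = Ckt.ev (lift z') (r + 1) C₀) →
          ∃ L' : List (Ckt V' r), L'.length = L.length ∧
            (∀ C' ∈ L', Ckt.Bd M s r C') ∧ ∀ z' ∈ A, List.any L' (fun C' => !(Ckt.ev z' r C')) =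
            List.any L (fun C₀ => !(Ckt.ev (lift z') (r + 1) C₀)) := by
        intro L
        induction L with
        | nil => intro _; exact ⟨[], rfl, by simp, fun _ _ => rfl⟩
        | cons C₀ L ihL =>
          intro hL
          obtain ⟨C', g1, g2⟩ := hL C₀ List.mem_cons_self
          obtain ⟨L', g3, g4, g5⟩ := ihL fun C₁ hC₁ => hL C₁ (List.mem_cons_of_mem _ hC₁)
          refine ⟨C' :: L', by simp [g3], ?_, ?_⟩
          · intro C₁ hC₁
            rcases List.mem_cons.mp hC₁ with h | h
            · rw [h]; exact g1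
            · exact g4 C₁ h
          · intro z' hz'
            rw [List.any_cons, List.any_cons, g2 z' hz', g5 z' hz']
      exact key C h0
    obtain ⟨L', g1, g2, g3⟩ := h1
    exact ⟨L', ⟨g1.le.trans hC.1, g2⟩, g3⟩

theorem mem_W {m : ℕ} {y : List Bool} : y ∈ W m ↔ y.length ≤ m := by
  simp [W]

end LB_

open LB_

theorem p_LB (hSTEP : T_STEP) (hUREC : T_UREC) (hULOC : T_ULOC) : T_LB := by
  intro n s a M k
  induction k with
  | zero =>
    intro D h C hs hn hFr hh hlen hnum hM hMs hC hall
    set x : List Bool := List.replicate n true with hx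
    have hxR : x ∈ R n 0 := by
      show x ∈ ({List.replicate n true} : Finset (List Bool))
      rw [Finset.mem_singleton]
    have hxl : x.length = n := by rw [hx, List.length_replicate]
    have h1 := hFr.2 x hxR
    set z : Lang := fun v => if v ∈ D then true else h v with hz
    obtain ⟨A, hA1, hA2⟩ := asked z (show DT (List Bool) from C)
    have hCs : DT.depth (show DT (List Bool) from C) ≤ s := hC
    have hs2 : s < 2 ^ n := by
      calc s < (16 * s + 1) * (a + 3) := by nlinarith
        _ ≤ 2 ^ n := hnum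
    have hpow : 2 ^ n ≤ 2 ^ ((x.length + 2) ^ 2 - n) := by
      apply Nat.pow_le_pow_right (by norm_num)
      rw [hxl]
      have e1 : n + n ≤ (n + 2) ^ 2 := by nlinarith
      omega
    have hcard : A.card < ((Ch D x).image (pair x)).card := by
      rw [Finset.card_image_of_injective _ (pair_inj x)]
      omega
    obtain ⟨v, hv1, hv2⟩ := Finset.exists_mem_notMem_of_card_lt_card hcard
    obtain ⟨y, hy1, rfl⟩ := Finset.mem_image.mp hv1
    obtain ⟨hy2, hy3⟩ := Finset.mem_filter.mp hy1
    have hyl : y.length ≤ (x.length + 2) ^ 2 := mem_W.mp hy2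
    have hzA : Adm D h z := by
      intro v hv
      simp only [hz, if_neg hv]
    have hz'A : Adm D h (Function.update z (pair x y) false) := by
      intro v hv
      have hne : v ≠ pair x y := fun e => hv (e ▸ hy3)
      rw [Function.update_of_ne hne]
      exact hzA v hv
    have e1 := hall z hzA
    have e2 := hall _ hz'A
    have e3 : Ckt.ev (Function.update z (pair x y) false) 0 C = Ckt.ev z 0 C := by
      apply hA2
      intro v hv
      have hne : v ≠ pair x y := fun e => hv2 (e ▸ hv)
      rw [Function.update_of_ne hne]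
    have e4 : U (0 + 1) (Function.update z (pair x y) false) x = true := by
      show decide (∃ y' : List Bool, y'.length ≤ (x.length + 2) ^ 2 ∧
        U 0 (Function.update z (pair x y) false) (pair x y') = false) = true
      rw [decide_eq_true_iff]
      refine ⟨y, hyl, ?_⟩
      show Function.update z (pair x y) false (pair x y) = false
      rw [Function.update_self]
    have e5 : U (0 + 1) z x = false := by
      show decide (∃ y' : List Bool, y'.length ≤ (x.length + 2) ^ 2 ∧
        U 0 z (pair x y') = false) = false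
      rw [decide_eq_false_iff_not]
      rintro ⟨y', hy'1, hy'2⟩
      have hy'3 : z (pair x y') = false := hy'2
      by_cases hD : pair x y' ∈ D
      · simp only [hz, if_pos hD] at hy'3
        exact absurd hy'3 (by decide)
      · simp only [hz, if_neg hD] at hy'3
        have hR : pair x y' ∈ R n (0 + 1) := by
          show pair x y' ∈ (R n 0).biUnion fun u => (W ((u.length + 2) ^ 2)).image (pair u)
          rw [Finset.mem_biUnion]
          exact ⟨x, hxR, Finset.mem_image_of_mem _ (mem_W.mpr hy'1)⟩
        rw [hh _ hR hD] at hy'3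
        exact absurd hy'3 (by decide)
    rw [e3, e1, e5] at e2
    rw [e4] at e2
    exact absurd e2 (by decide)
  | succ k ih =>
    intro D h C hs hn hFr hh hlen hnum hM hMs hC hall
    have hbl := bot_len M s k C hC
    have hMk : M ^ k ≤ M ^ (k + 1) := Nat.pow_le_pow_right hM (Nat.le_succ k)
    obtain ⟨D', lift, h1, h2, h3, h4⟩ := hSTEP n k s a D h (bot k C) hs hn hFr hh
      (hlen (k + 1) le_rfl) (fun u hu => (hlen k (Nat.le_succ k) u hu).1) hnum
      (bot_depth M s k C hC) (by omega)
    obtain ⟨C', h5, h6⟩ := repl M s {z' : Lang | Adm D' (fun _ => true) z'} lift k C hC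
      (fun L hL => h4 L hL)
    refine ih D' (fun _ => true) C' hs hn h1 (fun _ _ _ => rfl)
      (fun i hi => hlen i (by omega)) hnum hM (by omega) h5 ?_
    intro z' hz'
    rw [h6 z' hz', hall (lift z') (h2 z' hz'), hUREC]
    exact hULOC (k + 1) n _ _ fun u hu => h3 z' hz' u hu

end Pool.Agent.LOW
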