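import Pool.Agent.LOW.Targets

/-!
# One step of the induction
-/

set_option autoImplicit false

namespace Pool.Agent.LOW

open Classical

namespace STEP_

theorem pair_nil (y : List Bool) : pair [] y = false :: y := rfl

theorem pair_cons (b : Bool) (x y : List Bool) : pair (b :: x) y = true :: b :: pair x y := rfl

theorem pair_inj : ∀ {x x' y y' : List Bool}, pair x y = pair x' y' → x = x' ∧ y = y' := by
  intro x
  induction x with
  | nil =>
    intro x' y y' h
    cases x' with
    | nil => exact ⟨rfl, by simpa [pair_nil] using h⟩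
    | cons b x' =>
      rw [pair_nil, pair_cons] at h
      simp at h
  | cons a x ih =>
    intro x' y y' h
    cases x' with
    | nil =>
      rw [pair_nil, pair_cons] at h
      simp at h
    | cons b x' =>
      rw [pair_cons, pair_cons] at h
      simp only [List.cons.injEq, true_and] at h
      obtain ⟨h1, h2⟩ := h
      obtain ⟨h3, h4⟩ := ih h2
      exact ⟨by rw [h1, h3], h4⟩

theorem mem_W {m : ℕ} {y : List Bool} : y ∈ W m ↔ y.length ≤ m := by
  unfold W
  rw [Set.Finite.mem_toFinset]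
  exact Iff.rfl

theorem mem_R_succ {n k : ℕ} {u y : List Bool} (hu : u ∈ R n k)
    (hy : y.length ≤ (u.length + 2) ^ 2) : pair u y ∈ R n (k + 1) := by
  rw [R, Finset.mem_biUnion]
  exact ⟨u, hu, Finset.mem_image.2 ⟨y, mem_W.2 hy, rfl⟩⟩

theorem mem_Ch {D : Finset (List Bool)} {u y : List Bool} :
    y ∈ Ch D u ↔ y.length ≤ (u.length + 2) ^ 2 ∧ pair u y ∈ D := by
  unfold Ch
  rw [Finset.mem_filter, mem_W]

/-- The blocks. -/
abbrev Bl (n k : ℕ) : Type := {u // u ∈ R n (k + 1)}

/-- The first substitution. -/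
noncomputable def f1 (n k : ℕ) (D : Finset (List Bool)) (h : Lang) (v : List Bool) :
    ((Bl n k × List Bool) × Bool) ⊕ Bool :=
  if hv : ∃ p : Bl n k × List Bool, v = pair p.1.1 p.2 ∧ p.2 ∈ Ch D p.1.1
  then Sum.inl (hv.choose, false) else Sum.inr (h v)

theorem f1_pos {n k : ℕ} {D : Finset (List Bool)} {h : Lang} (u : Bl n k) (y : List Bool)
    (hy : y ∈ Ch D u.1) : f1 n k D h (pair u.1 y) = Sum.inl ((u, y), false) := by
  have hv : ∃ p : Bl n k × List Bool, pair u.1 y = pair p.1.1 p.2 ∧ p.2 ∈ Ch D p.1.1 :=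
    ⟨(u, y), rfl, hy⟩
  unfold f1
  rw [dif_pos hv]
  obtain ⟨h1, -⟩ := hv.choose_spec
  obtain ⟨h2, h3⟩ := pair_inj h1
  have h4 : hv.choose = (u, y) := Prod.ext (Subtype.ext h2.symm) h3.symm
  rw [h4]

theorem f1_neg {n k : ℕ} {D : Finset (List Bool)} {h : Lang} (v : List Bool)
    (hv : v ∉ D) : f1 n k D h v = Sum.inr (h v) := by
  unfold f1
  rw [dif_neg]
  rintro ⟨p, hp1, hp2⟩
  apply hv
  rw [hp1]
  exact (mem_Ch.1 hp2).2

/-- The second substitution. -/
noncomputable def f2 {n k : ℕ} (j : Bl n k → List Bool) (p : Bl n k × List Bool) :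
    (List Bool × Bool) ⊕ Bool :=
  if p.2 = j p.1 then Sum.inl (p.1.1, true) else Sum.inr true

/-- The values of the bits of the blocks. -/
noncomputable def z1 {n k : ℕ} (j : Bl n k → List Bool) (z' : Lang) (p : Bl n k × List Bool) :
    Bool := match f2 j p with
      | Sum.inl (w, c) => xor (z' w) c
      | Sum.inr b => b

theorem z1_eq {n k : ℕ} (j : Bl n k → List Bool) (z' : Lang) (p : Bl n k × List Bool) :
    z1 j z' p = if p.2 = j p.1 then !(z' p.1.1) else true := by
  unfold z1 f2
  by_cases hp : p.2 = j p.1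
  · simp [hp]
  · simp [hp]

/-- The lift. -/
noncomputable def lft (n k : ℕ) (D : Finset (List Bool)) (h : Lang) (j : Bl n k → List Bool)
    (z' : Lang) : Lang := fun v => match f1 n k D h v with
      | Sum.inl (w, c) => xor (z1 j z' w) c
      | Sum.inr b => b

theorem lft_pos {n k : ℕ} {D : Finset (List Bool)} {h : Lang} (j : Bl n k → List Bool)
    (z' : Lang) (u : Bl n k) (y : List Bool) (hy : y ∈ Ch D u.1) :
    lft n k D h j z' (pair u.1 y) = if y = j u then !(z' u.1) else true := by
  unfold lft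
  rw [f1_pos u y hy]
  show xor (z1 j z' (u, y)) false = _
  rw [Bool.xor_false, z1_eq]

theorem lft_neg {n k : ℕ} {D : Finset (List Bool)} {h : Lang} (j : Bl n k → List Bool)
    (z' : Lang) (v : List Bool) (hv : v ∉ D) : lft n k D h j z' v = h v := by
  unfold lft
  rw [f1_neg v hv]

theorem dnf_flatMap {V A : Type} (L : List A) (F : A → List (List (V × Bool))) (z : V → Bool) :
    Dnf (L.flatMap F) z ↔ ∃ T ∈ L, Dnf (F T) z := by
  unfold Dnf
  constructor
  · rintro ⟨τ, hτ, h⟩
    obtain ⟨T, hT, hτ'⟩ := List.mem_flatMap.1 hτ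
    exact ⟨T, hT, τ, hτ', h⟩
  · rintro ⟨T, hT, τ, hτ, h⟩
    exact ⟨τ, List.mem_flatMap.2 ⟨T, hT, hτ⟩, h⟩

end STEP_

open STEP_ in
/-- One step of the induction. -/
theorem p_STEP (hSTEPG : T_STEPG) (hSUB : T_SUB) (hPATHS : T_PATHS) : T_STEP := by
  intro n k s a D h Ls hs hn hFr hh hR1 hR0 hna hLs hcard
  -- the substituted trees and their paths
  choose sb hsb1 hsb2 using hSUB (List Bool) (Bl n k × List Bool) (f1 n k D h)
  choose pt hpt1 hpt2 using hPATHS (Bl n k × List Bool)
  obtain ⟨ρ, hρ1, hρ2, hρ3, hρ4⟩ := hSTEPG n k s a D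
    (Ls.map fun L => L.flatMap fun T => pt (sb T)) hs hn hFr hR1 hR0 hna
    (by
      intro F hF τ hτ
      obtain ⟨L, hL, rfl⟩ := List.mem_map.1 hF
      obtain ⟨T, hT, hτ'⟩ := List.mem_flatMap.1 hτ
      exact (hpt1 _ _ hτ').trans ((hsb1 T).trans (hLs L hL T hT)))
    (by rw [List.length_map]; exact hcard)
  have hex : ∀ u : Bl n k, ∃ jc : List Bool × Bool, ρ u = some jc := fun u =>
    Option.ne_none_iff_exists'.1 (hρ1 u)
  choose jc hjc using hex
  have hjCh : ∀ u : Bl n k, (jc u).1 ∈ Ch D u.1 := fun u =>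
    hρ2 u (jc u).1 (jc u).2 (hjc u)
  have hCon : ∀ z' : Lang, Adm (Dp n k ρ) (fun _ => true) z' →
      ρ.Con (z1 (fun u => (jc u).1) z') := by
    intro z' hz' v b hv
    obtain ⟨u, y⟩ := v
    rw [z1_eq]
    unfold Res.val at hv
    simp only [hjc u] at hv
    by_cases hy : y = (jc u).1
    · rw [if_pos hy] at hv
      rw [if_pos hy]
      by_cases hc : (jc u).2 = true
      · rw [if_pos hc] at hv
        have hb : b = false := (Option.some.inj hv).symm
        rw [hb]
        have hu : u.1 ∉ Dp n k ρ := by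
          unfold Dp
          rw [Finset.mem_filter]
          rintro ⟨-, hu, j, hj⟩
          have h1 : ρ u = some (j, false) := hj
          rw [hjc u] at h1
          have h2 : jc u = (j, false) := Option.some.inj h1
          rw [h2] at hc
          exact absurd hc (by simp)
        have h3 : z' u.1 = true := hz' u.1 hu
        simp [h3]
      · rw [if_neg hc] at hv
        exact absurd hv (by simp)
    · rw [if_neg hy] at hv
      rw [if_neg hy]
      exact Option.some.inj hv
  refine ⟨Dp n k ρ, lft n k D h (fun u => (jc u).1), hρ4, ?_, ?_, ?_⟩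
  · intro z' _ v hv
    exact lft_neg _ z' v hv
  · intro z' _ u hu
    show decide (∃ y : List Bool, y.length ≤ (u.length + 2) ^ 2 ∧
      lft n k D h (fun u => (jc u).1) z' (pair u y) = false) = z' u
    by_cases hz : z' u = true
    · rw [hz]
      apply decide_eq_true
      refine ⟨(jc ⟨u, hu⟩).1, (mem_Ch.1 (hjCh ⟨u, hu⟩)).1, ?_⟩
      have h1 := lft_pos (h := h) (fun u => (jc u).1) z' ⟨u, hu⟩ (jc ⟨u, hu⟩).1 (hjCh ⟨u, hu⟩)
      simp only [if_true, hz, Bool.not_true] at h1
      exact h1
    · have hz' : z' u = false := by simpa using hz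
      rw [hz']
      apply decide_eq_false
      rintro ⟨y, hy1, hy2⟩
      by_cases hy : y ∈ Ch D u
      · have h1 := lft_pos (h := h) (fun u => (jc u).1) z' ⟨u, hu⟩ y hy
        rw [hy2] at h1
        simp [hz'] at h1
      · have hD : pair u y ∉ D := fun hD => hy (mem_Ch.2 ⟨hy1, hD⟩)
        rw [lft_neg _ z' _ hD, hh _ (mem_R_succ hu hy1) hD] at hy2
        exact absurd hy2 (by simp)
  · intro L hL
    have hnot := hρ3 _ (List.mem_map.2 ⟨L, hL, rfl⟩)
    unfold Hard at hnot
    rw [not_not] at hnot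
    obtain ⟨T₂, hT₂, hT₂'⟩ := hnot
    obtain ⟨T, hT1, hT2⟩ := hSUB (Bl n k × List Bool) (List Bool)
      (f2 (fun u => (jc u).1)) T₂
    refine ⟨T, by omega, fun z' hz' => ?_⟩
    have h1 : T.eval z' = T₂.eval (z1 (fun u => (jc u).1) z') := by
      rw [hT2 z']
      congr 1
      funext v
      unfold z1
      cases f2 (fun u => (jc u).1) v <;> rfl
    rw [h1, Bool.eq_iff_iff, hT₂' _ (hCon z' hz'), dnf_flatMap, List.any_eq_true]
    apply exists_congr
    intro T'
    apply and_congr_right
    intro _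
    have h2 : (sb T').eval (z1 (fun u => (jc u).1) z') =
        T'.eval (lft n k D h (fun u => (jc u).1) z') := by
      rw [hsb2]
      congr 1
      funext v
      unfold lft
      cases f1 n k D h v <;> rfl
    rw [← hpt2, h2, Bool.not_eq_true']

end Pool.Agent.LOW
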