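import Pool.Agent.LOW.Targets

/-! Part CNT of project LOW: there are countably many codes. -/

set_option autoImplicit false

namespace Pool.Agent.LOW

namespace CNT_

/-- The code of an instruction. -/
def enc : Instr → (ℕ × Bool) ⊕ ((ℕ × ℕ × ℕ × ℕ) ⊕ (Bool × ℕ × ℕ × ℕ))
  | Instr.push s b => Sum.inl (s, b)
  | Instr.pop s l₀ l₁ l₂ => Sum.inr (Sum.inl (s, l₀, l₁, l₂))
  | Instr.ask i s l₀ l₁ => Sum.inr (Sum.inr (i, s, l₀, l₁))

theorem enc_inj : Function.Injective enc := by
  intro a b h
  cases a <;> cases b <;> simp_all [enc]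

theorem instr : Countable Instr := enc_inj.countable

/-- The code of a functional. -/
def encF : Fn → (List Instr × ℕ × ℕ) ⊕ (List Instr × ℕ × List Instr × ℕ × ℕ)
  | Fn.np Q j c => Sum.inl (Q, j, c)
  | Fn.co R d Q j c => Sum.inr (R, d, Q, j, c)

theorem encF_inj : Function.Injective encF := by
  intro a b h
  cases a <;> cases b <;> simp_all [encF]

theorem fn : Countable Fn := by
  haveI := instr
  exact encF_inj.countable

end CNT_

theorem p_CNT : T_CNT := by
  haveI := CNT_.instr
  haveI := CNT_.fn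
  exact ⟨CNT_.instr, inferInstanceAs (Countable (ℕ × (ℕ × List (List Bool)) × Fn))⟩

end Pool.Agent.LOW
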