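import Pool.Agent.LOW.Targets

set_option autoImplicit false

/-!
# Project LOW: the basic facts about the oracle
-/

namespace Pool.Agent.LOW

open Classical

namespace ORC_

lemma trn_self (cd : ℕ → Code) (u : List Bool) :
    trn cd (u.length + 1) u = build cd (trn cd u.length) u := by
  rw [trn]
  simp

lemma tr_eq (cd : ℕ → Code) (u : List Bool) :
    tr cd u = build cd (trn cd u.length) u := trn_self cd u

lemma In_mono {V : Type} {S S' : Set V} (h : S ⊆ S') (T : DT V) (hT : T.In S) : T.In S' := by
  induction T with
  | leaf a => trivial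
  | node v l r ihl ihr =>
    obtain ⟨h1, h2, h3⟩ := hT
    exact ⟨h h1, ihl h2, ihr h3⟩

lemma eval_congr {V : Type} {S : Set V} {z z' : V → Bool} (h : ∀ v ∈ S, z v = z' v) (T : DT V)
    (hT : T.In S) : T.eval z = T.eval z' := by
  induction T with
  | leaf a => rfl
  | node v l r ihl ihr =>
    obtain ⟨h1, h2, h3⟩ := hT
    simp only [DT.eval]
    rw [h v h1, ihl h2, ihr h3]

lemma rep_inj (m m' : ℕ) (a a' : List Bool)
    (h : List.replicate m true ++ false :: a = List.replicate m' true ++ false :: a') :
    m = m' ∧ a = a' := by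
  induction m generalizing m' with
  | zero =>
    cases m' with
    | zero =>
      simp only [List.replicate_zero, List.nil_append, List.cons.injEq, true_and] at h
      exact ⟨rfl, h⟩
    | succ m' =>
      rw [List.replicate_zero, List.nil_append, List.replicate_succ, List.cons_append] at h
      simp at h
  | succ m ih =>
    cases m' with
    | zero =>
      rw [List.replicate_zero, List.nil_append, List.replicate_succ, List.cons_append] at h
      simp at h
    | succ m' =>
      rw [List.replicate_succ, List.replicate_succ, List.cons_append, List.cons_append,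
        List.cons.injEq] at h
      obtain ⟨h1, h2⟩ := ih m' h.2
      exact ⟨by rw [h1], h2⟩

lemma triple_inj {m m' e e' : ℕ} {x x' : List Bool} (h : triple m e x = triple m' e' x') :
    m = m' ∧ e = e' ∧ x = x' := by
  obtain ⟨h1, h2⟩ := rep_inj _ _ _ _ h
  obtain ⟨h3, h4⟩ := rep_inj _ _ _ _ h2
  exact ⟨h1, h3, h4⟩

end ORC_

open ORC_

theorem p_TRN : T_TRN := by
  intro cd L
  induction L with
  | zero =>
    intro u
    exact ⟨fun h => absurd h (Nat.not_lt_zero _), fun _ => rfl⟩
  | succ L ih =>
    intro u
    by_cases hu : u.length = L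
    · refine ⟨fun _ => ?_, fun h => ?_⟩
      · rw [tr, hu]
      · omega
    · have h1 : trn cd (L + 1) u = trn cd L u := by
        rw [trn]
        exact if_neg hu
      rw [h1]
      exact ⟨fun h => (ih u).1 (by omega), fun h => (ih u).2 (by omega)⟩

theorem p_DEP : T_DEP := by
  intro cd u
  rw [tr_eq]
  match u with
  | [] =>
    rw [build]
    exact ⟨Nat.zero_le _, trivial⟩
  | false :: w =>
    rw [build]
    refine ⟨?_, ?_, trivial, trivial⟩
    · simp [DT.depth]
    · simp [Sh]
  | [true] =>
    rw [build]
    exact ⟨Nat.zero_le _, trivial⟩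
  | true :: false :: w =>
    rw [build]
    exact ⟨Nat.zero_le _, trivial⟩
  | true :: true :: w =>
    rw [build]
    split_ifs with h
    · have h1 := h.choose_spec
      refine ⟨h1.1.trans ?_, In_mono ?_ _ h1.2.1⟩
      · simp only [List.length_cons]
        omega
      · intro v hv
        simp only [Sh, Set.mem_ofPred_eq, List.length_cons] at hv ⊢
        omega
    · exact ⟨Nat.zero_le _, trivial⟩

theorem p_VALS : T_VALS := by
  intro cd g
  refine ⟨fun w => ?_, fun m e x => ?_⟩
  · rw [orc, tr_eq, build]
    simp only [DT.eval]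
    cases g w <;> simp
  · rw [orc, tr_eq, build]
    simp only [DT.eval]
    apply decide_eq_decide.2
    constructor
    · rintro ⟨m', e', x', h1, h2⟩
      obtain ⟨rfl, rfl, rfl⟩ := triple_inj h1
      exact h2
    · intro h
      exact ⟨m, e, x, rfl, h⟩

theorem p_ORCLOC (hDEP : T_DEP) : T_ORCLOC := by
  intro cd m g g' hg v hv
  refine eval_congr (S := Sh v.length) (fun w hw => hg w ?_) _ (hDEP cd v).2
  exact le_trans hw hv

end Pool.Agent.LOW
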