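import Pool.Agent.LOW.Targets

/-!
# Target UZ: the generic part is decided by a short program
-/

set_option autoImplicit false

namespace Pool.Agent.LOW

namespace UZ_

/-- The program. -/
def prog : List Instr :=
  [Instr.push 0 false, Instr.ask false 0 2 4, Instr.push 1 false, Instr.ask false 0 5 5,
    Instr.push 1 true]

theorem key (O g : Lang) (hO : ∀ w, O (false :: w) = g w) (x : List Bool) :
    prog.length ≤ (run O emp prog x 4).pc ∧ (run O emp prog x 4).st 1 = [g x] := by
  cases h : g x
  · have h' : O (false :: x) = false := by rw [hO, h]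
    constructor <;>
      simp [run, Function.iterate_succ_apply, step, prog, h']
  · have h' : O (false :: x) = true := by rw [hO, h]
    constructor <;>
      simp [run, Function.iterate_succ_apply, step, prog, h']

end UZ_

theorem p_UZ (hSTAY : T_STAY) : T_UZ := by
  intro O g hO
  refine ⟨UZ_.prog, 2, fun x => ?_⟩
  have h1 := UZ_.key O g hO x
  have h2 : 2 ^ 2 ≤ (x.length + 2) ^ 2 := Nat.pow_le_pow_left (by omega) 2
  rw [hSTAY O emp UZ_.prog x 4 _ h1.1 h2]
  exact h1

end Pool.Agent.LOW
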