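import Pool.Agent.LOW.Targets

/-!
# Target CODT of project LOW

Deterministic machines whose second oracle is the language of a robust pair are computed by
decision trees of polynomial depth.
-/

set_option autoImplicit false

namespace Pool.Agent.LOW

open Classical

namespace CODT_

theorem in_mono {V : Type} {S S' : Set V} (h : S ⊆ S') : ∀ T : DT V, T.In S → T.In S'
  | DT.leaf _, _ => trivial
  | DT.node _ l r, hT => ⟨h hT.1, in_mono h l hT.2.1, in_mono h r hT.2.2⟩

theorem sh_mono {a b : ℕ} (h : a ≤ b) : Sh a ⊆ Sh b := fun _ hv => le_trans hv h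

theorem bound (a d : ℕ) (ha : 2 ≤ a) : a + a ^ d ≤ a ^ (d + 2) := by
  have h1 : a ≤ a ^ (d + 1) := by
    calc a = a ^ 1 := (pow_one a).symm
      _ ≤ a ^ (d + 1) := Nat.pow_le_pow_right (by omega) (by omega)
  have h2 : a ^ d ≤ a ^ (d + 1) := Nat.pow_le_pow_right (by omega) (by omega)
  calc a + a ^ d ≤ a ^ (d + 1) + a ^ (d + 1) := Nat.add_le_add h1 h2
    _ = 2 * a ^ (d + 1) := by ring
    _ ≤ a * a ^ (d + 1) := Nat.mul_le_mul_right _ ha
    _ = a ^ (d + 2) := by ring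

end CODT_

open CODT_ in
theorem p_CODT (hRUNDT : T_RUNDT) (hROBDT : T_ROBDT) (hDEP : T_DEP) : T_CODT := by
  intro cd g m R d Q j c Q' j' c' hrob
  obtain ⟨K₁, hK₁⟩ := hROBDT cd g m Q j c Q' j' c' hrob
  have hb := hK₁ (K₁ + 1) (Nat.le_succ K₁)
  choose b hb1 hb2 hb3 using hb
  refine ⟨d + (d + 2) * (K₁ + 1), fun K hK x => ?_⟩
  have hx : 2 ≤ x.length + 2 := by omega
  have hbd := bound (x.length + 2) d hx
  have hv : ∀ v : List Bool, v.length ≤ x.length + (x.length + 2) ^ d →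
      (v.length + 2) ^ (K₁ + 1) ≤ (x.length + 2) ^ ((d + 2) * (K₁ + 1)) := by
    intro v hv
    calc (v.length + 2) ^ (K₁ + 1) ≤ ((x.length + 2) ^ (d + 2)) ^ (K₁ + 1) :=
          Nat.pow_le_pow_left (by omega) _
      _ = (x.length + 2) ^ ((d + 2) * (K₁ + 1)) := (pow_mul _ _ _).symm
  have hv' : ∀ v : List Bool, v.length ≤ x.length + (x.length + 2) ^ d →
      v.length ≤ (x.length + 2) ^ ((d + 2) * (K₁ + 1)) := by
    intro v hl
    refine le_trans ?_ (hv v hl)
    calc v.length ≤ v.length + 2 := by omega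
      _ = (v.length + 2) ^ 1 := (pow_one _).symm
      _ ≤ (v.length + 2) ^ (K₁ + 1) := Nat.pow_le_pow_right (by omega) (by omega)
  obtain ⟨T, hT1, hT2, hT3⟩ := hRUNDT {g' | Eqm m g g'} (fun g' => orc cd g')
    (fun g' => npf Q j c (orc cd g')) (fun v => tr cd v) b R x ((x.length + 2) ^ d)
    ((x.length + 2) ^ ((d + 2) * (K₁ + 1))) ((x.length + 2) ^ ((d + 2) * (K₁ + 1))) (by
      intro v hl
      refine ⟨le_trans (hDEP cd v).1 (hv' v hl), in_mono (sh_mono (hv' v hl)) _ (hDEP cd v).2,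
        le_trans (hb1 v) (hv v hl), in_mono (sh_mono (hv v hl)) _ (hb2 v), ?_⟩
      intro g' hg'
      exact ⟨rfl, (hb3 v g' hg').symm⟩)
  refine ⟨T, ?_, ?_, ?_⟩
  · calc T.depth ≤ (x.length + 2) ^ d * (x.length + 2) ^ ((d + 2) * (K₁ + 1)) := hT1
      _ = (x.length + 2) ^ (d + (d + 2) * (K₁ + 1)) := (pow_add _ _ _).symm
      _ ≤ (x.length + 2) ^ K := Nat.pow_le_pow_right (by omega) hK
  · exact in_mono (sh_mono (Nat.pow_le_pow_right (by omega)
      (le_trans (Nat.le_add_left _ _) hK))) T hT2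
  · intro g' hg'
    rw [Bool.eq_iff_iff, hT3 g' hg']
    unfold cof
    rw [decide_eq_true_iff]
    exact Iff.rfl

end Pool.Agent.LOW
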