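import Pool.Agent.LOW.Targets

set_option autoImplicit false

/-!
# Job LOW-COLL
-/

namespace Pool.Agent.LOW

namespace COLL_

/-- The finite condition of the words of length at most `m` of `g`. -/
noncomputable def cond (g : Lang) (m : ℕ) : ℕ × List (List Bool) :=
  (m, ((W m).filter fun v => g v = true).toList)

theorem mem_W (m : ℕ) (v : List Bool) : v ∈ W m ↔ v.length ≤ m := by
  unfold W
  rw [Set.Finite.mem_toFinset]
  exact Iff.rfl

theorem mem_cyl (g g' : Lang) (m : ℕ) : g' ∈ Cyl (cond g m) ↔ Eqm m g g' := by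
  have h : ∀ v : List Bool, v ∈ (cond g m).2 ↔ v.length ≤ m ∧ g v = true := by
    intro v
    unfold cond
    rw [Finset.mem_toList, Finset.mem_filter, mem_W]
  constructor
  · intro hg v hv
    have h1 := (hg v hv).trans (h v)
    cases h2 : g' v with
    | true => exact ((h1.1 h2).2)
    | false =>
      cases h3 : g v with
      | false => rfl
      | true =>
        have := h1.2 ⟨hv, h3⟩
        rw [h2] at this
        exact absurd this (by simp)
  · intro hg v hv
    rw [h, ← hg v hv]
    exact ⟨fun h1 => ⟨hv, h1⟩, fun h1 => h1.2⟩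

end COLL_

open COLL_ in
theorem p_COLL (hVALS : T_VALS) (hVAL : T_VAL) (hUNI : T_UNI) : T_COLL := by
  intro cd g m K f hcd hloc hT
  obtain ⟨e, he⟩ := hcd (K, cond g m, f)
  refine hUNI (orc cd g) (f.fn (orc cd g)) e K (fun m' x => ?_) (fun m' x hm => ?_)
  · have h := (hVALS cd g).2 m' e x
    rw [he] at h
    exact h
  · have h := hVAL cd e m' x g
    rw [he] at h
    refine h ((mem_cyl g g m).2 fun _ _ => rfl) hloc hm ?_
    obtain ⟨T, h1, h2, h3⟩ := hT x
    exact ⟨T, h1, h2, fun g' hg' => h3 g' ((mem_cyl g g' m).1 hg')⟩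

end Pool.Agent.LOW
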