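import Pool.Agent.LOW.Defs

/-!
# Definitions used in the proof
-/

set_option autoImplicit false

namespace Pool.Agent.LOW

open Classical

/-! ## Decision trees -/

/-- Decision trees that ask bits of a function `V → Bool`. -/
inductive DT (V : Type) : Type
  | leaf (a : Bool) : DT V
  | node (v : V) (l r : DT V) : DT V

/-- The value of a decision tree. -/
def DT.eval {V : Type} (z : V → Bool) : DT V → Bool
  | DT.leaf a => a
  | DT.node v l r => if z v then r.eval z else l.eval z

/-- The depth. -/
def DT.depth {V : Type} : DT V → ℕ
  | DT.leaf _ => 0
  | DT.node _ l r => max l.depth r.depth + 1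

/-- All the bits asked by the tree are in the set `S`. -/
def DT.In {V : Type} (S : Set V) : DT V → Prop
  | DT.leaf _ => True
  | DT.node v l r => v ∈ S ∧ l.In S ∧ r.In S

/-- The words of length at most `m`. -/
def Sh (m : ℕ) : Set (List Bool) := {v | v.length ≤ m}

/-! ## Functionals and their codes -/

/-- The program `Q` accepts the word `u` in time `(|u| + 2) ^ c`. -/
def acc (X Y : Lang) (Q : List Instr) (c : ℕ) (u : List Bool) : Prop :=
  (run X Y Q u ((u.length + 2) ^ c)).st 1 = [true]

/-- The language of a nondeterministic machine. -/
noncomputable def npf (Q : List Instr) (j c : ℕ) (X : Lang) : Lang := fun x =>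
  decide (∃ y : List Bool, y.length ≤ (x.length + 2) ^ j ∧ acc X emp Q c (pair x y))

/-- The language of a parity machine. -/
noncomputable def paf (Q : List Instr) (j c : ℕ) (X : Lang) : Lang := fun x =>
  decide (Odd {y : List Bool | y.length ≤ (x.length + 2) ^ j ∧ acc X emp Q c (pair x y)}.ncard)

/-- The language of a deterministic machine whose second oracle is the language of a
nondeterministic machine. -/
noncomputable def cof (R : List Instr) (d : ℕ) (Q : List Instr) (j c : ℕ) (X : Lang) : Lang :=
  fun x => decide (acc X (npf Q j c X) R d x)

/-- The functionals. -/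
inductive Fn : Type
  | np (Q : List Instr) (j c : ℕ)
  | co (R : List Instr) (d : ℕ) (Q : List Instr) (j c : ℕ)

/-- The value of a functional. -/
noncomputable def Fn.fn : Fn → Lang → Lang
  | Fn.np Q j c => npf Q j c
  | Fn.co R d Q j c => cof R d Q j c

/-- `F X x` depends only on the values of `X` at the words of length less than `(|x| + 2) ^ K`. -/
def Loc (F : Lang → Lang) (K : ℕ) : Prop := ∀ (X X' : Lang) (x : List Bool),
  (∀ v : List Bool, v.length < (x.length + 2) ^ K → X v = X' v) → F X x = F X' x

/-- `g` and `g'` agree on the words of length at most `m`. -/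
def Eqm (m : ℕ) (g g' : Lang) : Prop := ∀ v : List Bool, v.length ≤ m → g v = g' v

/-- A finite condition: a number `m` and the list of the words of length at most `m` in the
language. -/
def Cyl (σ : ℕ × List (List Bool)) : Set Lang :=
  {g | ∀ v : List Bool, v.length ≤ σ.1 → (g v = true ↔ v ∈ σ.2)}

/-- The codes: an exponent, a finite condition and a functional. -/
abbrev Code : Type := ℕ × (ℕ × List (List Bool)) × Fn

/-- The code `1^m 0 1^e 0 x`. -/
def triple (m e : ℕ) (x : List Bool) : List Bool :=
  List.replicate m true ++ false :: (List.replicate e true ++ false :: x)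

/-! ## The oracle -/

/-- The tree that computes the value of the oracle at the word `u`, where the trees for the shorter
words are given by `t`. The words `0 w` are the generic part; the words `1 0 1^m 0 1^e 0 x` tell
whether `m` is large enough; the words `1 1 1^m 0 1^e 0 x` give the value of the functional number
`e` at `x`, if there is a tree of small depth for it. -/
noncomputable def build (cd : ℕ → Code) (t : List Bool → DT (List Bool)) :
    List Bool → DT (List Bool)
  | [] => DT.leaf false
  | false :: w => DT.node w (DT.leaf false) (DT.leaf true)
  | [true] => DT.leaf false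
  | true :: false :: w => DT.leaf (decide (∃ (m e : ℕ) (x : List Bool),
      w = triple m e x ∧ (x.length + 2) ^ (cd e).1 ≤ m))
  | true :: true :: w =>
      if h : ∃ T : DT (List Bool), T.depth ≤ w.length ∧ T.In (Sh w.length) ∧
          ∃ (m e : ℕ) (x : List Bool), w = triple m e x ∧ ∀ g ∈ Cyl (cd e).2.1,
            T.eval g = (cd e).2.2.fn (fun v => (t v).eval g) x
      then h.choose else DT.leaf false

/-- The trees for the words of length less than `L`. -/
noncomputable def trn (cd : ℕ → Code) : ℕ → List Bool → DT (List Bool)
  | 0 => fun _ => DT.leaf false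
  | L + 1 => fun u => if u.length = L then build cd (trn cd L) u else trn cd L u

/-- The tree for the word `u`. -/
noncomputable def tr (cd : ℕ → Code) (u : List Bool) : DT (List Bool) := trn cd (u.length + 1) u

/-- The oracle with the generic part `g`. -/
noncomputable def orc (cd : ℕ → Code) (g : Lang) : Lang := fun u => (tr cd u).eval g

/-! ## The test languages -/

/-- The test languages of the levels of the hierarchy. -/
noncomputable def U : ℕ → Lang → Lang
  | 0, g => g
  | k + 1, g => fun x => decide (∃ y : List Bool, y.length ≤ (x.length + 2) ^ 2 ∧
      U k g (pair x y) = false)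

/-- The language of a machine with alternation; `js` gives the exponents of the bounds. -/
noncomputable def SigF (X : Lang) (Q : List Instr) (c : ℕ) : List ℕ → Lang
  | [] => fun x => decide (acc X emp Q c x)
  | j :: js => fun x => decide (∃ y : List Bool, y.length ≤ (x.length + 2) ^ j ∧
      SigF X Q c js (pair x y) = false)

/-! ## Circuits -/

/-- Circuits with `r` levels of gates `∃ i, ¬ C_i` above decision trees. -/
def Ckt (V : Type) : ℕ → Type
  | 0 => DT V
  | r + 1 => List (Ckt V r)

/-- The value of a circuit. -/
def Ckt.ev {V : Type} (z : V → Bool) : (r : ℕ) → Ckt V r → Bool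
  | 0, T => DT.eval z T
  | r + 1, L => List.any L (fun C => !(Ckt.ev z r C))

/-- All gates have at most `M` inputs and all decision trees have depth at most `s`. -/
def Ckt.Bd {V : Type} (M s : ℕ) : (r : ℕ) → Ckt V r → Prop
  | 0, T => DT.depth T ≤ s
  | r + 1, L => List.length L ≤ M ∧ ∀ C ∈ (show List (Ckt V r) from L), Ckt.Bd M s r C

/-! ## The tree of words -/

/-- The finite set of the words of length at most `m`. -/
noncomputable def W (m : ℕ) : Finset (List Bool) := (List.finite_length_le Bool m).toFinset

/-- The words reached from `1^n` after `k` quantifiers. -/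
noncomputable def R (n : ℕ) : ℕ → Finset (List Bool)
  | 0 => {List.replicate n true}
  | k + 1 => (R n k).biUnion fun u => (W ((u.length + 2) ^ 2)).image (pair u)

/-- The children `y` of the word `u` such that `pair u y` is free. -/
noncomputable def Ch (D : Finset (List Bool)) (u : List Bool) : Finset (List Bool) :=
  (W ((u.length + 2) ^ 2)).filter fun y => pair u y ∈ D

/-- Every word of level `k` has many free children. -/
def Fr (n k : ℕ) (D : Finset (List Bool)) : Prop :=
  D ⊆ R n (k + 1) ∧ ∀ u ∈ R n k, 2 ^ ((u.length + 2) ^ 2 - n) ≤ (Ch D u).card

/-- `z` agrees with `h` outside `D`. -/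
def Adm (D : Finset (List Bool)) (h z : Lang) : Prop := ∀ v, v ∉ D → z v = h v

/-! ## Block restrictions -/

/-- A restriction: the state of a block is `none` (all its bits are `1`), or `some (j, false)` (the
bit `j` is free and all other bits are `1`), or `some (j, true)` (the bit `j` is `0` and all other
bits are `1`). -/
abbrev Res (B Z : Type) : Type := B → Option (Z × Bool)

/-- The value of a bit under a restriction, `none` if the bit is free. -/
noncomputable def Res.val {B Z : Type} (ρ : Res B Z) (v : B × Z) : Option Bool :=
  match ρ v.1 with
  | none => some true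
  | some (j, c) => if v.2 = j then (if c then some false else none) else some true

/-- `z` is consistent with the restriction. -/
def Res.Con {B Z : Type} (ρ : Res B Z) (z : B × Z → Bool) : Prop :=
  ∀ (v : B × Z) (b : Bool), ρ.val v = some b → z v = b

/-- The restrictions with special bits in the sets `D b`. -/
noncomputable def Pi {B Z : Type} [Fintype B] (D : B → Finset Z) : Finset (Res B Z) :=
  Fintype.piFinset fun b => Finset.insertNone (D b ×ˢ (Finset.univ : Finset Bool))

/-- The weight of a state: `1` if there is a free bit, `K` otherwise. -/
def wst {Z : Type} (K : ℕ) : Option (Z × Bool) → ℕ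
  | none => K
  | some (_, false) => 1
  | some (_, true) => K

/-- The weight of a restriction. -/
def wt {B Z : Type} [Fintype B] (K : ℕ) (ρ : Res B Z) : ℕ := ∏ b, wst K (ρ b)

/-- A disjunction of terms; a term is a list of bits with prescribed values. -/
def Dnf {V : Type} (F : List (List (V × Bool))) (z : V → Bool) : Prop :=
  ∃ τ ∈ F, ∀ l ∈ τ, z l.1 = l.2

/-- Under the restriction `ρ`, the disjunction `F` is not computed by a decision tree of depth less
than `s`. -/
def Hard {B Z : Type} (s : ℕ) (F : List (List ((B × Z) × Bool))) (ρ : Res B Z) : Prop :=
  ¬ ∃ T : DT (B × Z), T.depth < s ∧ ∀ z, ρ.Con z → (T.eval z = true ↔ Dnf F z)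

end Pool.Agent.LOW
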