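import Pool.Agent.LOW.Targets

/-!
# The first requirement is dense (target DENS1)
-/

set_option autoImplicit false

namespace Pool.Agent.LOW

theorem p_DENS1 (hLOCN : T_LOCN) (hORCLOC : T_ORCLOC) : T_DENS1 := by
  intro cd Q j c Q' j' c' g₀ m
  by_cases h : ∃ g, Eqm m g₀ g ∧ ∃ x, npf Q j c (orc cd g) x ≠ paf Q' j' c' (orc cd g) x
  · obtain ⟨g, hg, x, hx⟩ := h
    obtain ⟨K₁, hK₁⟩ := hLOCN.1 Q j c
    obtain ⟨K₂, hK₂⟩ := hLOCN.1 Q' j' c'
    have h1 : Loc (npf Q j c) (max K₁ K₂) := (hK₁ _ (le_max_left _ _)).1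
    have h2 : Loc (paf Q' j' c') (max K₁ K₂) := (hK₂ _ (le_max_right _ _)).2
    refine ⟨g, (x.length + 2) ^ (max K₁ K₂), hg, fun g' hg' => Or.inl ⟨x, ?_⟩⟩
    have hv : ∀ v : List Bool, v.length < (x.length + 2) ^ (max K₁ K₂) →
        orc cd g v = orc cd g' v := by
      intro v hv
      refine hORCLOC cd v.length g g' (fun u hu => hg' u ?_) v le_rfl
      exact (hu.trans hv.le)
    rw [← h1 _ _ x hv, ← h2 _ _ x hv]
    exact hx
  · push Not at h
    refine ⟨g₀, m, fun v _ => rfl, fun g' hg' => Or.inr ⟨m, fun g'' hg'' x => ?_⟩⟩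
    exact h g'' (fun v hv => (hg' v hv).trans (hg'' v hv)) x

end Pool.Agent.LOW
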