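import Pool.Agent.LOW.Targets

/-!
# T_DTT: the decision tree theorem
-/

set_option autoImplicit false

namespace Pool.Agent.LOW

namespace DTT_

/-- The block of a certificate. -/
def blk {V : Type} (z : V → Bool) (c : Finset V × (V → Bool)) : Set V :=
  {v | v ∈ c.1 ∧ c.2 v ≠ z v}

theorem not_eq_of_ne {a b : Bool} (h : a ≠ b) : a = !b := by
  cases a <;> cases b <;> simp_all

/-- The sum over all `ζ` of the number of accepting trees is even. -/
theorem even_sum {V : Type} {n : ℕ} (hEVEN : T_EVEN) (z : V → Bool) (B : Fin n → Set V)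
    (hB : ∀ i j, i ≠ j → Disjoint (B i) (B j)) (M : List (DT V)) :
    (∀ T ∈ M, T.depth < n) →
    Even (∑ ζ : Fin n → Bool, M.countP fun T => T.eval (flp z B ζ)) := by
  induction M with
  | nil =>
    intro _
    simp
  | cons T M ih =>
    intro h
    have h1 := ih fun T' hT' => h T' (List.mem_cons_of_mem _ hT')
    have h2 := hEVEN V n B z T hB (h T List.mem_cons_self)
    have h3 : (∑ ζ : Fin n → Bool, (T :: M).countP fun T => T.eval (flp z B ζ)) =
        (∑ ζ : Fin n → Bool, M.countP fun T => T.eval (flp z B ζ)) +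
          (Finset.univ.filter fun ζ : Fin n → Bool => T.eval (flp z B ζ) = true).card := by
      rw [Finset.card_filter, ← Finset.sum_add_distrib]
      refine Finset.sum_congr rfl fun ζ _ => ?_
      rw [List.countP_cons]
    rw [h3]
    exact h1.add h2

theorem odd_card (n : ℕ) (hn : 1 ≤ n) (f : (Fin n → Bool) → ℕ)
    (hf : ∀ ζ, Odd (f ζ) ↔ ∃ i, ζ i = true) : ¬ Even (∑ ζ : Fin n → Bool, f ζ) := by
  classical
  rw [Finset.even_sum_iff_even_card_odd]
  have h1 : (Finset.univ.filter fun ζ : Fin n → Bool => Odd (f ζ)) =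
      Finset.univ.erase fun _ => false := by
    ext ζ
    rw [Finset.mem_filter, Finset.mem_erase, hf]
    constructor
    · rintro ⟨_, i, hi⟩
      refine ⟨fun h => ?_, Finset.mem_univ _⟩
      rw [h] at hi
      exact Bool.false_ne_true hi
    · rintro ⟨h, _⟩
      refine ⟨Finset.mem_univ _, ?_⟩
      by_contra h'
      apply h
      funext i
      by_contra hi
      exact h' ⟨i, by simpa using hi⟩
  rw [h1, Finset.card_erase_of_mem (Finset.mem_univ _), Finset.card_univ]
  have h2 : Fintype.card (Fin n → Bool) = 2 ^ n := by simp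
  rw [h2]
  obtain ⟨m, rfl⟩ := Nat.exists_eq_succ_of_ne_zero (by omega : n ≠ 0)
  have h3 : 0 < 2 ^ m := by positivity
  rw [Nat.succ_eq_add_one, pow_succ]
  intro h4
  obtain ⟨k, hk⟩ := h4
  omega

end DTT_

open DTT_ in
theorem p_DTT (hCHAIN : T_CHAIN) (hSEL : T_SEL) (hEVEN : T_EVEN) : T_DTT := by
  intro V p L M w d S hL hM hLM
  by_contra hno
  obtain ⟨z, hzp, hz0, cs, hlen, hcs, hpair⟩ := hCHAIN V L w S ((w + 1) * (d + 1)) p hL hno
  obtain ⟨cs', hsub, hlen', hpair'⟩ := hSEL V z w (d + 1) cs (fun c hc => (hcs c hc).1)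
    (by omega) hpair
  have hcs' : ∀ c ∈ cs', (∀ z' : V → Bool, (∀ v ∈ c.1, z' v = c.2 v) →
      ∃ T ∈ L, T.eval z' = true) ∧ ∀ v ∈ c.1, c.2 v ≠ z v → p v = none :=
    fun c hc => (hcs c (hsub.subset hc)).2
  obtain ⟨c, hc⟩ : ∃ c : Fin (d + 1) → Finset V × (V → Bool),
      ∀ i : Fin (d + 1), ∃ h : i.1 < cs'.length, c i = cs'[i.1] :=
    ⟨fun i => cs'[i.1]'(by rw [hlen']; exact i.2), fun i => ⟨by rw [hlen']; exact i.2, rfl⟩⟩
  have hmem : ∀ i, c i ∈ cs' := by
    intro i
    obtain ⟨h, hi⟩ := hc i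
    rw [hi]
    exact List.getElem_mem h
  -- different blocks do not meet
  have hne : ∀ i j, i ≠ j → ∀ v, v ∈ (c i).1 → v ∈ (c j).1 → (c i).2 v = z v := by
    intro i j hij v hvi hvj
    obtain ⟨hi1, hi2⟩ := hc i
    obtain ⟨hj1, hj2⟩ := hc j
    rw [List.pairwise_iff_getElem] at hpair'
    rcases lt_or_gt_of_ne (fun h => hij (Fin.ext h) : i.1 ≠ j.1) with h | h
    · have := hpair' i.1 j.1 hi1 hj1 h
      rw [← hi2, ← hj2] at this
      exact this.2 v hvi hvj
    · have := hpair' j.1 i.1 hj1 hi1 h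
      rw [← hi2, ← hj2] at this
      exact this.1 v hvj hvi
  obtain ⟨B, hB⟩ : ∃ B : Fin (d + 1) → Set V, ∀ i v, v ∈ B i ↔ v ∈ (c i).1 ∧ (c i).2 v ≠ z v :=
    ⟨fun i => blk z (c i), fun i v => Iff.rfl⟩
  have hdisj : ∀ i j, i ≠ j → Disjoint (B i) (B j) := by
    intro i j hij
    rw [Set.disjoint_left]
    intro v hvi hvj
    rw [hB] at hvi hvj
    exact hvi.2 (hne i j hij v hvi.1 hvj.1)
  have hp : ∀ ζ : Fin (d + 1) → Bool, ∀ v b, p v = some b → flp z B ζ v = b := by
    intro ζ v b hv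
    have h1 : ¬ ∃ i, ζ i = true ∧ v ∈ B i := by
      rintro ⟨i, _, hi⟩
      rw [hB] at hi
      have := (hcs' _ (hmem i)).2 v hi.1 hi.2
      rw [this] at hv
      exact absurd hv (by simp)
    unfold flp
    rw [if_neg h1]
    exact hzp v b hv
  have hone : ∀ ζ : Fin (d + 1) → Bool, (∃ T ∈ L, T.eval (flp z B ζ) = true) ↔
      ∃ i, ζ i = true := by
    intro ζ
    constructor
    · intro h
      by_contra hζ
      apply hz0
      have h1 : flp z B ζ = z := by
        funext v
        unfold flp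
        rw [if_neg]
        rintro ⟨i, hi, _⟩
        exact hζ ⟨i, hi⟩
      rwa [h1] at h
    · rintro ⟨i, hi⟩
      refine (hcs' _ (hmem i)).1 _ fun v hv => ?_
      unfold flp
      by_cases h1 : (c i).2 v = z v
      · rw [if_neg, h1]
        rintro ⟨j, _, hj⟩
        rw [hB] at hj
        by_cases hij : i = j
        · rw [← hij] at hj
          exact hj.2 h1
        · exact hj.2 (hne j i (Ne.symm hij) v hj.1 hv)
      · rw [if_pos ⟨i, hi, (hB i v).2 ⟨hv, h1⟩⟩]
        exact (not_eq_of_ne h1).symm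
  refine odd_card (d + 1) (by omega) (fun ζ => M.countP fun T => T.eval (flp z B ζ)) ?_
    (even_sum hEVEN z B hdisj M fun T hT => by have := hM T hT; omega)
  intro ζ
  rw [← hLM (flp z B ζ) (hp ζ)]
  exact hone ζ

end Pool.Agent.LOW
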