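import Mathlib

/-!
# The polynomial hierarchy, parity-P and the low hierarchy relative to an oracle

Languages, programs with two oracles, and the classes `P`, `NP`, `⊕P`, `Σ_k^{P,A}` and the low
hierarchy `LH`, all relative to an oracle `O`. For the empty oracle `O = emp` these are the notions
of the problem file.
-/

set_option autoImplicit false

namespace Pool.Agent.LOW

/-- A language over `{0,1}`, given by its characteristic function; oracles are languages. -/
abbrev Lang : Type := List Bool → Bool

/-- The empty language. -/
def emp : Lang := fun _ => false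

/-- Instructions of a program with stacks of bits (the top of a stack is the head of the list) and
two oracles `O` and `A`:
* `push s b` puts the bit `b` on stack `s` and goes to the next instruction;
* `pop s l₀ l₁ l₂` removes the top bit of stack `s` and goes to instruction `l₀` if it was `0`
  and to `l₁` if it was `1`; if the stack is empty it goes to `l₂`;
* `ask i s l₀ l₁` asks an oracle (`O` if `i` is false, `A` if `i` is true) about the word on stack
  `s` (the stack is not changed) and goes to `l₀` if the answer is no and to `l₁` if it is yes. -/
inductive Instr : Type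
  | push (s : ℕ) (b : Bool)
  | pop (s l₀ l₁ l₂ : ℕ)
  | ask (i : Bool) (s l₀ l₁ : ℕ)

/-- A configuration: the number of the next instruction and the contents of the stacks. -/
structure Cfg : Type where
  pc : ℕ
  st : ℕ → List Bool

/-- One step of the program `Q` with the oracles `O` and `A`. The program halts when the number of
the next instruction is at least the length of `Q`; a halted configuration does not change. -/
def step (O A : Lang) (Q : List Instr) (c : Cfg) : Cfg :=
  match Q[c.pc]? with
  | none => c
  | some (Instr.push s b) => ⟨c.pc + 1, Function.update c.st s (b :: c.st s)⟩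
  | some (Instr.pop s l₀ l₁ l₂) =>
    match c.st s with
    | [] => ⟨l₂, c.st⟩
    | false :: u => ⟨l₀, Function.update c.st s u⟩
    | true :: u => ⟨l₁, Function.update c.st s u⟩
  | some (Instr.ask i s l₀ l₁) =>
    ⟨if (if i then A (c.st s) else O (c.st s)) then l₁ else l₀, c.st⟩

/-- The configuration after `t` steps on input `x`: the program starts at instruction `0` with `x`
on stack `0` and all other stacks empty. -/
def run (O A : Lang) (Q : List Instr) (x : List Bool) (t : ℕ) : Cfg :=
  (step O A Q)^[t] ⟨0, Function.update (fun _ => []) 0 x⟩

/-- `Q` with the oracles `O` and `A` decides the language `B` in time `T` (a function of the length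
of the input): it halts and the output is read on stack `1`. -/
def Decides (O A : Lang) (Q : List Instr) (B : Lang) (T : ℕ → ℕ) : Prop :=
  ∀ x : List Bool, Q.length ≤ (run O A Q x (T x.length)).pc ∧
    (run O A Q x (T x.length)).st 1 = [B x]

/-- The class `P^A` relative to `O`. -/
def P (O A : Lang) : Set Lang :=
  {B | ∃ (Q : List Instr) (c : ℕ), Decides O A Q B (fun n => (n + 2) ^ c)}

/-- The code of a pair of words: every bit of `x` is preceded by a `1`, then come `0` and `y`. -/
def pair (x y : List Bool) : List Bool := x.flatMap (fun b => [true, b]) ++ false :: y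

/-- The class `Σ_k^{P,A}` relative to `O`: `Σ_0^{P,A} = P^A`, and `B` is in `Σ_(k+1)^{P,A}` if
there are `C` in `Σ_k^{P,A}` and a polynomial bound such that `x ∈ B` iff `(x,y) ∉ C` for some word
`y` of polynomial length. -/
def Sigma : ℕ → Lang → Lang → Set Lang
  | 0, O, A => P O A
  | k + 1, O, A => {B | ∃ C ∈ Sigma k O A, ∃ j : ℕ, ∀ x : List Bool,
      B x = true ↔ ∃ y : List Bool, y.length ≤ (x.length + 2) ^ j ∧ C (pair x y) = false}

/-- The class `NP` relative to `O`. -/
def NP (O : Lang) : Set Lang :=
  {B | ∃ C ∈ P O emp, ∃ j : ℕ, ∀ x : List Bool,
      B x = true ↔ ∃ y : List Bool, y.length ≤ (x.length + 2) ^ j ∧ C (pair x y) = true}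

/-- The class `⊕P` relative to `O`. -/
def ParP (O : Lang) : Set Lang :=
  {B | ∃ C ∈ P O emp, ∃ j : ℕ, ∀ x : List Bool,
      B x = true ↔ Odd {y : List Bool | y.length ≤ (x.length + 2) ^ j ∧
        C (pair x y) = true}.ncard}

/-- The low hierarchy relative to `O`: the languages `A` in `NP` such that
`Σ_k^{P,A} = Σ_k^P` for some `k`. -/
def LH (O : Lang) : Set Lang :=
  {A | A ∈ NP O ∧ ∃ k : ℕ, Sigma k O A = Sigma k O emp}

end Pool.Agent.LOW
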