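import Pool.Agent.LOW.Targets

set_option autoImplicit false

namespace Pool.Agent.LOW

namespace GEN_

theorem trans {m m' : ℕ} {g g' g'' : Lang} (h : Eqm m g g') (hm : m ≤ m') (h' : Eqm m' g' g'') :
    Eqm m g g'' := by
  intro v hv
  exact (h v hv).trans (h' v (hv.trans hm))

end GEN_

open GEN_

theorem p_GEN : T_GEN := by
  intro Rq h
  choose G M hG hM using h
  let st : ℕ → Lang × ℕ := fun s => Nat.rec (emp, 0)
    (fun s p => (G s p.1 p.2, max (M s p.1 p.2) (p.2 + 1))) s
  have hst : ∀ s, st (s + 1) = (G s (st s).1 (st s).2, max (M s (st s).1 (st s).2)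
      ((st s).2 + 1)) := fun s => rfl
  have hm : ∀ s, (st s).2 + 1 ≤ (st (s + 1)).2 := by
    intro s
    rw [hst]
    exact le_max_right _ _
  have hs : ∀ s, s ≤ (st s).2 := by
    intro s
    induction s with
    | zero => exact Nat.zero_le _
    | succ s ih => exact (Nat.succ_le_succ ih).trans (hm s)
  have hmono : ∀ s t, s ≤ t → (st s).2 ≤ (st t).2 := by
    intro s t hst'
    induction t, hst' using Nat.le_induction with
    | base => exact le_rfl
    | succ t _ ih => exact ih.trans ((Nat.le_succ _).trans (hm t))
  have hagree : ∀ s t, s ≤ t → Eqm (st s).2 (st s).1 (st t).1 := by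
    intro s t hst'
    induction t, hst' using Nat.le_induction with
    | base => exact fun v _ => rfl
    | succ t ht ih =>
      refine trans ih (hmono s t ht) ?_
      rw [hst t]
      exact hG t _ _
  refine ⟨fun v => (st v.length).1 v, fun s => ?_⟩
  have key : Eqm (st (s + 1)).2 (st (s + 1)).1 (fun v => (st v.length).1 v) := by
    intro v hv
    rcases le_total (s + 1) v.length with hc | hc
    · exact hagree (s + 1) v.length hc v hv
    · exact (hagree v.length (s + 1) hc v (hs _)).symm
  apply hM s (st s).1 (st s).2
  intro v hv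
  exact key v (hv.trans (by rw [hst]; exact le_max_left _ _))

end Pool.Agent.LOW
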