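import Pool.Agent.LOW.Targets

/-!
# A good restriction exists

The union bound for the three kinds of bad events.
-/

set_option autoImplicit false

namespace Pool.Agent.LOW

open Classical

namespace GOOD_

lemma union_bound {α ι : Type*} (S T : Finset α) (w : α → ℕ) (I : Finset ι)
    (p : ι → α → Prop) [∀ i, DecidablePred (p i)]
    (h : ∀ x ∈ T, x ∈ S ∧ ∃ i ∈ I, p i x) :
    ∑ x ∈ T, w x ≤ ∑ i ∈ I, ∑ x ∈ S.filter (p i), w x := by
  calc ∑ x ∈ T, w x ≤ ∑ x ∈ T, ∑ i ∈ I, (if p i x then w x else 0) := by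
        refine Finset.sum_le_sum fun x hx => ?_
        obtain ⟨-, i, hi, hp⟩ := h x hx
        have h1 := Finset.single_le_sum (f := fun i => if p i x then w x else 0)
          (fun _ _ => Nat.zero_le _) hi
        simp only [if_pos hp] at h1
        exact h1
    _ = ∑ i ∈ I, ∑ x ∈ T, (if p i x then w x else 0) := Finset.sum_comm
    _ ≤ ∑ i ∈ I, ∑ x ∈ S, (if p i x then w x else 0) := by
        refine Finset.sum_le_sum fun i _ => ?_
        exact Finset.sum_le_sum_of_subset fun x hx => (h x hx).1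
    _ = ∑ i ∈ I, ∑ x ∈ S.filter (p i), w x := by
        refine Finset.sum_congr rfl fun i _ => ?_
        rw [Finset.sum_filter]

lemma sum_union_le {α : Type*} [DecidableEq α] (S A B C : Finset α) (w : α → ℕ) (h : S ⊆ A ∪ B ∪ C) :
    ∑ x ∈ S, w x ≤ ∑ x ∈ A, w x + ∑ x ∈ B, w x + ∑ x ∈ C, w x := by
  have h1 : ∑ x ∈ S, w x ≤ ∑ x ∈ A ∪ B ∪ C, w x := Finset.sum_le_sum_of_subset h
  have h2 := Finset.sum_union_inter (s₁ := A ∪ B) (s₂ := C) (f := w)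
  have h3 := Finset.sum_union_inter (s₁ := A) (s₂ := B) (f := w)
  omega

lemma list_bound {ι : Type*} [DecidableEq ι] (L : List ι) (f : ι → ℕ) (W s : ℕ)
    (h : ∀ i ∈ L, f i * 2 ^ s ≤ W) (hL : 4 * L.length ≤ 2 ^ s) :
    4 * ∑ i ∈ L.toFinset, f i ≤ W := by
  have h1 : (∑ i ∈ L.toFinset, f i) * 2 ^ s ≤ L.length * W := by
    rw [Finset.sum_mul]
    calc ∑ i ∈ L.toFinset, f i * 2 ^ s ≤ ∑ i ∈ L.toFinset, W :=
          Finset.sum_le_sum fun i hi => h i (List.mem_toFinset.1 hi)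
      _ = L.toFinset.card * W := by rw [Finset.sum_const, smul_eq_mul]
      _ ≤ L.length * W := Nat.mul_le_mul_right _ (List.toFinset_card_le L)
  have h2 : (4 * ∑ i ∈ L.toFinset, f i) * 2 ^ s ≤ W * 2 ^ s := by
    calc (4 * ∑ i ∈ L.toFinset, f i) * 2 ^ s = 4 * ((∑ i ∈ L.toFinset, f i) * 2 ^ s) := by ring
      _ ≤ 4 * (L.length * W) := Nat.mul_le_mul_left _ h1
      _ = (4 * L.length) * W := by ring
      _ ≤ 2 ^ s * W := Nat.mul_le_mul_right _ hL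
      _ = W * 2 ^ s := by ring
  exact Nat.le_of_mul_le_mul_right h2 (by positivity)

end GOOD_

open GOOD_

theorem p_GOOD (hSL : T_SL) (hNONE : T_NONE) (hSTAR : T_STAR) : T_GOOD := by
  intro B Z _ D K s t q Fs Gs hK htK hD hsum hFs hFl hGs hGl
  by_contra hcon
  push Not at hcon
  set W : ℕ := ∑ ρ ∈ Pi D, wt K ρ with hW
  have hWpos : 0 < W := by
    refine Finset.sum_pos (fun ρ _ => Finset.prod_pos fun b _ => ?_) ?_
    · unfold wst
      split <;> omega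
    · refine Fintype.piFinset_nonempty.2 fun b => ⟨none, ?_⟩
      simp
  -- the three sums
  have h1 : ∑ ρ ∈ (Pi D).filter (fun ρ => ∃ b, ρ b = none), wt K ρ ≤
      ∑ b, ∑ ρ ∈ (Pi D).filter (fun ρ => ρ b = none), wt K ρ := by
    refine union_bound (Pi D) _ (wt K) Finset.univ (fun b ρ => ρ b = none) fun ρ hρ => ?_
    rw [Finset.mem_filter] at hρ
    obtain ⟨b, hb⟩ := hρ.2
    exact ⟨hρ.1, b, Finset.mem_univ _, hb⟩
  have h2 : ∑ ρ ∈ (Pi D).filter (fun ρ => ∃ F ∈ Fs, Hard s F ρ), wt K ρ ≤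
      ∑ F ∈ Fs.toFinset, ∑ ρ ∈ (Pi D).filter (Hard s F), wt K ρ := by
    refine union_bound (Pi D) _ (wt K) Fs.toFinset (fun F ρ => Hard s F ρ) fun ρ hρ => ?_
    rw [Finset.mem_filter] at hρ
    obtain ⟨F, hF, hb⟩ := hρ.2
    exact ⟨hρ.1, F, List.mem_toFinset.2 hF, hb⟩
  have h3 : ∑ ρ ∈ (Pi D).filter (fun ρ => ∃ G ∈ Gs, ∀ b ∈ G, ∀ j, ρ b ≠ some (j, false)),
      wt K ρ ≤ ∑ G ∈ Gs.toFinset,
        ∑ ρ ∈ (Pi D).filter (fun ρ => ∀ b ∈ G, ∀ j, ρ b ≠ some (j, false)), wt K ρ := by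
    refine union_bound (Pi D) _ (wt K) Gs.toFinset
      (fun G ρ => ∀ b ∈ G, ∀ j, ρ b ≠ some (j, false)) fun ρ hρ => ?_
    rw [Finset.mem_filter] at hρ
    obtain ⟨G, hG, hb⟩ := hρ.2
    exact ⟨hρ.1, G, List.mem_toFinset.2 hG, hb⟩
  have hcover : W ≤ ∑ ρ ∈ (Pi D).filter (fun ρ => ∃ b, ρ b = none), wt K ρ +
      ∑ ρ ∈ (Pi D).filter (fun ρ => ∃ F ∈ Fs, Hard s F ρ), wt K ρ +
      ∑ ρ ∈ (Pi D).filter (fun ρ => ∃ G ∈ Gs, ∀ b ∈ G, ∀ j, ρ b ≠ some (j, false)),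
        wt K ρ := by
    refine sum_union_le _ _ _ _ _ fun ρ hρ => ?_
    rw [Finset.mem_union, Finset.mem_union, Finset.mem_filter, Finset.mem_filter,
      Finset.mem_filter]
    by_cases c1 : ∃ b, ρ b = none
    · exact Or.inl (Or.inl ⟨hρ, c1⟩)
    by_cases c2 : ∃ F ∈ Fs, Hard s F ρ
    · exact Or.inl (Or.inr ⟨hρ, c2⟩)
    right
    refine ⟨hρ, ?_⟩
    push Not at c1 c2
    exact hcon ρ hρ c1 c2
  -- second kind
  have b2 : 4 * ∑ F ∈ Fs.toFinset, ∑ ρ ∈ (Pi D).filter (Hard s F), wt K ρ ≤ W := by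
    refine list_bound Fs _ W s (fun F hF => ?_) hFl
    have h4 := hSL B Z D F t s K hK (hFs F hF)
    have h5 : (∑ ρ ∈ (Pi D).filter (Hard s F), wt K ρ) * 2 ^ s * K ^ s ≤ W * K ^ s := by
      calc (∑ ρ ∈ (Pi D).filter (Hard s F), wt K ρ) * 2 ^ s * K ^ s
          = (∑ ρ ∈ (Pi D).filter (Hard s F), wt K ρ) * K ^ s * 2 ^ s := by ring
        _ ≤ ((4 * t) ^ s * W) * 2 ^ s := Nat.mul_le_mul_right _ h4
        _ = (8 * t) ^ s * W := by
            rw [show 8 * t = (4 * t) * 2 by ring, mul_pow (4 * t) 2 s]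
            ring
        _ ≤ K ^ s * W := Nat.mul_le_mul_right _ (Nat.pow_le_pow_left htK s)
        _ = W * K ^ s := by ring
    exact Nat.le_of_mul_le_mul_right h5 (by positivity)
  -- third kind
  have b3 : 4 * ∑ G ∈ Gs.toFinset,
      ∑ ρ ∈ (Pi D).filter (fun ρ => ∀ b ∈ G, ∀ j, ρ b ≠ some (j, false)), wt K ρ ≤ W := by
    refine list_bound Gs _ W q (fun G hG => ?_) hGl
    exact hSTAR B Z D K q G hK hD (hGs G hG)
  -- first kind
  have b1 : ((∑ b, ∑ ρ ∈ (Pi D).filter (fun ρ => ρ b = none), wt K ρ : ℕ) : ℝ) ≤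
      (W : ℝ) / 4 := by
    push_cast
    have h6 : ∀ b : B, ((∑ ρ ∈ (Pi D).filter (fun ρ => ρ b = none), wt K ρ : ℕ) : ℝ) ≤
        (W : ℝ) * ((1 : ℝ) / (D b).card) := by
      intro b
      have h7 := (hNONE B Z D K b hK).2
      have h8 : (0 : ℝ) < (D b).card := by exact_mod_cast Finset.card_pos.2 (hD b)
      rw [mul_one_div, le_div_iff₀ h8]
      exact_mod_cast h7
    calc ∑ b, ∑ ρ ∈ (Pi D).filter (fun ρ => ρ b = none), ((wt K ρ : ℕ) : ℝ)
        ≤ ∑ b, (W : ℝ) * ((1 : ℝ) / (D b).card) := by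
          refine Finset.sum_le_sum fun b _ => ?_
          have := h6 b
          push_cast at this
          exact this
      _ = (W : ℝ) * ∑ b, (1 : ℝ) / (D b).card := by rw [Finset.mul_sum]
      _ ≤ (W : ℝ) * (1 / 4) := mul_le_mul_of_nonneg_left hsum (by positivity)
      _ = (W : ℝ) / 4 := by ring
  have e1 : (4 : ℝ) * ((∑ b, ∑ ρ ∈ (Pi D).filter (fun ρ => ρ b = none), wt K ρ : ℕ) : ℝ) ≤
      (W : ℝ) := by linarith
  have e2 : 4 * (∑ b, ∑ ρ ∈ (Pi D).filter (fun ρ => ρ b = none), wt K ρ) ≤ W := by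
    exact_mod_cast e1
  omega

end Pool.Agent.LOW
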