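import Pool.Agent.LOW.Targets

/-!
# The main theorem from the targets
-/

set_option autoImplicit false

namespace Pool.Agent.LOW

open Classical

/-- The main theorem. -/
def Main : Prop := ∃ O : Lang, (∀ k, Sigma k O emp ≠ Sigma (k + 1) O emp) ∧
  NP O ∩ ParP O ⊆ LH O ∧
  ∀ A ∈ NP O ∩ ParP O, A ∈ P O emp ∧ ∀ k, Sigma k O A = Sigma k O emp

namespace MAIN_

/-- If `P^A = P` then all levels are equal. -/
theorem sigma_eq (O A : Lang) (h : P O A = P O emp) : ∀ k, Sigma k O A = Sigma k O emp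
  | 0 => h
  | k + 1 => by
      have ih := sigma_eq O A h k
      simp only [Sigma]
      rw [ih]

/-- The index type of the requirements. -/
abbrev Idx : Type := ((List Instr × ℕ × ℕ) × (List Instr × ℕ × ℕ)) ⊕ (List Instr × ℕ × List ℕ)

/-- The requirements. -/
noncomputable def req (cd : ℕ → Code) : Idx → Set Lang
  | Sum.inl q => {g | (∃ x, npf q.1.1 q.1.2.1 q.1.2.2 (orc cd g) x ≠
        paf q.2.1 q.2.2.1 q.2.2.2 (orc cd g) x) ∨
      ∃ m, Robust cd g m q.1.1 q.1.2.1 q.1.2.2 q.2.1 q.2.2.1 q.2.2.2}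
  | Sum.inr q => {g | ∃ n : ℕ, U (q.2.2.length + 1) g (List.replicate n true) ≠
      SigF (orc cd g) q.1 q.2.1 q.2.2 (List.replicate n true)}

theorem req_dense (hDENS1 : T_DENS1) (hDENS2 : T_DENS2) (hOPEN : T_OPEN) (cd : ℕ → Code)
    (i : Idx) (g₀ : Lang) (m : ℕ) : ∃ (g : Lang) (m' : ℕ), Eqm m g₀ g ∧
      ∀ g', Eqm m' g g' → g' ∈ req cd i := by
  rcases i with q | q
  · obtain ⟨⟨Q, j, c⟩, ⟨Q', j', c'⟩⟩ := q
    exact hDENS1 cd Q j c Q' j' c' g₀ m
  · obtain ⟨Q, c, js⟩ := q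
    obtain ⟨g, hg, n, hn⟩ := hDENS2 cd Q c js g₀ m
    obtain ⟨m', hm'⟩ := hOPEN cd Q c js (js.length + 1) (List.replicate n true)
    refine ⟨g, m', hg, fun g' hg' => ?_⟩
    obtain ⟨h1, h2⟩ := hm' g g' hg'
    refine ⟨n, ?_⟩
    show U (js.length + 1) g' (List.replicate n true) ≠
      SigF (orc cd g') Q c js (List.replicate n true)
    rw [← h1, ← h2]
    exact hn

end MAIN_

theorem main_of (hCNT : T_CNT) (hGEN : T_GEN) (hDENS1 : T_DENS1) (hDENS2 : T_DENS2)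
    (hOPEN : T_OPEN) (hSIG : T_SIG) (hUIN : T_UIN) (hNPP : T_NPP) (hREPL : T_REPL) : Main := by
  have : Countable Instr := hCNT.1
  have : Countable Code := hCNT.2
  have : Nonempty Code := ⟨(0, (0, []), Fn.np [] 0 0)⟩
  obtain ⟨cd, hcd⟩ := exists_surjective_nat Code
  have : Nonempty MAIN_.Idx := ⟨Sum.inr ([], 0, [])⟩
  obtain ⟨e, he⟩ := exists_surjective_nat MAIN_.Idx
  obtain ⟨g, hg⟩ := hGEN (fun s => MAIN_.req cd (e s))
    (fun s g₀ m => MAIN_.req_dense hDENS1 hDENS2 hOPEN cd (e s) g₀ m)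
  have hreq : ∀ i, g ∈ MAIN_.req cd i := by
    intro i
    obtain ⟨s, hs⟩ := he i
    have := hg s
    simp only [hs] at this
    exact this
  have hRob : Rob cd g := by
    intro Q j c Q' j' c'
    exact hreq (Sum.inl ((Q, j, c), (Q', j', c')))
  have hcol : ∀ A ∈ NP (orc cd g) ∩ ParP (orc cd g),
      A ∈ P (orc cd g) emp ∧ ∀ k, Sigma k (orc cd g) A = Sigma k (orc cd g) emp := by
    intro A hA
    obtain ⟨h1, h2⟩ := hNPP cd g hcd hRob A hA
    exact ⟨h1, MAIN_.sigma_eq _ _ (Set.Subset.antisymm h2 (hREPL _ _))⟩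
  refine ⟨orc cd g, ?_, ?_, hcol⟩
  · intro k hk
    have h1 : U (k + 1) g ∈ Sigma (k + 1) (orc cd g) emp := hUIN cd g (k + 1)
    rw [← hk] at h1
    obtain ⟨Q, c, js, hjs, hU⟩ := hSIG k (orc cd g) (U (k + 1) g) h1
    obtain ⟨n, hn⟩ := hreq (Sum.inr (Q, c, js))
    apply hn
    show U (js.length + 1) g (List.replicate n true) =
      SigF (orc cd g) Q c js (List.replicate n true)
    rw [hjs, hU]
  · intro A hA
    exact ⟨hA.1, 0, (hcol A hA).2 0⟩

end Pool.Agent.LOW
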