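import Pool.Agent.LOW.Targets

/-!
# A program with the empty second oracle never has to ask it
-/

set_option autoImplicit false

namespace Pool.Agent.LOW

namespace REPL_

/-- Replace every question to the second oracle by a jump. -/
def conv : Instr → Instr
  | Instr.push s b => Instr.push s b
  | Instr.pop s l₀ l₁ l₂ => Instr.pop s l₀ l₁ l₂
  | Instr.ask i s l₀ l₁ => if i then Instr.ask false s l₀ l₀ else Instr.ask false s l₀ l₁

theorem step_eq (O A : Lang) (Q : List Instr) (c : Cfg) :
    step O A (Q.map conv) c = step O emp Q c := by
  unfold step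
  rw [List.getElem?_map]
  rcases h : Q[c.pc]? with _ | i
  · rfl
  · cases i with
    | push s b => rfl
    | pop s l₀ l₁ l₂ => rfl
    | ask i s l₀ l₁ =>
      cases i with
      | false => simp [conv]
      | true => simp [conv, emp]

theorem run_eq (O A : Lang) (Q : List Instr) (x : List Bool) (t : ℕ) :
    run O A (Q.map conv) x t = run O emp Q x t := by
  have h : step O A (Q.map conv) = step O emp Q := funext (step_eq O A Q)
  unfold run
  rw [h]

end REPL_

theorem p_REPL : T_REPL := by
  intro O A B hB
  obtain ⟨Q, c, hQ⟩ := hB
  refine ⟨Q.map REPL_.conv, c, fun x => ?_⟩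
  rw [REPL_.run_eq, List.length_map]
  exact hQ x

end Pool.Agent.LOW
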