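import Pool.Agent.LOW.Targets

/-!
# Project LOW, target ROBDT: decision trees for robust pairs
-/

set_option autoImplicit false

namespace Pool.Agent.LOW

open Classical

namespace ROBDT_

theorem mem_W {m : ℕ} {y : List Bool} : y ∈ W m ↔ y.length ≤ m := by
  simp [W]

theorem in_mono {V : Type} {S S' : Set V} (h : S ⊆ S') (T : DT V) : T.In S → T.In S' := by
  induction T with
  | leaf a => intro _; trivial
  | node v l r ihl ihr => exact fun h1 => ⟨h h1.1, ihl h1.2.1, ihr h1.2.2⟩

theorem sh_mono {m m' : ℕ} (h : m ≤ m') : Sh m ⊆ Sh m' := fun _ hv => le_trans hv h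

theorem pair_len (x y : List Bool) : (pair x y).length = 2 * x.length + 1 + y.length := by
  unfold pair
  rw [List.length_append, List.length_flatMap]
  simp
  ring

/-- Exponents. -/
theorem expo (N j c : ℕ) (hN : 2 ≤ N) : ∀ l : ℕ, l ≤ 2 * N + N ^ j →
    (l + 2) ^ c ≤ N ^ ((j + 4) * (c + 1) + 1) ∧
    l + (l + 2) ^ c ≤ N ^ ((j + 4) * (c + 1) + 1) := by
  intro l hl
  have hN1 : 1 ≤ N := by omega
  have h1 : N ≤ N ^ (j + 1) := by
    calc N = N ^ 1 := (pow_one N).symm
      _ ≤ N ^ (j + 1) := Nat.pow_le_pow_right hN1 (by omega)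
  have h2 : N ^ j ≤ N ^ (j + 1) := Nat.pow_le_pow_right hN1 (by omega)
  have h3 : l + 2 ≤ N ^ (j + 4) := by
    have e1 : N ^ (j + 4) = N ^ (j + 1) * N ^ 3 := by rw [← pow_add]
    have e2 : 2 ^ 3 ≤ N ^ 3 := Nat.pow_le_pow_left hN 3
    rw [e1]
    nlinarith
  have h4 : (l + 2) ^ c ≤ N ^ ((j + 4) * (c + 1)) := by
    calc (l + 2) ^ c ≤ (N ^ (j + 4)) ^ c := Nat.pow_le_pow_left h3 c
      _ = N ^ ((j + 4) * c) := by rw [← pow_mul]
      _ ≤ N ^ ((j + 4) * (c + 1)) :=
          Nat.pow_le_pow_right hN1 (Nat.mul_le_mul_left _ (Nat.le_succ c))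
  have h5 : l ≤ N ^ ((j + 4) * (c + 1)) := by
    calc l ≤ N ^ (j + 4) := by omega
      _ ≤ N ^ ((j + 4) * (c + 1)) :=
          Nat.pow_le_pow_right hN1 (Nat.le_mul_of_pos_right _ (Nat.succ_pos c))
  have h6 : N ^ ((j + 4) * (c + 1) + 1) = N ^ ((j + 4) * (c + 1)) * N := pow_succ _ _
  constructor
  · rw [h6]
    nlinarith
  · rw [h6]
    nlinarith

/-- The trees for the acceptance. -/
theorem trees (hRUNDT : T_RUNDT) (hDEP : T_DEP) (cd : ℕ → Code) (Q : List Instr) (j c : ℕ)
    (x : List Bool) (E : ℕ) (hE : E = (j + 4) * (c + 1) + 1) :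
    ∃ f : List Bool → DT (List Bool), ∀ y : List Bool, y.length ≤ (x.length + 2) ^ j →
      (f y).depth ≤ (x.length + 2) ^ (2 * E) ∧ (f y).In (Sh ((x.length + 2) ^ E)) ∧
      ∀ g : Lang, (f y).eval g = true ↔ acc (orc cd g) emp Q c (pair x y) := by
  have key : ∀ y : List Bool, ∃ T : DT (List Bool), y.length ≤ (x.length + 2) ^ j →
      T.depth ≤ (x.length + 2) ^ (2 * E) ∧ T.In (Sh ((x.length + 2) ^ E)) ∧
      ∀ g : Lang, T.eval g = true ↔ acc (orc cd g) emp Q c (pair x y) := by
    intro y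
    by_cases hy : y.length ≤ (x.length + 2) ^ j
    · have hl : (pair x y).length ≤ 2 * (x.length + 2) + (x.length + 2) ^ j := by
        rw [pair_len]
        omega
      obtain ⟨e1, e2⟩ := expo (x.length + 2) j c (by omega) _ hl
      rw [← hE] at e1 e2
      obtain ⟨T, h1, h2, h3⟩ := hRUNDT Set.univ (fun g => orc cd g) (fun _ => emp)
        (fun v => tr cd v) (fun _ => DT.leaf false) Q (pair x y) (((pair x y).length + 2) ^ c)
        ((x.length + 2) ^ E) ((x.length + 2) ^ E) (by
          intro v hv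
          have hv' : v.length ≤ (x.length + 2) ^ E := hv.trans e2
          obtain ⟨d1, d2⟩ := hDEP cd v
          refine ⟨d1.trans hv', in_mono (sh_mono hv') _ d2, Nat.zero_le _, trivial, ?_⟩
          intro g _
          exact ⟨rfl, rfl⟩)
      refine ⟨T, fun _ => ⟨h1.trans ?_, h2, fun g => h3 g (Set.mem_univ g)⟩⟩
      calc ((pair x y).length + 2) ^ c * (x.length + 2) ^ E
          ≤ (x.length + 2) ^ E * (x.length + 2) ^ E := Nat.mul_le_mul_right _ e1
        _ = (x.length + 2) ^ (2 * E) := by rw [← pow_add, two_mul]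
    · exact ⟨DT.leaf false, fun h => absurd h hy⟩
  choose f hf using key
  exact ⟨f, hf⟩

theorem countP_toList {α : Type} (s : Finset α) (p : α → Bool) :
    s.toList.countP p = (s.filter fun a => p a = true).card := by
  have h1 : p = fun b => decide (p b = true) := by
    funext b
    simp
  calc s.toList.countP p = s.toList.countP (fun b => decide (p b = true)) := by rw [← h1]
    _ = Multiset.countP (fun b => p b = true) (s.toList : Multiset α) := by
        rw [Multiset.coe_countP]
    _ = Multiset.countP (fun b => p b = true) s.val := by rw [Finset.coe_toList]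
    _ = (s.filter fun a => p a = true).card := by
        rw [Multiset.countP_eq_card_filter]
        rfl

theorem final (N K w d E E' : ℕ) (hN : 2 ≤ N) (hw : w = N ^ (2 * E)) (hd : d = N ^ (2 * E'))
    (hK : 4 * E + 2 * E' + 2 ≤ K) : w * ((w + 1) * (d + 1)) ≤ N ^ K := by
  have hN1 : 1 ≤ N := by omega
  have hw1 : 1 ≤ w := by rw [hw]; exact Nat.one_le_pow _ _ hN1
  have hd1 : 1 ≤ d := by rw [hd]; exact Nat.one_le_pow _ _ hN1
  calc w * ((w + 1) * (d + 1)) ≤ w * ((w * N) * (d * N)) := by
        apply Nat.mul_le_mul_left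
        apply Nat.mul_le_mul
        · nlinarith
        · nlinarith
    _ = N ^ (4 * E + 2 * E' + 2) := by
        rw [hw, hd]
        ring
    _ ≤ N ^ K := Nat.pow_le_pow_right hN1 hK

end ROBDT_

open ROBDT_

theorem p_ROBDT (hRUNDT : T_RUNDT) (hDTT : T_DTT) (hDEP : T_DEP) : T_ROBDT := by
  intro cd g m Q j c Q' j' c' hR
  obtain ⟨E, hE⟩ : ∃ E, E = (j + 4) * (c + 1) + 1 := ⟨_, rfl⟩
  obtain ⟨E', hE'⟩ : ∃ E', E' = (j' + 4) * (c' + 1) + 1 := ⟨_, rfl⟩
  refine ⟨4 * E + 2 * E' + 2, ?_⟩
  intro K hK x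
  obtain ⟨f, hf⟩ := trees hRUNDT hDEP cd Q j c x E hE
  obtain ⟨f', hf'⟩ := trees hRUNDT hDEP cd Q' j' c' x E' hE'
  set p : List Bool → Option Bool := fun v => if v.length ≤ m then some (g v) else none with hp
  have hpz : ∀ z : Lang, (∀ v b, p v = some b → z v = b) ↔ Eqm m g z := by
    intro z
    constructor
    · intro h v hv
      exact (h v (g v) (by rw [hp]; simp only [if_pos hv])).symm
    · intro h v b hb
      by_cases hv : v.length ≤ m
      · have e1 : p v = some (g v) := by rw [hp]; simp only [if_pos hv]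
        rw [e1] at hb
        rw [← h v hv]
        exact Option.some.inj hb
      · have e1 : p v = none := by rw [hp]; simp only [if_neg hv]
        rw [e1] at hb
        exact absurd hb (by simp)
  have hL : ∀ z : Lang, (∃ T ∈ (W ((x.length + 2) ^ j)).toList.map f, T.eval z = true) ↔
      npf Q j c (orc cd z) x = true := by
    intro z
    unfold npf
    rw [decide_eq_true_iff]
    constructor
    · rintro ⟨T, hT, h1⟩
      obtain ⟨y, hy, rfl⟩ := List.mem_map.mp hT
      have hy' := mem_W.mp (Finset.mem_toList.mp hy)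
      exact ⟨y, hy', ((hf y hy').2.2 z).mp h1⟩
    · rintro ⟨y, hy, h1⟩
      exact ⟨f y, List.mem_map_of_mem (Finset.mem_toList.mpr (mem_W.mpr hy)),
        ((hf y hy).2.2 z).mpr h1⟩
  have hM : ∀ z : Lang, Odd (((W ((x.length + 2) ^ j')).toList.map f').countP
      fun T => T.eval z) ↔ paf Q' j' c' (orc cd z) x = true := by
    intro z
    unfold paf
    rw [decide_eq_true_iff, List.countP_map, countP_toList]
    have e1 : {y : List Bool | y.length ≤ (x.length + 2) ^ j' ∧
        acc (orc cd z) emp Q' c' (pair x y)} =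
        (((W ((x.length + 2) ^ j')).filter fun y =>
          ((fun T : DT (List Bool) => T.eval z) ∘ f') y = true : Finset (List Bool)) :
          Set (List Bool)) := by
      ext y
      simp only [Set.mem_ofPred_eq, Finset.coe_filter, mem_W, Function.comp_apply]
      constructor
      · rintro ⟨h1, h2⟩
        exact ⟨h1, ((hf' y h1).2.2 z).mpr h2⟩
      · rintro ⟨h1, h2⟩
        exact ⟨h1, ((hf' y h1).2.2 z).mp h2⟩
    rw [e1, Set.ncard_coe_finset]
  obtain ⟨T, h1, h2, h3⟩ := hDTT (List Bool) p ((W ((x.length + 2) ^ j)).toList.map f)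
    ((W ((x.length + 2) ^ j')).toList.map f') ((x.length + 2) ^ (2 * E))
    ((x.length + 2) ^ (2 * E')) (Sh ((x.length + 2) ^ E))
    (by
      intro T hT
      obtain ⟨y, hy, rfl⟩ := List.mem_map.mp hT
      have hy' := mem_W.mp (Finset.mem_toList.mp hy)
      exact ⟨(hf y hy').1, (hf y hy').2.1⟩)
    (by
      intro T hT
      obtain ⟨y, hy, rfl⟩ := List.mem_map.mp hT
      have hy' := mem_W.mp (Finset.mem_toList.mp hy)
      exact (hf' y hy').1)
    (by
      intro z hz
      rw [hL z, hM z, hR z ((hpz z).mp hz) x])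
  refine ⟨T, h1.trans (final _ K _ _ E E' (by omega) rfl rfl hK), in_mono (sh_mono ?_) T h2, ?_⟩
  · exact Nat.pow_le_pow_right (by omega) (by omega)
  · intro g' hg'
    have h4 := (h3 g' ((hpz g').mpr hg')).trans (hL g')
    exact Bool.eq_iff_iff.mpr h4

end Pool.Agent.LOW
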