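import Pool.Agent.LOW.Targets

/-!
# RUNDT: runs of programs are computed by decision trees
-/

set_option autoImplicit false

namespace Pool.Agent.LOW

namespace RUNDT_

/-- The tree `T` with the leaves replaced by the trees `T₀` and `T₁`. -/
def graft {V : Type} (T₀ T₁ : DT V) : DT V → DT V
  | DT.leaf a => if a then T₁ else T₀
  | DT.node v l r => DT.node v (graft T₀ T₁ l) (graft T₀ T₁ r)

lemma eval_graft {V : Type} (T₀ T₁ : DT V) (z : V → Bool) (T : DT V) :
    (graft T₀ T₁ T).eval z = if T.eval z then T₁.eval z else T₀.eval z := by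
  induction T with
  | leaf a => cases a <;> simp [graft, DT.eval]
  | node v l r ihl ihr =>
    simp only [graft, DT.eval, ihl, ihr]
    by_cases h : z v = true
    · simp [h]
    · simp [h]

lemma depth_graft {V : Type} (T₀ T₁ : DT V) (k : ℕ) (h₀ : T₀.depth ≤ k) (h₁ : T₁.depth ≤ k)
    (T : DT V) : (graft T₀ T₁ T).depth ≤ T.depth + k := by
  induction T with
  | leaf a => cases a <;> simp [graft, DT.depth, h₀, h₁]
  | node v l r ihl ihr =>
    simp only [graft, DT.depth]
    omega

lemma in_graft {V : Type} (T₀ T₁ : DT V) (S : Set V) (h₀ : T₀.In S) (h₁ : T₁.In S)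
    (T : DT V) (h : T.In S) : (graft T₀ T₁ T).In S := by
  induction T with
  | leaf a => cases a <;> simp [graft, h₀, h₁]
  | node v l r ihl ihr =>
    simp only [graft, DT.In] at h ⊢
    exact ⟨h.1, ihl h.2.1, ihr h.2.2⟩

lemma main (G : Set Lang) (X Y : Lang → Lang) (a b : List Bool → DT (List Bool))
    (Q : List Instr) (N D' W' : ℕ)
    (H : ∀ v : List Bool, v.length ≤ N →
      (a v).depth ≤ D' ∧ (a v).In (Sh W') ∧ (b v).depth ≤ D' ∧ (b v).In (Sh W') ∧
      ∀ g ∈ G, X g v = (a v).eval g ∧ Y g v = (b v).eval g) :
    ∀ (s M : ℕ) (c : Cfg), M + s ≤ N → (∀ i, (c.st i).length ≤ M) →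
      ∃ T : DT (List Bool), T.depth ≤ s * D' ∧ T.In (Sh W') ∧
        ∀ g ∈ G, (T.eval g = true ↔ ((step (X g) (Y g) Q)^[s] c).st 1 = [true]) := by
  classical
  intro s
  induction s with
  | zero =>
    intro M c _ _
    refine ⟨DT.leaf (decide (c.st 1 = [true])), by simp [DT.depth], trivial, ?_⟩
    intro g _
    simp [DT.eval]
  | succ s ih =>
    intro M c hM hc
    have hM1 : (M + 1) + s ≤ N := by omega
    have hmul : s * D' ≤ (s + 1) * D' := Nat.mul_le_mul_right _ (Nat.le_succ s)
    -- the case of a next configuration that does not depend on the oracles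
    have fixed : ∀ c' : Cfg, (∀ g, step (X g) (Y g) Q c = c') →
        (∀ i, (c'.st i).length ≤ M + 1) →
        ∃ T : DT (List Bool), T.depth ≤ (s + 1) * D' ∧ T.In (Sh W') ∧
          ∀ g ∈ G, (T.eval g = true ↔ ((step (X g) (Y g) Q)^[s + 1] c).st 1 = [true]) := by
      intro c' h1 h2
      obtain ⟨T, hT1, hT2, hT3⟩ := ih (M + 1) c' hM1 h2
      refine ⟨T, hT1.trans hmul, hT2, ?_⟩
      intro g hg
      rw [hT3 g hg, Function.iterate_succ_apply, h1 g]
    have hc1 : ∀ i, (c.st i).length ≤ M + 1 := fun i => (hc i).trans (Nat.le_succ M)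
    have hupd : ∀ (k : ℕ) (u : List Bool), u.length ≤ M + 1 →
        ∀ i, (Function.update c.st k u i).length ≤ M + 1 := by
      intro k u hu i
      by_cases hik : i = k
      · subst hik
        rw [Function.update_self]
        exact hu
      · rw [Function.update_of_ne hik]
        exact hc1 i
    rcases hQ : Q[c.pc]? with _ | ins
    · refine fixed c (fun g => ?_) hc1
      simp only [step, hQ]
    · cases ins with
      | push k d =>
        refine fixed ⟨c.pc + 1, Function.update c.st k (d :: c.st k)⟩ (fun g => ?_) ?_
        · simp only [step, hQ]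
        · refine hupd k _ ?_
          simp [hc k]
      | pop k l₀ l₁ l₂ =>
        rcases hk : c.st k with _ | ⟨d, u⟩
        · refine fixed ⟨l₂, c.st⟩ (fun g => ?_) hc1
          simp only [step, hQ, hk]
        · have hu : u.length ≤ M + 1 := by
            have h3 := hc k
            rw [hk, List.length_cons] at h3
            omega
          cases d with
          | false =>
            refine fixed ⟨l₀, Function.update c.st k u⟩ (fun g => ?_) (hupd k u hu)
            simp only [step, hQ, hk]
          | true =>
            refine fixed ⟨l₁, Function.update c.st k u⟩ (fun g => ?_) (hupd k u hu)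
            simp only [step, hQ, hk]
      | ask i k l₀ l₁ =>
        obtain ⟨T₀, h01, h02, h03⟩ := ih (M + 1) ⟨l₀, c.st⟩ hM1 hc1
        obtain ⟨T₁, h11, h12, h13⟩ := ih (M + 1) ⟨l₁, c.st⟩ hM1 hc1
        have hv : (c.st k).length ≤ N := (hc k).trans (by omega)
        obtain ⟨ha1, ha2, hb1, hb2, hab⟩ := H (c.st k) hv
        refine ⟨graft T₀ T₁ (if i then b (c.st k) else a (c.st k)), ?_, ?_, ?_⟩
        · refine (depth_graft T₀ T₁ (s * D') h01 h11 _).trans ?_
          have h4 : (if i then b (c.st k) else a (c.st k)).depth ≤ D' := by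
            cases i
            · simpa using ha1
            · simpa using hb1
          rw [Nat.succ_mul]
          omega
        · refine in_graft T₀ T₁ _ h02 h12 _ ?_
          cases i
          · simpa using ha2
          · simpa using hb2
        · intro g hg
          have h5 : step (X g) (Y g) Q c =
              ⟨if (if i then Y g (c.st k) else X g (c.st k)) then l₁ else l₀, c.st⟩ := by
            simp only [step, hQ]
          have h6 : (if i then b (c.st k) else a (c.st k)).eval g =
              (if i then Y g (c.st k) else X g (c.st k)) := by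
            cases i
            · simp [(hab g hg).1]
            · simp [(hab g hg).2]
          rw [eval_graft, Function.iterate_succ_apply, h5, h6]
          cases h7 : (if i then Y g (c.st k) else X g (c.st k))
          · simpa using h03 g hg
          · simpa using h13 g hg

end RUNDT_

theorem p_RUNDT : T_RUNDT := by
  intro G X Y a b Q x t D' W' H
  refine RUNDT_.main G X Y a b Q (x.length + t) D' W' H t x.length
    ⟨0, Function.update (fun _ => []) 0 x⟩ le_rfl ?_
  intro i
  by_cases hi : i = 0
  · subst hi
    simp
  · simp [Function.update_of_ne hi]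

end Pool.Agent.LOW
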