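import Pool.Agent.LOW.Targets

/-!
# Alternating machines for the levels of the hierarchy; the test languages are in the levels
-/

set_option autoImplicit false

namespace Pool.Agent.LOW

open Classical

namespace SIG_

/-- A language in `P` is the language of an accepting program. -/
theorem base (O B : Lang) (h : B ∈ P O emp) :
    ∃ (Q : List Instr) (c : ℕ), B = SigF O Q c [] := by
  obtain ⟨Q, c, hQ⟩ := h
  refine ⟨Q, c, ?_⟩
  funext x
  have h2 : (run O emp Q x ((x.length + 2) ^ c)).st 1 = [B x] := (hQ x).2
  have h3 : acc O emp Q c x ↔ B x = true := by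
    unfold acc
    rw [h2]
    simp
  show B x = decide (acc O emp Q c x)
  cases hb : B x with
  | false =>
    symm
    rw [decide_eq_false_iff_not, h3, hb]
    simp
  | true =>
    symm
    rw [decide_eq_true_iff, h3, hb]

/-- The inductive step for languages. -/
theorem stepS (O B C : Lang) (Q : List Instr) (c j : ℕ) (js : List ℕ) (hC : C = SigF O Q c js)
    (h : ∀ x : List Bool,
      B x = true ↔ ∃ y : List Bool, y.length ≤ (x.length + 2) ^ j ∧ C (pair x y) = false) :
    B = SigF O Q c (j :: js) := by
  subst hC
  funext x
  show B x = decide (∃ y : List Bool, y.length ≤ (x.length + 2) ^ j ∧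
      SigF O Q c js (pair x y) = false)
  cases hb : B x with
  | false =>
    symm
    rw [decide_eq_false_iff_not, ← h x, hb]
    simp
  | true =>
    symm
    rw [decide_eq_true_iff, ← h x, hb]

end SIG_

/-- Languages of the levels are languages of alternating machines. -/
theorem p_SIG : T_SIG := by
  intro k
  induction k with
  | zero =>
    intro O B h
    obtain ⟨Q, c, hB⟩ := SIG_.base O B h
    exact ⟨Q, c, [], rfl, hB⟩
  | succ k ih =>
    intro O B h
    obtain ⟨C, hC, j, hB⟩ := h
    obtain ⟨Q, c, js, hl, hCeq⟩ := ih O C hC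
    exact ⟨Q, c, j :: js, by simp [hl], SIG_.stepS O B C Q c j js hCeq hB⟩

/-- The test languages are in the levels. -/
theorem p_UIN (hVALS : T_VALS) (hUZ : T_UZ) : T_UIN := by
  intro cd g k
  induction k with
  | zero => exact hUZ (orc cd g) g (hVALS cd g).1
  | succ k ih =>
    refine ⟨U k g, ih, 2, ?_⟩
    intro x
    show decide (∃ y : List Bool, y.length ≤ (x.length + 2) ^ 2 ∧
      U k g (pair x y) = false) = true ↔ _
    rw [decide_eq_true_iff]

end Pool.Agent.LOW
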