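import Pool.Agent.LOW.Targets

/-!
# The switching lemma
-/

set_option autoImplicit false

namespace Pool.Agent.LOW

open Classical

namespace SL_

/-- A list code of length `s` with entries bounded by `t` comes from a function. -/
theorem code {t s : ℕ} (c : List (ℕ × Bool × Bool)) (hc : c.length = s)
    (h : ∀ a ∈ c, a.1 < t) : ∃ f : Fin s → Fin t × Bool × Bool,
      c = List.ofFn (fun i => ((f i).1.val, (f i).2)) := by
  subst hc
  refine ⟨fun i => (⟨(c.get i).1, h _ (List.get_mem c i)⟩, (c.get i).2), ?_⟩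
  apply List.ext_getElem
  · simp
  · intro i h1 h2
    simp

/-- The weights. -/
theorem weight {B Z : Type} [Fintype B] (K s : ℕ) (ρ ρ' : Res B Z) (S : Finset B)
    (hS : S.card = s)
    (h1 : ∀ b ∈ S, ∃ j, ρ b = some (j, false) ∧ (ρ' b = none ∨ ρ' b = some (j, true)))
    (h2 : ∀ b, b ∉ S → ρ' b = ρ b) : wt K ρ' = wt K ρ * K ^ s := by
  unfold wt
  rw [← Finset.prod_mul_prod_compl S (fun b => wst K (ρ' b)),
    ← Finset.prod_mul_prod_compl S (fun b => wst K (ρ b))]
  have e1 : ∏ b ∈ S, wst K (ρ' b) = K ^ s := by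
    rw [← hS]
    apply Finset.prod_eq_pow_card
    intro b hb
    obtain ⟨j, -, h | h⟩ := h1 b hb
    · rw [h]
      rfl
    · rw [h]
      rfl
  have e2 : ∏ b ∈ S, wst K (ρ b) = 1 := by
    apply Finset.prod_eq_one
    intro b hb
    obtain ⟨j, h, -⟩ := h1 b hb
    rw [h]
    rfl
  have e3 : ∏ b ∈ Sᶜ, wst K (ρ' b) = ∏ b ∈ Sᶜ, wst K (ρ b) := by
    apply Finset.prod_congr rfl
    intro b hb
    rw [h2 b (Finset.mem_compl.1 hb)]
  rw [e1, e2, e3]
  ring

/-- The new restriction is allowed. -/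
theorem mem {B Z : Type} [Fintype B] (D : B → Finset Z) (ρ ρ' : Res B Z) (S : Finset B)
    (hρ : ρ ∈ Pi D)
    (h1 : ∀ b ∈ S, ∃ j, ρ b = some (j, false) ∧ (ρ' b = none ∨ ρ' b = some (j, true)))
    (h2 : ∀ b, b ∉ S → ρ' b = ρ b) : ρ' ∈ Pi D := by
  unfold Pi at hρ ⊢
  rw [Fintype.mem_piFinset] at hρ ⊢
  intro b
  by_cases hb : b ∈ S
  · obtain ⟨j, h, h' | h'⟩ := h1 b hb
    · rw [h']
      exact Finset.none_mem_insertNone
    · have := hρ b
      rw [h, Finset.some_mem_insertNone, Finset.mem_product] at this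
      rw [h', Finset.some_mem_insertNone, Finset.mem_product]
      exact ⟨this.1, Finset.mem_univ _⟩
  · rw [h2 b hb]
    exact hρ b

end SL_

open SL_ in
theorem p_SL (hSLE : T_SLE) : T_SL := by
  intro B Z _ D F t s K _ hF
  obtain ⟨dec, hdec⟩ := hSLE B Z F t hF
  have key : ∀ ρ : Res B Z, ρ ∈ (Pi D).filter (Hard s F) →
      ∃ p : (Fin s → Fin t × Bool × Bool) × Res B Z,
        p.2 ∈ Pi D ∧ wt K p.2 = wt K ρ * K ^ s ∧
        dec (List.ofFn (fun i => ((p.1 i).1.val, (p.1 i).2))) p.2 = ρ := by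
    intro ρ hρ
    rw [Finset.mem_filter] at hρ
    obtain ⟨ρ', c, S, hc, hct, hd, hS, h1, h2⟩ := hdec s ρ hρ.2
    obtain ⟨f, hf⟩ := code c hc hct
    refine ⟨(f, ρ'), mem D ρ ρ' S hρ.1 h1 h2, weight K s ρ ρ' S hS h1 h2, ?_⟩
    rw [← hf]
    exact hd
  choose g hg using key
  let G : {x // x ∈ (Pi D).filter (Hard s F)} → (Fin s → Fin t × Bool × Bool) × Res B Z :=
    fun x => g x.1 x.2
  have hinj : Function.Injective G := by
    intro x y hxy
    have h1 := (hg x.1 x.2).2.2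
    have h2 := (hg y.1 y.2).2.2
    have h3 : g x.1 x.2 = g y.1 y.2 := hxy
    rw [h3] at h1
    exact Subtype.ext (h1.symm.trans h2)
  calc (∑ ρ ∈ (Pi D).filter (Hard s F), wt K ρ) * K ^ s
      = ∑ ρ ∈ (Pi D).filter (Hard s F), wt K ρ * K ^ s := Finset.sum_mul _ _ _
    _ = ∑ x ∈ ((Pi D).filter (Hard s F)).attach, wt K x.1 * K ^ s :=
        (Finset.sum_attach _ (fun ρ => wt K ρ * K ^ s)).symm
    _ = ∑ x ∈ ((Pi D).filter (Hard s F)).attach, wt K (G x).2 :=
        Finset.sum_congr rfl fun x _ => ((hg x.1 x.2).2.1).symm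
    _ = ∑ p ∈ ((Pi D).filter (Hard s F)).attach.image G, wt K p.2 :=
        by rw [Finset.sum_image fun x _ y _ h => hinj h]
    _ ≤ ∑ p ∈ (Finset.univ : Finset (Fin s → Fin t × Bool × Bool)) ×ˢ Pi D, wt K p.2 := by
        apply Finset.sum_le_sum_of_subset
        intro p hp
        rw [Finset.mem_image] at hp
        obtain ⟨x, -, rfl⟩ := hp
        exact Finset.mem_product.2 ⟨Finset.mem_univ _, (hg x.1 x.2).1⟩
    _ = (4 * t) ^ s * ∑ ρ ∈ Pi D, wt K ρ := by
        rw [Finset.sum_product]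
        simp only [Finset.sum_const, smul_eq_mul, Finset.card_univ]
        congr 1
        simp only [Fintype.card_pi, Fintype.card_prod, Fintype.card_fin, Fintype.card_bool,
          Finset.prod_const, Finset.card_univ]
        congr 1
        ring

end Pool.Agent.LOW
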