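import Pool.Agent.LOW.Targets

set_option autoImplicit false

/-!
# The encoding in the switching lemma
-/

namespace Pool.Agent.LOW

open Classical

namespace SLE_

variable {B Z : Type}

/-- The state of a block whose free bit `j` was set to `a`. -/
def stt (j : Z) (a : Bool) : Option (Z × Bool) := if a then none else some (j, true)

/-- Set the variable `v` to `a`. -/
noncomputable def setv (ρ : Res B Z) (v : B × Z) (a : Bool) : Res B Z :=
  Function.update ρ v.1 (stt v.2 a)

/-- Some consistent assignment satisfies the term. -/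
def Live (ρ : Res B Z) (τ : List ((B × Z) × Bool)) : Prop :=
  ∃ z, ρ.Con z ∧ ∀ l ∈ τ, z l.1 = l.2

/-- The decoding function. -/
noncomputable def dec (F : List (List ((B × Z) × Bool))) :
    List (ℕ × Bool × Bool) → Option (List ((B × Z) × Bool)) → Res B Z → Res B Z
  | [], _, ρ => ρ
  | (p, a, fl) :: c, cur, ρ =>
    match cur.or (F.find? fun τ => decide (Live ρ τ)) with
    | none => ρ
    | some τ =>
      match τ[p]? with
      | none => ρ
      | some l => Function.update (dec F c (if fl then none else some τ) (setv ρ l.1 a)) l.1.1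
          (some (l.1.2, false))

/-- The conclusion of the encoding. -/
def Out (F : List (List ((B × Z) × Bool))) (t s : ℕ) (cur : Option (List ((B × Z) × Bool)))
    (ρ ρ' : Res B Z) (c : List (ℕ × Bool × Bool)) (S : Finset B) : Prop :=
  c.length = s ∧ (∀ a ∈ c, a.1 < t) ∧ dec F c cur ρ' = ρ ∧ S.card = s ∧
    (∀ b ∈ S, ∃ j, ρ b = some (j, false) ∧ (ρ' b = none ∨ ρ' b = some (j, true))) ∧
    ∀ b, b ∉ S → ρ' b = ρ b

theorem dec_none (F : List (List ((B × Z) × Bool))) (c : List (ℕ × Bool × Bool))
    (τ : List ((B × Z) × Bool)) (ρ : Res B Z)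
    (h : F.find? (fun τ => decide (Live ρ τ)) = some τ) : dec F c none ρ = dec F c (some τ) ρ := by
  cases c with
  | nil => rfl
  | cons e c =>
    obtain ⟨p, a, fl⟩ := e
    simp only [dec, h, Option.none_or, Option.some_or]

theorem val_eq (ρ ρ' : Res B Z) (v : B × Z) (h : ρ v.1 = ρ' v.1) : ρ.val v = ρ'.val v := by
  unfold Res.val
  rw [h]

theorem val_free (ρ : Res B Z) (v : B × Z) (h : ρ v.1 = some (v.2, false)) : ρ.val v = none := by
  unfold Res.val
  rw [h]
  simp

theorem val_none_iff (ρ : Res B Z) (v : B × Z) : ρ.val v = none ↔ ρ v.1 = some (v.2, false) := by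
  constructor
  · intro h
    unfold Res.val at h
    cases h1 : ρ v.1 with
    | none => rw [h1] at h; simp at h
    | some x =>
      obtain ⟨j, c⟩ := x
      rw [h1] at h
      by_cases hj : v.2 = j
      · subst hj
        cases c with
        | true => simp at h
        | false => rfl
      · simp [hj] at h
  · exact val_free ρ v

theorem val_none_st (ρ : Res B Z) (v : B × Z) (h : ρ v.1 = none) : ρ.val v = some true := by
  unfold Res.val
  rw [h]

theorem val_true_st (ρ : Res B Z) (v : B × Z) (j : Z) (h : ρ v.1 = some (j, true)) :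
    ρ.val v = if v.2 = j then some false else some true := by
  unfold Res.val
  rw [h]
  simp

theorem val_false_st (ρ : Res B Z) (v : B × Z) (j : Z) (h : ρ v.1 = some (j, false)) :
    ρ.val v = if v.2 = j then none else some true := by
  unfold Res.val
  rw [h]
  simp

/-- An assignment consistent with `ρ` is consistent with the restriction where the free variable
`v` is set to its value. -/
theorem con_setv (ρ : Res B Z) (v : B × Z) (hv : ρ v.1 = some (v.2, false)) (z : B × Z → Bool)
    (hz : ρ.Con z) : (setv ρ v (z v)).Con z := by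
  intro u b hb
  by_cases hu : u.1 = v.1
  · have h1 : setv ρ v (z v) u.1 = stt v.2 (z v) := by
      rw [hu]
      unfold setv
      rw [Function.update_self]
    have hr : ρ u.1 = some (v.2, false) := by rw [hu]; exact hv
    by_cases h2 : u.2 = v.2
    · have huv : u = v := Prod.ext hu h2
      cases hzv : z v with
      | true =>
        rw [hzv] at h1
        rw [hzv, val_none_st _ u (by rw [h1]; rfl)] at hb
        rw [huv, hzv]
        exact Option.some.inj hb
      | false =>
        rw [hzv] at h1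
        rw [hzv, val_true_st _ u v.2 (by rw [h1]; rfl), if_pos h2] at hb
        rw [huv, hzv]
        exact Option.some.inj hb
    · have h3 : ρ.val u = some true := by rw [val_false_st ρ u v.2 hr, if_neg h2]
      have h4 := hz u true h3
      rw [h4]
      cases hzv : z v with
      | true =>
        rw [hzv] at h1
        rw [hzv, val_none_st _ u (by rw [h1]; rfl)] at hb
        exact Option.some.inj hb
      | false =>
        rw [hzv] at h1
        rw [hzv, val_true_st _ u v.2 (by rw [h1]; rfl), if_neg h2] at hb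
        exact Option.some.inj hb
  · refine hz u b ?_
    rw [← hb]
    refine val_eq _ _ _ ?_
    unfold setv
    rw [Function.update_of_ne hu]

theorem hard_step (F : List (List ((B × Z) × Bool))) (s : ℕ) (ρ : Res B Z) (v : B × Z)
    (h : Hard (s + 1) F ρ) (hv : ρ v.1 = some (v.2, false)) : ∃ a, Hard s F (setv ρ v a) := by
  by_contra hcon
  push Not at hcon
  unfold Hard at hcon h
  have h0 := hcon false
  have h1 := hcon true
  push Not at h0 h1
  obtain ⟨T0, hd0, hT0⟩ := h0
  obtain ⟨T1, hd1, hT1⟩ := h1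
  apply h
  refine ⟨DT.node v T0 T1, ?_, ?_⟩
  · simp only [DT.depth]
    omega
  · intro z hz
    have hc := con_setv ρ v hv z hz
    simp only [DT.eval]
    cases hzv : z v with
    | true =>
      rw [hzv] at hc
      simpa using hT1 z hc
    | false =>
      rw [hzv] at hc
      simpa using hT0 z hc

theorem stt_ne (j j' : Z) (a : Bool) : stt j a ≠ some (j', false) := by
  cases a <;> simp [stt]

/-- One more entry of the code. -/
theorem out_cons (F : List (List ((B × Z) × Bool))) (t s : ℕ) (τ : List ((B × Z) × Bool))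
    (hτ : τ.length ≤ t) (ρ ρ₁' : Res B Z) (c : List (ℕ × Bool × Bool)) (S : Finset B)
    (v : B × Z) (x a fl : Bool) (p : ℕ) (hp : τ[p]? = some (v, x))
    (hv : ρ v.1 = some (v.2, false))
    (h : Out F t s (if fl then none else some τ) (setv ρ v a) ρ₁' c S) :
    Out F t (s + 1) (some τ) ρ (setv ρ₁' v x) ((p, a, fl) :: c) (insert v.1 S) := by
  obtain ⟨h1, h2, h3, h4, h5, h6⟩ := h
  have hvS : v.1 ∉ S := by
    intro hm
    obtain ⟨j, hj, -⟩ := h5 v.1 hm
    unfold setv at hj
    rw [Function.update_self] at hj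
    exact stt_ne _ _ _ hj
  have hpt : p < t := by
    have := List.getElem?_eq_some_iff.1 hp
    obtain ⟨h, -⟩ := this
    omega
  refine ⟨by simp [h1], ?_, ?_, ?_, ?_, ?_⟩
  · intro e he
    rcases List.mem_cons.1 he with rfl | he
    · exact hpt
    · exact h2 e he
  · have e1 : setv (setv ρ₁' v x) v a = ρ₁' := by
      unfold setv
      rw [Function.update_idem]
      have : ρ₁' v.1 = stt v.2 a := by
        rw [h6 v.1 hvS]
        unfold setv
        rw [Function.update_self]
      rw [← this, Function.update_eq_self]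
    simp only [dec, Option.some_or, hp]
    rw [e1, h3]
    unfold setv
    rw [Function.update_idem, ← hv, Function.update_eq_self]
  · rw [Finset.card_insert_of_notMem hvS, h4]
  · intro b hb
    rcases Finset.mem_insert.1 hb with rfl | hb
    · refine ⟨v.2, hv, ?_⟩
      unfold setv
      rw [Function.update_self]
      cases x <;> simp [stt]
    · have hne : b ≠ v.1 := fun h => hvS (h ▸ hb)
      obtain ⟨j, hj, hj'⟩ := h5 b hb
      unfold setv at hj ⊢
      rw [Function.update_of_ne hne] at hj ⊢
      exact ⟨j, hj, hj'⟩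
  · intro b hb
    rw [Finset.mem_insert, not_or] at hb
    have h7 := h6 b hb.2
    unfold setv at h7 ⊢
    rw [Function.update_of_ne hb.1] at h7 ⊢
    exact h7

/-- The encoding inside a term, from the encoding of size one less. -/
theorem inner (F : List (List ((B × Z) × Bool))) (t s : ℕ) (hF : ∀ τ ∈ F, τ.length ≤ t)
    (ih1 : ∀ ρ : Res B Z, Hard s F ρ → ∃ ρ' c S, Out F t s none ρ ρ' c S)
    (ih2 : ∀ ρ : Res B Z, Hard s F ρ → ∀ τ ∈ F, ∀ (z₀ : B × Z → Bool) (V : List (B × Z)),
      V ≠ [] → V.Nodup → (∀ v ∈ V, ρ v.1 = some (v.2, false) ∧ (v, z₀ v) ∈ τ) →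
      ∃ ρ' c S, Out F t s (some τ) ρ ρ' c S ∧
        ∀ v ∈ V, ρ' v.1 = some (v.2, false) ∨ ρ' v.1 = stt v.2 (z₀ v))
    (ρ : Res B Z) (hh : Hard (s + 1) F ρ) (τ : List ((B × Z) × Bool)) (hτ : τ ∈ F)
    (z₀ : B × Z → Bool) (V : List (B × Z)) (hV : V ≠ []) (hnd : V.Nodup)
    (hfree : ∀ v ∈ V, ρ v.1 = some (v.2, false) ∧ (v, z₀ v) ∈ τ) :
      ∃ ρ' c S, Out F t (s + 1) (some τ) ρ ρ' c S ∧
        ∀ v ∈ V, ρ' v.1 = some (v.2, false) ∨ ρ' v.1 = stt v.2 (z₀ v) := by
  cases V with
  | nil => exact absurd rfl hV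
  | cons v V' =>
    obtain ⟨hv, hvτ⟩ := hfree v (List.mem_cons_self)
    obtain ⟨p, hp⟩ := List.mem_iff_getElem?.1 hvτ
    obtain ⟨a, ha⟩ := hard_step F s ρ v hh hv
    obtain ⟨hvV, hnd'⟩ := List.nodup_cons.1 hnd
    by_cases hV' : V' = []
    · subst hV'
      obtain ⟨ρ₁', c, S, ho⟩ := ih1 _ ha
      refine ⟨setv ρ₁' v (z₀ v), (p, a, true) :: c, insert v.1 S,
        out_cons F t s τ (hF τ hτ) ρ ρ₁' c S v (z₀ v) a true p hp hv (by simpa using ho), ?_⟩
      intro u hu
      rw [List.mem_singleton] at hu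
      subst hu
      right
      unfold setv
      rw [Function.update_self]
    · have hne : ∀ u ∈ V', u.1 ≠ v.1 := by
        intro u hu h
        have h1 := (hfree u (List.mem_cons_of_mem _ hu)).1
        rw [h, hv] at h1
        have h2 : v.2 = u.2 := by
          have := Option.some.inj h1
          exact (Prod.mk.inj this).1
        have h3 : u = v := Prod.ext h h2.symm
        exact hvV (h3 ▸ hu)
      have hfree' : ∀ u ∈ V', setv ρ v a u.1 = some (u.2, false) ∧ (u, z₀ u) ∈ τ := by
        intro u hu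
        obtain ⟨h1, h2⟩ := hfree u (List.mem_cons_of_mem _ hu)
        refine ⟨?_, h2⟩
        unfold setv
        rw [Function.update_of_ne (hne u hu)]
        exact h1
      obtain ⟨ρ₁', c, S, ho, hpr⟩ := ih2 _ ha τ hτ z₀ V' hV' hnd' hfree'
      refine ⟨setv ρ₁' v (z₀ v), (p, a, false) :: c, insert v.1 S,
        out_cons F t s τ (hF τ hτ) ρ ρ₁' c S v (z₀ v) a false p hp hv (by simpa using ho), ?_⟩
      intro u hu
      rcases List.mem_cons.1 hu with rfl | hu
      · right
        unfold setv
        rw [Function.update_self]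
      · unfold setv
        rw [Function.update_of_ne (hne u hu)]
        exact hpr u hu

/-- If all blocks have the same state or are set, the values are preserved. -/
theorem val_ext (ρ ρ' : Res B Z) (S : Finset B)
    (h5 : ∀ b ∈ S, ∃ j, ρ b = some (j, false) ∧ (ρ' b = none ∨ ρ' b = some (j, true)))
    (h6 : ∀ b, b ∉ S → ρ' b = ρ b) (v : B × Z) (b : Bool) (h : ρ.val v = some b) :
    ρ'.val v = some b := by
  by_cases hS : v.1 ∈ S
  · obtain ⟨j, hj, hj'⟩ := h5 v.1 hS
    rw [val_false_st ρ v j hj] at h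
    by_cases h2 : v.2 = j
    · rw [if_pos h2] at h
      exact absurd h (by simp)
    · rw [if_neg h2] at h
      rcases hj' with hj' | hj'
      · rw [val_none_st ρ' v hj', h]
      · rw [val_true_st ρ' v j hj', if_neg h2, h]
  · rw [val_eq ρ' ρ v (h6 v.1 hS)]
    exact h

/-- The encoding at the beginning of a term. -/
theorem outer (F : List (List ((B × Z) × Bool))) (t s : ℕ)
    (ih : ∀ ρ : Res B Z, Hard (s + 1) F ρ → ∀ τ ∈ F, ∀ (z₀ : B × Z → Bool) (V : List (B × Z)),
      V ≠ [] → V.Nodup → (∀ v ∈ V, ρ v.1 = some (v.2, false) ∧ (v, z₀ v) ∈ τ) →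
      ∃ ρ' c S, Out F t (s + 1) (some τ) ρ ρ' c S ∧
        ∀ v ∈ V, ρ' v.1 = some (v.2, false) ∨ ρ' v.1 = stt v.2 (z₀ v))
    (ρ : Res B Z) (hh : Hard (s + 1) F ρ) : ∃ ρ' c S, Out F t (s + 1) none ρ ρ' c S := by
  cases hfind : F.find? (fun τ => decide (Live ρ τ)) with
  | none =>
    exfalso
    apply hh
    refine ⟨DT.leaf false, by simp [DT.depth], ?_⟩
    intro z hz
    simp only [DT.eval]
    refine ⟨fun h => absurd h (by simp), ?_⟩
    rintro ⟨τ, hτ, hsat⟩
    have h1 := List.find?_eq_none.1 hfind τ hτ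
    have h2 : ¬ Live ρ τ := by simpa using h1
    exact absurd (⟨z, hz, hsat⟩ : Live ρ τ) h2
  | some τ =>
    obtain ⟨hlive, as, bs, hFeq, has⟩ := List.find?_eq_some_iff_append.1 hfind
    have hlive' : Live ρ τ := by simpa using hlive
    have hτF : τ ∈ F := by rw [hFeq]; simp
    obtain ⟨z₀, hz₀, hsat⟩ := hlive'
    set V : List (B × Z) :=
      ((τ.filter fun l => decide (ρ l.1.1 = some (l.1.2, false))).map Prod.fst).dedup with hVdef
    have hVmem : ∀ v, v ∈ V ↔ ρ v.1 = some (v.2, false) ∧ (v, z₀ v) ∈ τ := by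
      intro v
      rw [hVdef, List.mem_dedup, List.mem_map]
      constructor
      · rintro ⟨l, hl, rfl⟩
        rw [List.mem_filter] at hl
        have h1 : (l.1, z₀ l.1) = l := Prod.ext rfl (hsat l hl.1)
        exact ⟨by simpa using hl.2, by rw [h1]; exact hl.1⟩
      · rintro ⟨h1, h2⟩
        exact ⟨(v, z₀ v), List.mem_filter.2 ⟨h2, by simpa using h1⟩, rfl⟩
    have hVne : V ≠ [] := by
      intro hV
      apply hh
      refine ⟨DT.leaf true, by simp [DT.depth], ?_⟩
      intro z hz
      simp only [DT.eval]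
      refine ⟨fun _ => ⟨τ, hτF, ?_⟩, fun _ => trivial⟩
      intro l hl
      have hnot : ¬ ρ l.1.1 = some (l.1.2, false) := by
        intro hfr
        have h1 : (l.1, z₀ l.1) = l := Prod.ext rfl (hsat l hl)
        have : l.1 ∈ V := (hVmem l.1).2 ⟨hfr, by rw [h1]; exact hl⟩
        rw [hV] at this
        exact absurd this (by simp)
      cases hval : ρ.val l.1 with
      | none => exact absurd ((val_none_iff ρ l.1).1 hval) hnot
      | some b =>
        rw [hz l.1 b hval, ← hsat l hl, hz₀ l.1 b hval]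
    obtain ⟨ρ', c, S, ho, hpr⟩ := ih ρ hh τ hτF z₀ V hVne (List.nodup_dedup _)
      (fun v hv => (hVmem v).1 hv)
    refine ⟨ρ', c, S, ?_⟩
    obtain ⟨h1, h2, h3, h4, h5, h6⟩ := ho
    have hext := val_ext ρ ρ' S h5 h6
    have hcon : ∀ z, ρ'.Con z → ρ.Con z := fun z hz v b hb => hz v b (hext v b hb)
    have hnew : F.find? (fun τ => decide (Live ρ' τ)) = some τ := by
      refine List.find?_eq_some_iff_append.2 ⟨?_, as, bs, hFeq, ?_⟩
      · have : Live ρ' τ := by
          refine ⟨fun v => (ρ'.val v).getD (z₀ v), ?_, ?_⟩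
          · intro v b hb
            simp only [hb, Option.getD_some]
          · intro l hl
            have hl' : (l.1, z₀ l.1) = l := Prod.ext rfl (hsat l hl)
            show (ρ'.val l.1).getD (z₀ l.1) = l.2
            cases hval : ρ.val l.1 with
            | none =>
              have hfr := (val_none_iff ρ l.1).1 hval
              have hlV : l.1 ∈ V := (hVmem l.1).2 ⟨hfr, by rw [hl']; exact hl⟩
              rcases hpr l.1 hlV with h | h
              · rw [val_free ρ' l.1 h, Option.getD_none]
                exact hsat l hl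
              · cases hz : z₀ l.1 with
                | true =>
                  rw [hz] at h
                  rw [val_none_st ρ' l.1 h, Option.getD_some, ← hsat l hl, hz]
                | false =>
                  rw [hz] at h
                  rw [val_true_st ρ' l.1 l.1.2 h, if_pos rfl, Option.getD_some, ← hsat l hl, hz]
            | some b =>
              rw [hext l.1 b hval, Option.getD_some, ← hsat l hl, hz₀ l.1 b hval]
        simpa using this
      · intro τ' hτ'
        have h := has τ' hτ'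
        have h' : ¬ Live ρ τ' := by simpa using h
        have : ¬ Live ρ' τ' := fun ⟨z, hz, hs⟩ => h' ⟨z, hcon z hz, hs⟩
        simpa using this
    exact ⟨h1, h2, by rw [dec_none F c τ ρ' hnew]; exact h3, h4, h5, h6⟩

theorem main (F : List (List ((B × Z) × Bool))) (t : ℕ) (hF : ∀ τ ∈ F, τ.length ≤ t) (s : ℕ) :
    (∀ ρ : Res B Z, Hard s F ρ → ∃ ρ' c S, Out F t s none ρ ρ' c S) ∧
    (∀ ρ : Res B Z, Hard s F ρ → ∀ τ ∈ F, ∀ (z₀ : B × Z → Bool) (V : List (B × Z)),
      V ≠ [] → V.Nodup → (∀ v ∈ V, ρ v.1 = some (v.2, false) ∧ (v, z₀ v) ∈ τ) →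
      ∃ ρ' c S, Out F t s (some τ) ρ ρ' c S ∧
        ∀ v ∈ V, ρ' v.1 = some (v.2, false) ∨ ρ' v.1 = stt v.2 (z₀ v)) := by
  induction s with
  | zero =>
    refine ⟨fun ρ _ => ⟨ρ, [], ∅, rfl, by simp, rfl, rfl, by simp, fun _ _ => rfl⟩, ?_⟩
    intro ρ _ τ _ z₀ V _ _ hV
    exact ⟨ρ, [], ∅, ⟨rfl, by simp, rfl, rfl, by simp, fun _ _ => rfl⟩,
      fun v hv => Or.inl (hV v hv).1⟩
  | succ s ih =>
    have h2 := inner F t s hF ih.1 ih.2
    exact ⟨outer F t s h2, h2⟩

end SLE_

open SLE_ in
theorem p_SLE : T_SLE := by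
  intro B Z F t hF
  refine ⟨fun c ρ' => dec F c none ρ', fun s ρ hh => ?_⟩
  obtain ⟨ρ', c, S, h⟩ := (main F t hF s).1 ρ hh
  exact ⟨ρ', c, S, h⟩

end Pool.Agent.LOW
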