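import Pool.Agent.LOW.Targets

/-!
# Project LOW: a good restriction for the tree of words (STEPG)
-/

set_option autoImplicit false

namespace Pool.Agent.LOW

open Classical

namespace STEPG_

/-- The words of length exactly `m`. -/
noncomputable def WE (m : ℕ) : Finset (List Bool) :=
  (Finset.univ : Finset (Fin m → Bool)).image List.ofFn

theorem mem_WE {m : ℕ} {y : List Bool} : y ∈ WE m ↔ y.length = m := by
  unfold WE
  rw [Finset.mem_image]
  constructor
  · rintro ⟨f, -, rfl⟩
    exact List.length_ofFn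
  · rintro rfl
    exact ⟨fun i => y.get i, Finset.mem_univ _, List.ofFn_get y⟩

theorem card_WE (m : ℕ) : (WE m).card = 2 ^ m := by
  unfold WE
  rw [Finset.card_image_of_injective _ List.ofFn_injective, Finset.card_univ]
  simp

theorem pair_nil (y : List Bool) : pair [] y = false :: y := rfl

theorem pair_cons (b : Bool) (x y : List Bool) : pair (b :: x) y = true :: b :: pair x y := rfl

theorem pair_inj : ∀ {x x' y y' : List Bool}, pair x y = pair x' y' → x = x' ∧ y = y' := by
  intro x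
  induction x with
  | nil =>
    intro x' y y' h
    cases x' with
    | nil =>
      rw [pair_nil, pair_nil] at h
      exact ⟨rfl, (List.cons.inj h).2⟩
    | cons b x' =>
      rw [pair_nil, pair_cons] at h
      exact absurd (List.cons.inj h).1 Bool.false_ne_true
  | cons a x ih =>
    intro x' y y' h
    cases x' with
    | nil =>
      rw [pair_nil, pair_cons] at h
      exact absurd (List.cons.inj h).1.symm Bool.false_ne_true
    | cons b x' =>
      rw [pair_cons, pair_cons] at h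
      have h1 := (List.cons.inj (List.cons.inj h).2)
      obtain ⟨h2, h3⟩ := ih h1.2
      exact ⟨by rw [h1.1, h2], h3⟩

theorem mem_W {m : ℕ} {y : List Bool} : y ∈ W m ↔ y.length ≤ m := by
  unfold W
  rw [Set.Finite.mem_toFinset]
  exact Iff.rfl

theorem mem_R_succ {n k : ℕ} {u y : List Bool} (hu : u ∈ R n k)
    (hy : y.length ≤ (u.length + 2) ^ 2) : pair u y ∈ R n (k + 1) := by
  unfold R
  rw [Finset.mem_biUnion]
  exact ⟨u, hu, Finset.mem_image_of_mem _ (mem_W.2 hy)⟩

/-- The number of words of length at most `a`. -/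
theorem card_short (a : ℕ) : ((Finset.range (a + 1)).biUnion WE).card ≤ 2 ^ (a + 1) := by
  refine Finset.card_biUnion_le.trans ?_
  simp_rw [card_WE]
  have : ∀ m : ℕ, ∑ i ∈ Finset.range m, 2 ^ i ≤ 2 ^ m := by
    intro m
    induction m with
    | zero => simp
    | succ m ih =>
      rw [Finset.sum_range_succ, pow_succ]
      omega
  exact this (a + 1)

/-- The index set of the groups. -/
noncomputable def Ix (n k : ℕ) : Finset (Σ _ : List Bool, List Bool) :=
  (R n k).sigma fun u => WE ((u.length + 2) ^ 2 - n)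

/-- The group of `(u, y₁)`. -/
noncomputable def Gr (n k : ℕ) (i : Σ _ : List Bool, List Bool) :
    Finset {u // u ∈ R n (k + 1)} :=
  Finset.univ.filter fun b => ∃ y₂ : List Bool, y₂.length = n ∧ b.1 = pair i.1 (i.2 ++ y₂)

theorem le_sq {n : ℕ} {u : List Bool} (h : n ≤ u.length) : n ≤ (u.length + 2) ^ 2 := by
  nlinarith

theorem group_mem {n k : ℕ} {i : Σ _ : List Bool, List Bool} (hi : i ∈ Ix n k)
    (h0 : ∀ u ∈ R n k, n ≤ u.length) {y₂ : List Bool} (hy : y₂.length = n) :
    pair i.1 (i.2 ++ y₂) ∈ R n (k + 1) := by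
  obtain ⟨h1, h2⟩ := Finset.mem_sigma.1 hi
  refine mem_R_succ h1 ?_
  rw [List.length_append, mem_WE.1 h2, hy]
  have := le_sq (h0 _ h1)
  omega

theorem card_Gr {n k : ℕ} {i : Σ _ : List Bool, List Bool} (hi : i ∈ Ix n k)
    (h0 : ∀ u ∈ R n k, n ≤ u.length) : 2 ^ n ≤ (Gr n k i).card := by
  rw [← card_WE n]
  refine Finset.card_le_card_of_injOn
    (fun y => if h : pair i.1 (i.2 ++ y) ∈ R n (k + 1) then ⟨pair i.1 (i.2 ++ y), h⟩ else
      ⟨pair i.1 (i.2 ++ List.replicate n false), group_mem hi h0 (by simp)⟩) ?_ ?_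
  · intro y hy
    have hy' : y.length = n := mem_WE.1 (Finset.mem_coe.1 hy)
    rw [Finset.mem_coe]
    dsimp only
    rw [dif_pos (group_mem hi h0 hy')]
    unfold Gr
    rw [Finset.mem_filter]
    exact ⟨Finset.mem_univ _, y, hy', rfl⟩
  · intro y hy y' hy' h
    have h1 : y.length = n := mem_WE.1 (Finset.mem_coe.1 hy)
    have h2 : y'.length = n := mem_WE.1 (Finset.mem_coe.1 hy')
    dsimp only at h
    rw [dif_pos (group_mem hi h0 h1), dif_pos (group_mem hi h0 h2)] at h
    have h3 := (pair_inj (Subtype.mk.inj h)).2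
    exact List.append_cancel_left h3

theorem card_Ix {n k a : ℕ} (h0 : ∀ u ∈ R n k, n ≤ u.length)
    (h1 : ∀ u ∈ R n (k + 1), u.length ≤ a) : (Ix n k).card ≤ 2 ^ (a + 1) := by
  refine le_trans ?_ (card_short a)
  refine Finset.card_le_card_of_injOn
    (fun i => pair i.1 (i.2 ++ List.replicate n false)) ?_ ?_
  · intro i hi
    rw [Finset.mem_coe, Finset.mem_biUnion]
    have h2 := h1 _ (group_mem (Finset.mem_coe.1 hi) h0
      (y₂ := List.replicate n false) (by simp))
    exact ⟨_, Finset.mem_range.2 (Nat.lt_succ_of_le h2), mem_WE.2 rfl⟩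
  · rintro ⟨u, y⟩ _ ⟨u', y'⟩ _ h
    obtain ⟨h2, h3⟩ := pair_inj h
    dsimp only at h2 h3
    have h4 : y = y' := List.append_cancel_right h3
    rw [h2, h4]

theorem pi_mem {B Z : Type} [Fintype B] {D : B → Finset Z} {ρ : Res B Z} (hρ : ρ ∈ Pi D)
    {b : B} {j : Z} {c : Bool} (hb : ρ b = some (j, c)) : j ∈ D b := by
  unfold Pi at hρ
  rw [Fintype.mem_piFinset] at hρ
  have h1 := hρ b
  rw [hb, Finset.some_mem_insertNone, Finset.mem_product] at h1
  exact h1.1

end STEPG_

open STEPG_ in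
theorem p_STEPG (hGOOD : T_GOOD) (hKRAFT : T_KRAFT) : T_STEPG := by
  intro n k s a D Fs hs hn hFr hlen h0 hsz hFs hFl
  obtain ⟨hD, hCh⟩ := hFr
  have hpos : ∀ b : {u // u ∈ R n (k + 1)}, 8 * 4 ^ b.1.length ≤ (Ch D b.1).card := by
    rintro ⟨u, hu⟩
    refine le_trans ?_ (hCh u hu)
    have h1 := (hlen u hu).1
    have h2 : 2 * u.length + 3 ≤ (u.length + 2) ^ 2 - n := by
      have : 2 * u.length + 3 + n ≤ (u.length + 2) ^ 2 := by nlinarith
      omega
    calc 8 * 4 ^ u.length = 2 ^ (2 * u.length + 3) := by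
          rw [pow_add, pow_mul]
          norm_num [mul_comm]
      _ ≤ _ := Nat.pow_le_pow_right (by norm_num) h2
  have hsum : (∑ b : {u // u ∈ R n (k + 1)}, (1 : ℝ) / (Ch D b.1).card) ≤ 1 / 4 := by
    have h1 : ∀ b : {u // u ∈ R n (k + 1)},
        (1 : ℝ) / (Ch D b.1).card ≤ 1 / 8 * (1 / 4) ^ b.1.length := by
      intro b
      have h2 : ((8 * 4 ^ b.1.length : ℕ) : ℝ) ≤ ((Ch D b.1).card : ℝ) := by
        exact_mod_cast hpos b
      push_cast at h2
      have h3 : (0 : ℝ) < 8 * 4 ^ b.1.length := by positivity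
      calc (1 : ℝ) / (Ch D b.1).card ≤ 1 / (8 * 4 ^ b.1.length) :=
            one_div_le_one_div_of_le h3 h2
        _ = 1 / 8 * (1 / 4) ^ b.1.length := by
          rw [one_div_pow]
          field_simp
    refine (Finset.sum_le_sum fun b _ => h1 b).trans ?_
    rw [← Finset.mul_sum]
    have h4 : ∑ b : {u // u ∈ R n (k + 1)}, (1 / 4 : ℝ) ^ b.1.length =
        ∑ u ∈ R n (k + 1), (1 / 4 : ℝ) ^ u.length :=
      Finset.sum_coe_sort (R n (k + 1)) fun u => (1 / 4 : ℝ) ^ u.length
    rw [h4]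
    have := hKRAFT (R n (k + 1))
    linarith
  obtain ⟨ρ, hρ, hnone, hhard, hgr⟩ := hGOOD {u // u ∈ R n (k + 1)} (List Bool)
    (fun b => Ch D b.1) (8 * s) s s (a + 3) Fs ((Ix n k).toList.map (Gr n k)) (by omega) le_rfl
    (fun b => Finset.card_pos.1 (lt_of_lt_of_le (by positivity) (hpos b))) hsum hFs hFl
    (by
      intro G hG
      obtain ⟨i, hi, rfl⟩ := List.mem_map.1 hG
      refine le_trans ?_ (card_Gr (Finset.mem_toList.1 hi) h0)
      refine le_trans (le_of_eq ?_) hsz
      ring)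
    (by
      rw [List.length_map, Finset.length_toList]
      have h1 := card_Ix h0 fun u hu => (hlen u hu).2
      calc 4 * (Ix n k).card ≤ 4 * 2 ^ (a + 1) := Nat.mul_le_mul_left 4 h1
        _ = 2 ^ (a + 3) := by ring)
  refine ⟨ρ, hnone, fun b j c hb => ?_, hhard, Finset.filter_subset _ _, fun u hu => ?_⟩
  · exact pi_mem hρ hb
  · have hsel : ∀ y₁ : List Bool, ∃ y₂ : List Bool, y₁ ∈ WE ((u.length + 2) ^ 2 - n) →
        y₂.length = n ∧ pair u (y₁ ++ y₂) ∈ Dp n k ρ := by
      intro y₁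
      by_cases hy : y₁ ∈ WE ((u.length + 2) ^ 2 - n)
      · have hi : (⟨u, y₁⟩ : Σ _ : List Bool, List Bool) ∈ Ix n k :=
          Finset.mem_sigma.2 ⟨hu, hy⟩
        obtain ⟨b, hb, j, hj⟩ := hgr _ (List.mem_map.2 ⟨_, Finset.mem_toList.2 hi, rfl⟩)
        unfold Gr at hb
        obtain ⟨-, y₂, hy₂, hb'⟩ := Finset.mem_filter.1 hb
        refine ⟨y₂, fun _ => ⟨hy₂, ?_⟩⟩
        unfold Dp
        rw [Finset.mem_filter]
        have hb'' : pair u (y₁ ++ y₂) = b.1 := hb'.symm
        rw [hb'']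
        exact ⟨b.2, b.2, j, hj⟩
      · exact ⟨[], fun h => absurd h hy⟩
    choose f hf using hsel
    rw [← card_WE]
    refine Finset.card_le_card_of_injOn (fun y₁ => y₁ ++ f y₁) ?_ ?_
    · intro y₁ hy₁
      have hy := Finset.mem_coe.1 hy₁
      rw [Finset.mem_coe]
      unfold Ch
      rw [Finset.mem_filter]
      refine ⟨mem_W.2 ?_, (hf y₁ hy).2⟩
      rw [List.length_append, mem_WE.1 hy, (hf y₁ hy).1]
      have := le_sq (h0 u hu)
      omega
    · intro y hy y' hy' h
      have h1 := mem_WE.1 (Finset.mem_coe.1 hy)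
      have h2 := mem_WE.1 (Finset.mem_coe.1 hy')
      exact (List.append_inj h (h1.trans h2.symm)).1

end Pool.Agent.LOW
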