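import Pool.Agent.LOW.Core

/-!
# Targets of project LOW

Each `T_XYZ` is proved in its own file as a theorem `xyz : T_XYZ` (hypotheses only as said in the
job). Notation of the comments: `|x|` is the length of the word `x`, `1^n` is
`List.replicate n true`.
-/

set_option autoImplicit false

namespace Pool.Agent.LOW

open Classical

/-! ## Programs -/

/-- The stacks are short. Induction on `s` (compare `Pool.Agent.RelM.st_len`). -/
def T_LEN : Prop := ∀ (X Y : Lang) (Q : List Instr) (x : List Bool) (s i : ℕ),
  ((run X Y Q x s).st i).length ≤ x.length + s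

/-- The run depends on the oracles only at short words. Induction on `s`, with `T_LEN` (compare
`Pool.Agent.RelM.loc_of_short`). -/
def T_LOC : Prop := ∀ (X X' Y Y' : Lang) (Q : List Instr) (x : List Bool) (t : ℕ),
  (∀ v : List Bool, v.length ≤ x.length + t → X v = X' v ∧ Y v = Y' v) →
  ∀ s ≤ t, run X Y Q x s = run X' Y' Q x s

/-- A halted program stays as it is (compare `Pool.Agent.RelM.stay`). -/
def T_STAY : Prop := ∀ (X Y : Lang) (Q : List Instr) (x : List Bool) (t t' : ℕ),
  Q.length ≤ (run X Y Q x t).pc → t ≤ t' → run X Y Q x t' = run X Y Q x t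

/-- A program that uses the empty second oracle can be replaced by one that never asks the second
oracle: replace every instruction `ask true s l₀ l₁` by `ask false s l₀ l₀` (`List.map`); the runs
with the oracles `O, emp` and `O, A` are the same, step by step, and the lengths are equal. -/
def T_REPL : Prop := ∀ O A : Lang, P O emp ⊆ P O A

/-- The generic part is decided by the program
`[push 0 false, ask false 0 2 4, push 1 false, ask false 0 5 5, push 1 true]` (or a similar one)
in at most `16` steps; `16 ≤ (|x| + 2) ^ 4`; use `T_STAY`. Instruction number `5` is the end. -/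
def T_UZ : Prop := ∀ O g : Lang, (∀ w, O (false :: w) = g w) → g ∈ P O emp

/-- The universal program. Input `x` on stack `0`. First `push 0 false`, then `e` times
`push 0 true`, then `push 0 false`; now stack `0` is `0 1^e 0 x`. Since
`triple m e x = 1^m 0 1^e 0 x`, this is `triple 0 e x`. Then the loop, with
`triple m e x` on stack `0`: `push 0 false; push 0 true; ask false 0 a b`: the question is
`1 0 triple m e x`. At `a` (answer no): pop stack `0` twice, `push 0 true`, back to the loop (a
jump is done by `ask false 0 l l`). At `b` (answer yes): pop stack `0` twice, `push 0 true;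
push 0 true`, `ask false 0 a' b'`: the question is `1 1 triple m e x` and the answer is `B x`. At
`a'`: `push 1 false` and to the end; at `b'`: `push 1 true` and to the end. The loop is run
`(|x| + 2) ^ K + 1` times, so the time is at most `10 * ((|x| + 2) ^ K + 2) + e + 10`, which is at
most `(|x| + 2) ^ (K + e + 10)`. Use `T_STAY`. -/
def T_UNI : Prop := ∀ (O B : Lang) (e K : ℕ),
  (∀ (m : ℕ) (x : List Bool),
    O (true :: false :: triple m e x) = decide ((x.length + 2) ^ K ≤ m)) →
  (∀ (m : ℕ) (x : List Bool), (x.length + 2) ^ K ≤ m →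
    O (true :: true :: triple m e x) = B x) →
  B ∈ P O emp

/-! ## The oracle -/

/-- There are countably many codes: `Instr` injects into
`(ℕ × Bool) ⊕ (ℕ × ℕ × ℕ × ℕ) ⊕ (Bool × ℕ × ℕ × ℕ)`, and `Fn` into
`(List Instr × ℕ × ℕ) ⊕ (List Instr × ℕ × List Instr × ℕ × ℕ)`. -/
def T_CNT : Prop := Countable Instr ∧ Countable Code

/-- Induction on `L`. -/
def T_TRN : Prop := ∀ (cd : ℕ → Code) (L : ℕ) (u : List Bool),
  (u.length < L → trn cd L u = tr cd u) ∧ (L ≤ u.length → trn cd L u = DT.leaf false)

/-- The trees of the oracle are small: unfold `tr`, `trn` and go through the cases of `build`. -/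
def T_DEP : Prop := ∀ (cd : ℕ → Code) (u : List Bool),
  (tr cd u).depth ≤ u.length ∧ (tr cd u).In (Sh u.length)

/-- The values of the oracle on the generic part and on the words `1 0 1^m 0 1^e 0 x`
(`triple` is injective). -/
def T_VALS : Prop := ∀ (cd : ℕ → Code) (g : Lang),
  (∀ w : List Bool, orc cd g (false :: w) = g w) ∧
  (∀ (m e : ℕ) (x : List Bool), orc cd g (true :: false :: triple m e x) =
    decide ((x.length + 2) ^ (cd e).1 ≤ m))

/-- The values at `1 1 1^m 0 1^e 0 x`. Let `L = |1 1 triple m e x|`, so `(|x| + 2) ^ K ≤ m < L`.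
By `T_TRN` the functions `v ↦ (trn cd L v).eval g'` and `orc cd g'` agree at all words of length
less than `L`, so by `Loc` the functional has the same value at `x` for both. Hence the given tree
`T` shows that the condition in `build` holds (`In` and `depth` are monotone,
`(|x| + 2) ^ K ≤ m ≤ |triple m e x|`), and the chosen tree has the right value at `g` (`triple` is
injective). -/
def T_VAL : Prop := ∀ (cd : ℕ → Code) (e m : ℕ) (x : List Bool) (g : Lang),
  g ∈ Cyl (cd e).2.1 → Loc ((cd e).2.2.fn) (cd e).1 → (x.length + 2) ^ (cd e).1 ≤ m →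
  (∃ T : DT (List Bool), T.depth ≤ (x.length + 2) ^ (cd e).1 ∧
    T.In (Sh ((x.length + 2) ^ (cd e).1)) ∧
    ∀ g' ∈ Cyl (cd e).2.1, T.eval g' = (cd e).2.2.fn (orc cd g') x) →
  orc cd g (true :: true :: triple m e x) = (cd e).2.2.fn (orc cd g) x

/-- The oracle is local in the generic part: by `T_DEP` and the fact that the value of a tree
depends only on the bits that are asked. -/
def T_ORCLOC : Prop := ∀ (cd : ℕ → Code) (m : ℕ) (g g' : Lang), Eqm m g g' →
  ∀ v : List Bool, v.length ≤ m → orc cd g v = orc cd g' v

/-- The functionals are local, by `T_LOC`. In `npf` and `paf` the run on `pair x y` with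
`|y| ≤ (|x| + 2) ^ j` has `|pair x y| = 2 |x| + 1 + |y|` and time `(|pair x y| + 2) ^ c`, so all
words asked have length less than `(|x| + 2) ^ K` for all large `K`. In `cof` the words asked have
length at most `|x| + (|x| + 2) ^ d`, and `npf Q j c X` at such a word is local by the first
part. -/
def T_LOCN : Prop :=
  (∀ (Q : List Instr) (j c : ℕ), ∃ K₀ : ℕ, ∀ K, K₀ ≤ K →
    Loc (npf Q j c) K ∧ Loc (paf Q j c) K) ∧
  (∀ (R : List Instr) (d : ℕ) (Q : List Instr) (j c : ℕ), ∃ K₀ : ℕ, ∀ K, K₀ ≤ K →
    Loc (cof R d Q j c) K)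

/-- Runs are computed by decision trees. Prove first the version with values in an arbitrary type:
trees with leaves in `Cfg`. Induction on `t`: at a leaf `c` of the tree for `t` steps (with all
stacks of length at most `|x| + t`; other leaves are not reached by `T_LEN` and may be replaced by
anything) one more step is a single configuration, except for an instruction `ask i s l₀ l₁`,
where the tree `a (c.st s)` or `b (c.st s)` is put below, its leaves replaced by the two possible
next configurations. The depth grows by at most `D'` per step. -/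
def T_RUNDT : Prop := ∀ (G : Set Lang) (X Y : Lang → Lang) (a b : List Bool → DT (List Bool))
  (Q : List Instr) (x : List Bool) (t D' W' : ℕ),
  (∀ v : List Bool, v.length ≤ x.length + t →
    (a v).depth ≤ D' ∧ (a v).In (Sh W') ∧ (b v).depth ≤ D' ∧ (b v).In (Sh W') ∧
    ∀ g ∈ G, X g v = (a v).eval g ∧ Y g v = (b v).eval g) →
  ∃ T : DT (List Bool), T.depth ≤ t * D' ∧ T.In (Sh W') ∧
    ∀ g ∈ G, (T.eval g = true ↔ (run (X g) (Y g) Q x t).st 1 = [true])

/-! ## Generic languages -/

/-- Baire category for finite conditions: construct `g_0, g_1, ...` and `m_0 ≤ m_1 ≤ ...` with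
`m_s ≥ s`, such that `g_(s+1)` agrees with `g_s` up to length `m_s` and every `g'` that agrees with
`g_(s+1)` up to length `m_(s+1)` is in `Rq s`. The limit `g v = g_(|v|) v` is in all `Rq s`. -/
def T_GEN : Prop := ∀ Rq : ℕ → Set Lang,
  (∀ (s : ℕ) (g₀ : Lang) (m : ℕ), ∃ (g : Lang) (m' : ℕ), Eqm m g₀ g ∧
    ∀ g', Eqm m' g g' → g' ∈ Rq s) →
  ∃ g : Lang, ∀ s, g ∈ Rq s

/-! ## The decision tree theorem -/

/-- The restriction of `z` to a chain. `p` tells which bits are fixed. Let `f z` be
`∃ T ∈ L, T.eval z = true`. If no tree of depth at most `w * m` computes `f` on the `z` that agree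
with `p`, then there are a `z` with `f z` false and `m + 1` certificates. A certificate is a pair
`c = (C, h)`: a set `C` of at most `w` bits (the bits asked by some `T ∈ L` on `h`, where
`T.eval h = true`), so that `f z'` holds for all `z'` that agree with `h` on `C`.

Induction on `m`. If `f` is false on all `z` that agree with `p` then the tree `leaf false` works,
so there is `h` that agrees with `p` and `T ∈ L` with `T.eval h = true`; let `C` be the set of
bits asked by `T` on `h`. Case `m = 0`: as `leaf true` does not work there is `z` that agrees with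
`p` with `f z` false; the list `[(C, h)]` is as wanted (if `p v = some b` then `h v = b = z v`).
Case `m + 1`: for some answers `q` on `C` that agree with `p`, no tree of depth at most `w * m`
works for `p' = p` together with `q` (otherwise ask all the bits of `C`, at most `w`, and go on with
the tree for the answers). Take `z` and the list for `p'` and put `(C, h)` in front. -/
def T_CHAIN : Prop := ∀ (V : Type) (L : List (DT V)) (w : ℕ) (S : Set V) (m : ℕ)
  (p : V → Option Bool), (∀ T ∈ L, T.depth ≤ w ∧ T.In S) →
  (¬ ∃ T : DT V, T.depth ≤ w * m ∧ T.In S ∧ ∀ z : V → Bool, (∀ v b, p v = some b → z v = b) →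
    (T.eval z = true ↔ ∃ T' ∈ L, T'.eval z = true)) →
  ∃ z : V → Bool, (∀ v b, p v = some b → z v = b) ∧ (¬ ∃ T' ∈ L, T'.eval z = true) ∧
    ∃ cs : List (Finset V × (V → Bool)), cs.length = m + 1 ∧
      (∀ c ∈ cs, c.1.card ≤ w ∧
        (∀ z' : V → Bool, (∀ v ∈ c.1, z' v = c.2 v) → ∃ T ∈ L, T.eval z' = true) ∧
        ∀ v ∈ c.1, c.2 v ≠ z v → p v = none) ∧
      cs.Pairwise (fun a b => ∀ v ∈ a.1, v ∈ b.1 → b.2 v = z v)

/-- Selection. Call the set of `v ∈ c.1` with `c.2 v ≠ z v` the block of `c`. The hypothesis says
that the block of a later certificate does not meet the set of an earlier one; in particular the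
blocks are disjoint. Induction on `n`: take the last certificate `c`; at most `w` of the other
blocks meet the set `c.1` (`c.1` has at most `w` elements and the blocks are disjoint); throw these
away; at least `(w + 1) * n - 1 - w = (w + 1) * (n - 1)` certificates remain. (For lists it may be
easier to work with the reversed list; `Sublist` is `List.Sublist`.) -/
def T_SEL : Prop := ∀ (V : Type) (z : V → Bool) (w n : ℕ) (cs : List (Finset V × (V → Bool))),
  (∀ c ∈ cs, c.1.card ≤ w) → (w + 1) * n ≤ cs.length →
  cs.Pairwise (fun a b => ∀ v ∈ a.1, v ∈ b.1 → b.2 v = z v) →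
  ∃ cs' : List (Finset V × (V → Bool)), cs'.Sublist cs ∧ cs'.length = n ∧
    cs'.Pairwise (fun a b => (∀ v ∈ a.1, v ∈ b.1 → b.2 v = z v) ∧
      ∀ v ∈ a.1, v ∈ b.1 → a.2 v = z v)

/-- `z` with the blocks `B i`, `ζ i = true`, flipped. -/
noncomputable def flp {V : Type} {n : ℕ} (z : V → Bool) (B : Fin n → Set V) (ζ : Fin n → Bool) :
    V → Bool := fun v => if ∃ i, ζ i = true ∧ v ∈ B i then !(z v) else z v

/-- Parity. Prove more generally, by induction on `T`: for every set `I` of indices with more than
`T.depth` elements and every `ζ₀`, the number of `ζ` that agree with `ζ₀` outside `I` and for which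
`T.eval (flp z B ζ) = true` is even. Leaf: the number is `0` or `2 ^ |I|`. Node `v`: if `v` is in no
`B i` with `i ∈ I` then the value at `v` is the same for all these `ζ`; if `v ∈ B i`, `i ∈ I`, then
it depends only on `ζ i`: split the `ζ` by the value `ζ i` and use the two subtrees with
`I \ {i}`. -/
def T_EVEN : Prop := ∀ (V : Type) (n : ℕ) (B : Fin n → Set V) (z : V → Bool) (T : DT V),
  (∀ i j, i ≠ j → Disjoint (B i) (B j)) → T.depth < n →
  Even ((Finset.univ.filter fun ζ : Fin n → Bool => T.eval (flp z B ζ) = true).card)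

/-- The decision tree theorem: small certificates and low degree over the field with two elements
give a small decision tree. Suppose not. By `T_CHAIN` with `m = (w + 1) * (d + 1)` there are `z` and
more than `(w + 1) * (d + 1)` certificates, by `T_SEL` there are `n = d + 1` certificates
`c_i = (C_i, h_i)` such that no block `B_i = {v ∈ C_i | h_i v ≠ z v}` meets `C_j`, `j ≠ i`; in
particular the blocks are disjoint, and `p v = none` on the blocks. All `z_ζ = flp z B ζ` agree with
`p`. If `ζ = 0` then `z_ζ = z` and `∃ T ∈ L, ..` is false at `z`. If `ζ i = true` then `z_ζ` agrees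
with `h_i` on `C_i`, so `∃ T ∈ L, ..` is true. So the number of `ζ` for which it is true is
`2 ^ n - 1`, which is odd. But it is also congruent modulo `2` to the sum over `ζ` of
`M.countP (T.eval z_ζ)`, which is the sum over the entries `T` of `M` of the number of `ζ` with
`T.eval z_ζ = true`; these numbers are even by `T_EVEN`. -/
def T_DTT : Prop := ∀ (V : Type) (p : V → Option Bool) (L M : List (DT V)) (w d : ℕ) (S : Set V),
  (∀ T ∈ L, T.depth ≤ w ∧ T.In S) → (∀ T ∈ M, T.depth ≤ d) →
  (∀ z : V → Bool, (∀ v b, p v = some b → z v = b) →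
    ((∃ T ∈ L, T.eval z = true) ↔ Odd (M.countP fun T => T.eval z))) →
  ∃ T : DT V, T.depth ≤ w * ((w + 1) * (d + 1)) ∧ T.In S ∧
    ∀ z : V → Bool, (∀ v b, p v = some b → z v = b) →
      (T.eval z = true ↔ ∃ T' ∈ L, T'.eval z = true)

/-! ## The collapse -/

/-- The pair of machines is robust above the words of length at most `m` of `g`. -/
def Robust (cd : ℕ → Code) (g : Lang) (m : ℕ) (Q : List Instr) (j c : ℕ) (Q' : List Instr)
    (j' c' : ℕ) : Prop :=
  ∀ g', Eqm m g g' → ∀ x, npf Q j c (orc cd g') x = paf Q' j' c' (orc cd g') x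

/-- First property of the generic language: the two machines disagree at some word or the pair is
robust. -/
def Rob (cd : ℕ → Code) (g : Lang) : Prop := ∀ (Q : List Instr) (j c : ℕ) (Q' : List Instr)
  (j' c' : ℕ), (∃ x, npf Q j c (orc cd g) x ≠ paf Q' j' c' (orc cd g) x) ∨
    ∃ m, Robust cd g m Q j c Q' j' c'

/-- The requirement is dense: if some `g` that agrees with `g₀` up to length `m` has a word `x`
where the machines disagree, then this is so for all `g'` that agree with `g` up to a large length
(`T_LOCN` and `T_ORCLOC`). Otherwise the pair is robust above `m`. -/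
def T_DENS1 : Prop := ∀ (cd : ℕ → Code) (Q : List Instr) (j c : ℕ) (Q' : List Instr) (j' c' : ℕ)
  (g₀ : Lang) (m : ℕ), ∃ (g : Lang) (m' : ℕ), Eqm m g₀ g ∧ ∀ g', Eqm m' g g' →
    ((∃ x, npf Q j c (orc cd g') x ≠ paf Q' j' c' (orc cd g') x) ∨
      ∃ m₁, Robust cd g' m₁ Q j c Q' j' c')

/-- A robust pair gives decision trees of polynomial depth. Fix `x` and let `p` be `g` on the words
of length at most `m` and `none` elsewhere. For each of the finitely many `y` with
`|y| ≤ (|x| + 2) ^ j` the acceptance of `pair x y` by `Q` is computed by a decision tree (`T_RUNDT`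
with `X = orc cd`, `a = tr cd`, `Y` constant `emp`, `b v = leaf false`, all `g`, and `T_DEP`) of
polynomial depth `w`; let `L` be the list of these trees. Let `M` be the list of the trees for `Q'`.
Then `countP` is the number of accepted `y` (`Finset.toList` of the finite set of words, no
repetitions). Apply `T_DTT`. -/
def T_ROBDT : Prop := ∀ (cd : ℕ → Code) (g : Lang) (m : ℕ) (Q : List Instr) (j c : ℕ)
  (Q' : List Instr) (j' c' : ℕ), Robust cd g m Q j c Q' j' c' →
  ∃ K₀ : ℕ, ∀ K, K₀ ≤ K → ∀ x : List Bool, ∃ T : DT (List Bool),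
    T.depth ≤ (x.length + 2) ^ K ∧ T.In (Sh ((x.length + 2) ^ K)) ∧
    ∀ g', Eqm m g g' → T.eval g' = npf Q j c (orc cd g') x

/-- The same for deterministic machines whose second oracle is the language of the robust pair:
`T_RUNDT` with `G = {g' | Eqm m g g'}`, `X = orc cd`, `a = tr cd`, `Y g' = npf Q j c (orc cd g')`
and `b v` the tree of `T_ROBDT` for `v`, `|v| ≤ |x| + (|x| + 2) ^ d`. -/
def T_CODT : Prop := ∀ (cd : ℕ → Code) (g : Lang) (m : ℕ) (R : List Instr) (d : ℕ)
  (Q : List Instr) (j c : ℕ) (Q' : List Instr) (j' c' : ℕ), Robust cd g m Q j c Q' j' c' →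
  ∃ K₀ : ℕ, ∀ K, K₀ ≤ K → ∀ x : List Bool, ∃ T : DT (List Bool),
    T.depth ≤ (x.length + 2) ^ K ∧ T.In (Sh ((x.length + 2) ^ K)) ∧
    ∀ g', Eqm m g g' → T.eval g' = cof R d Q j c (orc cd g') x

/-- A functional with small trees above a finite condition gives a language in `P`. Let `σ` be the
condition of the words of length at most `m` of `g` (`Cyl σ = {g' | Eqm m g g'}`), and `e` with
`cd e = (K, σ, f)`. Then `T_VALS`, `T_VAL` give the hypotheses of `T_UNI` for the oracle
`orc cd g`. -/
def T_COLL : Prop := ∀ (cd : ℕ → Code) (g : Lang) (m K : ℕ) (f : Fn), Function.Surjective cd →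
  Loc f.fn K →
  (∀ x : List Bool, ∃ T : DT (List Bool), T.depth ≤ (x.length + 2) ^ K ∧
    T.In (Sh ((x.length + 2) ^ K)) ∧ ∀ g', Eqm m g g' → T.eval g' = f.fn (orc cd g') x) →
  f.fn (orc cd g) ∈ P (orc cd g) emp

/-- The collapse. If `A` is in `NP` and in `⊕P` relative to `orc cd g` then
`A = npf Q j c (orc cd g) = paf Q' j' c' (orc cd g)` for some machines (a language in `P` is decided
by a program in time `(n + 2) ^ c`, and then it is true at `u` iff `acc .. c u`), so by `Rob` the
pair is robust. Now `T_ROBDT`, `T_LOCN`, `T_COLL` give `A ∈ P (orc cd g) emp`, and `T_CODT`,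
`T_LOCN`, `T_COLL` give `P (orc cd g) A ⊆ P (orc cd g) emp`. -/
def T_NPP : Prop := ∀ (cd : ℕ → Code) (g : Lang), Function.Surjective cd → Rob cd g →
  ∀ A ∈ NP (orc cd g) ∩ ParP (orc cd g),
    A ∈ P (orc cd g) emp ∧ P (orc cd g) A ⊆ P (orc cd g) emp

/-! ## Circuits for the levels of the hierarchy -/

/-- Induction on `k`. -/
def T_SIG : Prop := ∀ (k : ℕ) (O B : Lang), B ∈ Sigma k O emp →
  ∃ (Q : List Instr) (c : ℕ) (js : List ℕ), js.length = k ∧ B = SigF O Q c js

/-- Languages of alternating machines are computed by circuits. Induction on `js`: for `[]` this is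
`T_RUNDT` with `T_DEP`; for `j :: js` take the list of the circuits for `pair x y`, `y ∈ W (..)`
(`Finset.toList`); there are `2 ^ (b + 1) - 1` words of length at most `b`. -/
def T_BR : Prop := ∀ (cd : ℕ → Code) (Q : List Instr) (c : ℕ) (js : List ℕ),
  ∃ C₀ : ℕ, ∀ x : List Bool, ∃ C : Ckt (List Bool) js.length,
    Ckt.Bd (2 ^ ((x.length + 2) ^ C₀)) ((x.length + 2) ^ C₀) js.length C ∧
    ∀ g : Lang, Ckt.ev g js.length C = SigF (orc cd g) Q c js x

/-- Both sides of the second requirement are local. -/
def T_OPEN : Prop := ∀ (cd : ℕ → Code) (Q : List Instr) (c : ℕ) (js : List ℕ) (k : ℕ)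
  (x : List Bool), ∃ m : ℕ, ∀ g g' : Lang, Eqm m g g' →
    U k g x = U k g' x ∧ SigF (orc cd g) Q c js x = SigF (orc cd g') Q c js x

/-- The test languages are in the levels: `U 0 g = g` by `T_UZ`, and by definition. -/
def T_UIN : Prop := ∀ (cd : ℕ → Code) (g : Lang) (k : ℕ), U k g ∈ Sigma k (orc cd g) emp

/-- Contraction of the last quantifier: induction on `k`. -/
def T_UREC : Prop := ∀ (k : ℕ) (g : Lang) (x : List Bool), U (k + 1) g x = U k (U 1 g) x

/-- `U k g (1^n)` depends only on the values of `g` at the words of `R n k`. Prove by induction on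
`k`, using `T_UREC` and the definition of `R`. -/
def T_ULOC : Prop := ∀ (k n : ℕ) (g g' : Lang), (∀ u ∈ R n k, g u = g' u) →
  U k g (List.replicate n true) = U k g' (List.replicate n true)

/-- Lengths of the words of `R n k`. Induction on `k`. -/
def T_RLEN : Prop := ∀ k : ℕ, ∃ c : ℕ, ∀ n : ℕ, ∀ u ∈ R n k, n ≤ u.length ∧ u.length ≤ (n + 2) ^ c

/-! ## Restrictions -/

/-- The paths of a decision tree to the leaves with the value `false`. Induction on `T`. -/
def T_PATHS : Prop := ∀ (V : Type) (T : DT V), ∃ F : List (List (V × Bool)),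
  (∀ τ ∈ F, τ.length ≤ T.depth) ∧ ∀ z : V → Bool, (T.eval z = false ↔ Dnf F z)

/-- Substitution in decision trees: every bit `v` is replaced by a constant or by a bit of another
function, possibly negated. Induction on `T` (for `f v = Sum.inl (w, true)` exchange the two
subtrees). -/
def T_SUB : Prop := ∀ (V V' : Type) (f : V → (V' × Bool) ⊕ Bool) (T : DT V),
  ∃ T' : DT V', T'.depth ≤ T.depth ∧ ∀ z' : V' → Bool, T'.eval z' =
    T.eval (fun v => match f v with
      | Sum.inl (w, c) => xor (z' w) c
      | Sum.inr b => b)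

/-- The encoding in the switching lemma (Razborov's proof). A restriction `ρ'` is an extension of
`ρ` if for all `b` either `ρ' b = ρ b` or `ρ b = some (j, false)` and `ρ' b = none` or
`ρ' b = some (j, true)`. Then `ρ.val v = some b` implies `ρ'.val v = some b`, and `ρ'.Con z` implies
`ρ.Con z`. A term `τ` is live under `ρ` if some `z` with `ρ.Con z` satisfies `τ`; a term that is
live under `ρ'` is live under `ρ`. Let `τ` be the first term of `F` that is live under `ρ`; let `V`
be the list (without repetitions) of the variables `v` of `τ` with `ρ.val v = none`, that is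
`ρ v.1 = some (v.2, false)`; they are in distinct blocks. The other literals of `τ` have the
right values under `ρ` (since `τ` is live) and so under every extension of `ρ`.

To set `v = (b, j) ∈ V` to the value `0` means to change the state of `b` to `some (j, true)`, and
to set it to `1` means to change the state of `b` to `none`. If `z` is consistent with `ρ` and `V` is
set to the values of `z` then `z` is consistent with the new restriction. If the first elements of
`V` are set to the values prescribed by `τ` then `τ` is live under the new restriction (and under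
every extension of it in which the other variables of `V` are free or have the prescribed
value) and no earlier term is.

Strong induction on `s`: for every `ρ` with `Hard s F ρ` there are `ρ'` and `c` as in the statement.
`s = 0`: `ρ' = ρ`, `c = []`. `s > 0`: some term is live (otherwise `leaf false` would be a tree for
`F`), and `V` is not empty (otherwise `leaf true` would be a tree). Let `r = |V|`. If `s ≤ r`: set
the first `s` elements of `V` to the values prescribed by `τ`; the code is the list of their
positions in `τ` (less than `t`), with any answer bits, and with the flag `true` at the last one. If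
`r < s`: there are values `π` for `V` such that `Hard (s - r) F (ρ[V := π])`: otherwise ask the `r`
variables of `V` (depth `r`) and go on with the trees of depth less than `s - r`. Take `ρ₁'` and
`c₁` for `ρ[V := π]` by induction (`ρ₁'` is an extension of `ρ[V := π]`, so it has the same states
at the blocks of `V`), and let `ρ'` be `ρ₁'` with the blocks of `V` set to the values prescribed by
`τ`. The code is the list of the entries (position in `τ` of the variable, its value in `π`, flag)
with flag `true` at the last one only, followed by `c₁`.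

Decoding (`dec` by recursion on the length of the code, with fuel if needed): if `c = []` the
result is `ρ'`; otherwise find the first term `τ` that is live under `ρ'` (it is the same as
above), take the entries of `c` up to the first flag `true`, read off the variables `v` from their
positions; change the states of their blocks to the values given by the answer bits; decode the
rest of the code; then change the states of these blocks `v.1` to `some (v.2, false)`. (In the case
`s ≤ r` the rest of the code is empty.) -/
def T_SLE : Prop := ∀ (B Z : Type) (F : List (List ((B × Z) × Bool))) (t : ℕ),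
  (∀ τ ∈ F, τ.length ≤ t) → ∃ dec : List (ℕ × Bool × Bool) → Res B Z → Res B Z,
    ∀ (s : ℕ) (ρ : Res B Z), Hard s F ρ →
      ∃ (ρ' : Res B Z) (c : List (ℕ × Bool × Bool)) (S : Finset B),
        c.length = s ∧ (∀ a ∈ c, a.1 < t) ∧ dec c ρ' = ρ ∧ S.card = s ∧
        (∀ b ∈ S, ∃ j, ρ b = some (j, false) ∧ (ρ' b = none ∨ ρ' b = some (j, true))) ∧
        ∀ b, b ∉ S → ρ' b = ρ b

/-- The switching lemma. Choose `ρ'` and `c` for every hard `ρ ∈ Pi D` by `T_SLE`. Then
`ρ' ∈ Pi D` and `wt K ρ' = K ^ s * wt K ρ` (the factors of the `s` blocks of `S` are changed from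
`1` to `K`), and `ρ ↦ (c, ρ')` is injective, as `ρ = dec c ρ'`. The codes `c` can be seen as
functions `Fin s → Fin t × Bool × Bool` (or vectors), so there are `(4 * t) ^ s` of them, and the sum
of `wt K ρ'` over all pairs `(c, ρ')` is `(4 * t) ^ s` times the total weight. -/
def T_SL : Prop := ∀ (B Z : Type) [Fintype B] (D : B → Finset Z)
  (F : List (List ((B × Z) × Bool))) (t s K : ℕ), 1 ≤ K → (∀ τ ∈ F, τ.length ≤ t) →
  (∑ ρ ∈ (Pi D).filter (Hard s F), wt K ρ) * K ^ s ≤ (4 * t) ^ s * ∑ ρ ∈ Pi D, wt K ρ

/-- The total weight, and the weight of the restrictions with prescribed sets of states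
(`Finset.prod_univ_sum`): for all sets `E b` of states,
`∑ over ρ ∈ piFinset E of wt = ∏ b, ∑ x ∈ E b, wst K x`. Here the two consequences which are used.
First: the total weight is positive. Second: the restrictions in `Pi D` with `ρ b = none` have
weight at most `1 / |D b|` of the total: the factor of `b` is `K` instead of
`K + |D b| * (K + 1)`. -/
def T_NONE : Prop := ∀ (B Z : Type) [Fintype B] (D : B → Finset Z) (K : ℕ) (b : B), 1 ≤ K →
  0 < ∑ ρ ∈ Pi D, wt K ρ ∧
  (∑ ρ ∈ (Pi D).filter (fun ρ => ρ b = none), wt K ρ) * (D b).card ≤ ∑ ρ ∈ Pi D, wt K ρ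

/-- The restrictions without a free bit in the blocks of a large set `G` of blocks are few: their
weight is the product over `b ∈ G` of the factors `K + |D b| * K` instead of
`K + |D b| * (K + 1)`; the quotient is at most `1 - 1 / (2 K + 1)` since `K ≤ K * |D b|`; and
`(1 - 1 / a) ^ (a q) ≤ 2 ^ (- q)` (for example by Bernoulli, `(a / (a - 1)) ^ a ≥ 2`). -/
def T_STAR : Prop := ∀ (B Z : Type) [Fintype B] (D : B → Finset Z) (K q : ℕ) (G : Finset B),
  1 ≤ K → (∀ b, (D b).Nonempty) → (2 * K + 1) * q ≤ G.card →
  (∑ ρ ∈ (Pi D).filter (fun ρ => ∀ b ∈ G, ∀ j, ρ b ≠ some (j, false)), wt K ρ) * 2 ^ q ≤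
    ∑ ρ ∈ Pi D, wt K ρ

/-- A good restriction exists: by `T_SL` with `K ≥ 8 t` each `F` in the list is hard for at most
`2 ^ (- s)` of the weight; by `T_NONE`, `T_STAR` the other bad events have together weight at most
one half; the union bound (all three sums are at most one quarter of the total, which is
positive). -/
def T_GOOD : Prop := ∀ (B Z : Type) [Fintype B] (D : B → Finset Z) (K s t q : ℕ)
  (Fs : List (List (List ((B × Z) × Bool)))) (Gs : List (Finset B)),
  1 ≤ K → 8 * t ≤ K → (∀ b, (D b).Nonempty) → (∑ b, (1 : ℝ) / (D b).card ≤ 1 / 4) →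
  (∀ F ∈ Fs, ∀ τ ∈ F, τ.length ≤ t) → 4 * Fs.length ≤ 2 ^ s →
  (∀ G ∈ Gs, (2 * K + 1) * q ≤ G.card) → 4 * Gs.length ≤ 2 ^ q →
  ∃ ρ ∈ Pi D, (∀ b, ρ b ≠ none) ∧ (∀ F ∈ Fs, ¬ Hard s F ρ) ∧
    ∀ G ∈ Gs, ∃ b ∈ G, ∃ j, ρ b = some (j, false)

/-- Kraft: the number of words of length `a` is `2 ^ a`. -/
def T_KRAFT : Prop := ∀ S : Finset (List Bool), ∑ u ∈ S, (1 / 4 : ℝ) ^ u.length ≤ 2

/-- The words of `R n (k + 1)` whose block has a free bit. -/
noncomputable def Dp (n k : ℕ) (ρ : Res {u // u ∈ R n (k + 1)} (List Bool)) :
    Finset (List Bool) :=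
  (R n (k + 1)).filter fun u => ∃ (hu : u ∈ R n (k + 1)) (j : List Bool),
    ρ ⟨u, hu⟩ = some (j, false)

/-- A good restriction for the tree of words: the blocks are the words `u` of `R n (k + 1)`, the bits
of the block `u` are the words `y`, the allowed special bits are `y ∈ Ch D u`.

Apply `T_GOOD` with `B = {u // u ∈ R n (k + 1)}`, `Z = List Bool`, `D u = Ch D u`, `t = s`,
`K = 8 * s`, `q = a + 3`, the given `Fs`, and `Gs`: for every `u ∈ R n k` and every word `y₁` of
length `(|u| + 2) ^ 2 - n` the set of the blocks `pair u (y₁ ++ y₂)`, `|y₂| = n` (they are in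
`R n (k + 1)`). It has `2 ^ n ≥ (16 s + 1) (a + 3)` elements. There are at most `2 ^ (a + 1)` such
groups, since they are disjoint and not empty and `R n (k + 1)` has at most `2 ^ (a + 1)` elements
(or: the map from `(u, y₁)` to the word `pair u (y₁ ++ 0^n)` of length at most `a` is injective).
The sum of `1 / |Ch D u|` over `u ∈ R n (k + 1)` is at most `1 / 4`: by `Fr n (k + 1) D`,
`|Ch D u| ≥ 2 ^ ((|u| + 2) ^ 2 - n) ≥ 8 * 4 ^ |u|` (as `n ≤ |u|`), and `T_KRAFT`.
`Fr n k (Dp n k ρ)`: for `u ∈ R n k` every group of `u` contains a word `pair u (y₁ ++ y₂)` in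
`Dp n k ρ`, and the words `y₁ ++ y₂` are different for different `y₁`. -/
def T_STEPG : Prop := ∀ (n k s a : ℕ) (D : Finset (List Bool))
  (Fs : List (List (List (({u // u ∈ R n (k + 1)} × List Bool) × Bool)))), 1 ≤ s → 1 ≤ n →
  Fr n (k + 1) D → (∀ u ∈ R n (k + 1), n ≤ u.length ∧ u.length ≤ a) →
  (∀ u ∈ R n k, n ≤ u.length) → (16 * s + 1) * (a + 3) ≤ 2 ^ n →
  (∀ F ∈ Fs, ∀ τ ∈ F, τ.length ≤ s) → 4 * Fs.length ≤ 2 ^ s →
  ∃ ρ : Res {u // u ∈ R n (k + 1)} (List Bool), (∀ b, ρ b ≠ none) ∧
    (∀ b j c, ρ b = some (j, c) → j ∈ Ch D b.1) ∧ (∀ F ∈ Fs, ¬ Hard s F ρ) ∧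
    Fr n k (Dp n k ρ)

/-- One step of the induction. Levels: the bits of `z` are the words of `R n (k + 2)`, the blocks
are the words `u` of `R n (k + 1)`, the free bits in the block `u` are `pair u y`, `y ∈ Ch D u`.
Let `B = {u // u ∈ R n (k + 1)}`.

First `T_SUB` with `V = List Bool`, `V' = B × List Bool` and `f v = Sum.inl ((u, y), false)` if
`v = pair u y` with `u ∈ R n (k + 1)` and `y ∈ Ch D u` (`pair` is injective), and
`f v = Sum.inr (h v)` otherwise: every tree `T` of a list of `Ls` becomes a tree `T₁` over
`B × List Bool` of depth at most `s`. `Fs`: for every list `L ∈ Ls` the paths of `T_PATHS` for all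
the `T₁`, `T ∈ L`, all together (`L.flatMap`). Let `ρ` be the good restriction of `T_STEPG` for
`Fs`, let `j u` be the special word of the block `u`, `D' = Dp n k ρ`, and
`lift z' v = if v = pair u y with u ∈ R n (k + 1) and y ∈ Ch D u then (if y = j u then !(z' u) else
true) else h v`. For `z'` that agrees with `true` outside `D'` put
`z₁ (u, y) = if y = j u then !(z' u) else true`. Then `ρ.Con z₁`, and `T₁.eval z₁ = T.eval (lift z')`
for all the trees. As `¬ Hard s F ρ` there is a tree `T₂` of depth less than `s` over
`B × List Bool` with `T₂.eval z₁ = true` iff `Dnf F z₁` iff `T.eval (lift z') = false` for some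
`T ∈ L`. Now `T_SUB` again, with `f (u, y) = if y = j u then Sum.inl (u, true) else Sum.inr true`,
turns `T₂` into a tree for `z'`. For `U 1`: there is `y` with `|y| ≤ (|u| + 2) ^ 2` and
`lift z' (pair u y) = false` iff `z' u = true`, because `h v = true` at the words `v` of
`R n (k + 2)` outside `D`, and because `j u ∈ Ch D u`. -/
def T_STEP : Prop := ∀ (n k s a : ℕ) (D : Finset (List Bool)) (h : Lang)
  (Ls : List (List (DT (List Bool)))), 1 ≤ s → 1 ≤ n → Fr n (k + 1) D →
  (∀ v ∈ R n (k + 2), v ∉ D → h v = true) →
  (∀ u ∈ R n (k + 1), n ≤ u.length ∧ u.length ≤ a) → (∀ u ∈ R n k, n ≤ u.length) →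
  (16 * s + 1) * (a + 3) ≤ 2 ^ n →
  (∀ L ∈ Ls, ∀ T ∈ L, T.depth ≤ s) → 4 * Ls.length ≤ 2 ^ s →
  ∃ (D' : Finset (List Bool)) (lift : Lang → Lang), Fr n k D' ∧
    (∀ z', Adm D' (fun _ => true) z' → Adm D h (lift z')) ∧
    (∀ z', Adm D' (fun _ => true) z' → ∀ u ∈ R n (k + 1), U 1 (lift z') u = z' u) ∧
    (∀ L ∈ Ls, ∃ T : DT (List Bool), T.depth ≤ s ∧ ∀ z', Adm D' (fun _ => true) z' →
      T.eval z' = List.any L (fun T' => !(T'.eval (lift z'))))

/-- The lower bound. Induction on `k`. Case `k = 0`: the circuit is a tree `T` of depth at most `s`;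
the word `1^n` has more than `s` free children `y`; let `z` be `h` outside `D` and `true` on `D`;
`T` asks at most `s` bits on `z`, so some free `v = pair 1^n y` is not asked, and `T` has the same
value at `z` and at `z` with the bit `v` changed to `false`; but `U 1` has the value `false` at the
first and `true` at the second. Case `k + 1`: apply `T_STEP` to the list of all lists of trees at
the bottom of the circuit `C` (there are at most `M ^ (k + 1)` of them), and let `C'` be the circuit
with one level less, where each bottom list is replaced by its tree. Then for all admissible `z'`: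
`ev z' C' = ev (lift z') C = U (k + 2) (lift z') 1^n = U (k + 1) (U 1 (lift z')) 1^n =
U (k + 1) z' 1^n` by `T_UREC`, `T_ULOC`. -/
def T_LB : Prop := ∀ (n s a M k : ℕ) (D : Finset (List Bool)) (h : Lang)
  (C : Ckt (List Bool) k), 1 ≤ s → 1 ≤ n → Fr n k D →
  (∀ v ∈ R n (k + 1), v ∉ D → h v = true) →
  (∀ i ≤ k, ∀ u ∈ R n i, n ≤ u.length ∧ u.length ≤ a) →
  (16 * s + 1) * (a + 3) ≤ 2 ^ n → 1 ≤ M → 4 * M ^ k ≤ 2 ^ s → Ckt.Bd M s k C →
  ¬ ∀ z, Adm D h z → Ckt.ev z k C = U (k + 1) z (List.replicate n true)

/-- The second requirement is dense. Let `k = js.length`. Choose `n > m` large. Take `C` from `T_BR`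
for `x = 1^n`, `D = R n (k + 1)`, `h = g₀`, and apply `T_LB` with `s` and `M` of the form
`k * (n + 2) ^ c + 3` and `2 ^ ((n + 2) ^ c)`. The words of `R n (k + 1)` have length at least
`n > m` (`T_RLEN`), so every admissible `z` agrees with `g₀` up to length `m`. -/
def T_DENS2 : Prop := ∀ (cd : ℕ → Code) (Q : List Instr) (c : ℕ) (js : List ℕ) (g₀ : Lang) (m : ℕ),
  ∃ g : Lang, Eqm m g₀ g ∧ ∃ n : ℕ, U (js.length + 1) g (List.replicate n true) ≠
    SigF (orc cd g) Q c js (List.replicate n true)

/-- Polynomials are eventually smaller than exponentials. -/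
def T_NUM : Prop := ∀ c m : ℕ, ∃ n : ℕ, m < n ∧ (n + 2) ^ c ≤ 2 ^ n

end Pool.Agent.LOW
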