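import Pool.Agent.LOW.Targets

/-!
# The universal program
-/

set_option autoImplicit false

namespace Pool.Agent.LOW

namespace UNI_

/-- The configuration with the words `w` and `v` on the stacks `0` and `1`. -/
def cf (pc : ℕ) (w v : List Bool) : Cfg :=
  ⟨pc, fun i => if i = 0 then w else if i = 1 then v else []⟩

/-- The second part of the program; the first entry has the number `e + 1`. -/
def body (e : ℕ) : List Instr :=
  [Instr.push 0 false,
   Instr.push 0 false,
   Instr.push 0 true,
   Instr.ask false 0 (e + 2 + 3) (e + 2 + 7),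
   Instr.pop 0 (e + 2 + 4) (e + 2 + 4) (e + 2 + 4),
   Instr.pop 0 (e + 2 + 5) (e + 2 + 5) (e + 2 + 5),
   Instr.push 0 true,
   Instr.ask false 0 (e + 2) (e + 2),
   Instr.pop 0 (e + 2 + 8) (e + 2 + 8) (e + 2 + 8),
   Instr.pop 0 (e + 2 + 9) (e + 2 + 9) (e + 2 + 9),
   Instr.push 0 true,
   Instr.push 0 true,
   Instr.ask false 0 (e + 2 + 12) (e + 2 + 14),
   Instr.push 1 false,
   Instr.ask false 0 (e + 2 + 15) (e + 2 + 15),
   Instr.push 1 true]

/-- The program. -/
def prog (e : ℕ) : List Instr :=
  Instr.push 0 false :: (List.replicate e (Instr.push 0 true) ++ body e)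

theorem prog_len (e : ℕ) : (prog e).length = e + 2 + 15 := by
  simp [prog, body]

theorem prog_rep (e i : ℕ) (hi : i < e) : (prog e)[i + 1]? = some (Instr.push 0 true) := by
  unfold prog
  rw [List.getElem?_cons_succ, List.getElem?_append_left (by simpa using hi)]
  simp [hi]

theorem prog_body (e j : ℕ) : (prog e)[e + 1 + j]? = (body e)[j]? := by
  unfold prog
  rw [show e + 1 + j = (e + j) + 1 by omega, List.getElem?_cons_succ,
    List.getElem?_append_right (by simp)]
  simp

section steps

variable (O A : Lang) (Q : List Instr)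

theorem s_push0 (pc : ℕ) (b : Bool) (w v : List Bool) (h : Q[pc]? = some (Instr.push 0 b)) :
    step O A Q (cf pc w v) = cf (pc + 1) (b :: w) v := by
  unfold step cf
  simp only [h]
  congr 1
  funext i
  by_cases hi : i = 0
  · subst hi; simp
  · simp [hi]

theorem s_push1 (pc : ℕ) (b : Bool) (w v : List Bool) (h : Q[pc]? = some (Instr.push 1 b)) :
    step O A Q (cf pc w v) = cf (pc + 1) w (b :: v) := by
  unfold step cf
  simp only [h]
  congr 1
  funext i
  by_cases hi : i = 1
  · subst hi; simp
  · simp [hi]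

theorem s_pop0 (pc l : ℕ) (b : Bool) (w v : List Bool) (h : Q[pc]? = some (Instr.pop 0 l l l)) :
    step O A Q (cf pc (b :: w) v) = cf l w v := by
  have key : Function.update (fun i => if i = 0 then b :: w else if i = 1 then v else []) 0 w =
      (fun i => if i = 0 then w else if i = 1 then v else ([] : List Bool)) := by
    funext i
    by_cases hi : i = 0
    · subst hi; simp
    · simp [hi]
  unfold step cf
  simp only [h]
  cases b
  · simp only [if_true, key]
  · simp only [if_true, key]

theorem s_ask (pc l₀ l₁ : ℕ) (w v : List Bool) (h : Q[pc]? = some (Instr.ask false 0 l₀ l₁)) :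
    step O A Q (cf pc w v) = cf (if O w then l₁ else l₀) w v := by
  unfold step cf
  simp only [h]
  simp

end steps

variable (O : Lang) (e : ℕ)

theorem phase1 (x : List Bool) (i : ℕ) (hi : i ≤ e) :
    (step O emp (prog e))^[i + 1] (cf 0 x []) = cf (i + 1) (List.replicate i true ++ false :: x) []
    := by
  induction i with
  | zero =>
    rw [Function.iterate_one, s_push0 O emp (prog e) 0 false x [] rfl]
    simp
  | succ i ih =>
    rw [Function.iterate_succ_apply', ih (by omega),
      s_push0 O emp (prog e) (i + 1) true _ [] (prog_rep e i (by omega))]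
    rfl

theorem phase1' (x : List Bool) :
    (step O emp (prog e))^[e + 2] (cf 0 x []) = cf (e + 2) (triple 0 e x) [] := by
  rw [Function.iterate_succ_apply', phase1 O e x e le_rfl,
    s_push0 O emp (prog e) (e + 1) false _ [] (prog_body e 0)]
  rfl

theorem loop (x : List Bool) (m : ℕ) (h : O (true :: false :: triple m e x) = false) :
    (step O emp (prog e))^[7] (cf (e + 2) (triple m e x) []) =
      cf (e + 2) (triple (m + 1) e x) [] := by
  simp only [Function.iterate_succ, Function.iterate_zero, Function.comp_apply, id]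
  rw [s_push0 O emp (prog e) (e + 2) false _ [] (prog_body e 1),
    s_push0 O emp (prog e) (e + 2 + 1) true _ [] (prog_body e 2),
    s_ask O emp (prog e) (e + 2 + 1 + 1) (e + 2 + 3) (e + 2 + 7) _ [] (prog_body e 3), h]
  simp only [Bool.false_eq_true, if_false]
  rw [s_pop0 O emp (prog e) (e + 2 + 3) (e + 2 + 4) _ _ [] (prog_body e 4),
    s_pop0 O emp (prog e) (e + 2 + 4) (e + 2 + 5) _ _ [] (prog_body e 5),
    s_push0 O emp (prog e) (e + 2 + 5) true _ [] (prog_body e 6),
    s_ask O emp (prog e) (e + 2 + 5 + 1) (e + 2) (e + 2) _ [] (prog_body e 7)]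
  simp only [ite_self]
  rfl

theorem loops (x : List Bool) (N d : ℕ) (hd : d ≤ N)
    (h : ∀ m, m < N → O (true :: false :: triple m e x) = false) :
    (step O emp (prog e))^[7 * d] (cf (e + 2) (triple 0 e x) []) =
      cf (e + 2) (triple d e x) [] := by
  induction d with
  | zero => rfl
  | succ d ih =>
    rw [show 7 * (d + 1) = 7 + 7 * d by ring, Function.iterate_add_apply, ih (by omega),
      loop O e x d (h d (by omega))]

theorem last_true (x : List Bool) (m : ℕ) (h : O (true :: false :: triple m e x) = true)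
    (h' : O (true :: true :: triple m e x) = true) :
    (step O emp (prog e))^[9] (cf (e + 2) (triple m e x) []) =
      cf (e + 2 + 15) (true :: true :: triple m e x) [true] := by
  simp only [Function.iterate_succ, Function.iterate_zero, Function.comp_apply, id]
  rw [s_push0 O emp (prog e) (e + 2) false _ [] (prog_body e 1),
    s_push0 O emp (prog e) (e + 2 + 1) true _ [] (prog_body e 2),
    s_ask O emp (prog e) (e + 2 + 1 + 1) (e + 2 + 3) (e + 2 + 7) _ [] (prog_body e 3), h]
  simp only [if_true]
  rw [s_pop0 O emp (prog e) (e + 2 + 7) (e + 2 + 8) _ _ [] (prog_body e 8),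
    s_pop0 O emp (prog e) (e + 2 + 8) (e + 2 + 9) _ _ [] (prog_body e 9),
    s_push0 O emp (prog e) (e + 2 + 9) true _ [] (prog_body e 10),
    s_push0 O emp (prog e) (e + 2 + 9 + 1) true _ [] (prog_body e 11),
    s_ask O emp (prog e) (e + 2 + 9 + 1 + 1) (e + 2 + 12) (e + 2 + 14) _ [] (prog_body e 12), h']
  simp only [if_true]
  rw [s_push1 O emp (prog e) (e + 2 + 14) true _ [] (prog_body e 15)]

theorem last_false (x : List Bool) (m : ℕ) (h : O (true :: false :: triple m e x) = true)
    (h' : O (true :: true :: triple m e x) = false) :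
    (step O emp (prog e))^[10] (cf (e + 2) (triple m e x) []) =
      cf (e + 2 + 15) (true :: true :: triple m e x) [false] := by
  simp only [Function.iterate_succ, Function.iterate_zero, Function.comp_apply, id]
  rw [s_push0 O emp (prog e) (e + 2) false _ [] (prog_body e 1),
    s_push0 O emp (prog e) (e + 2 + 1) true _ [] (prog_body e 2),
    s_ask O emp (prog e) (e + 2 + 1 + 1) (e + 2 + 3) (e + 2 + 7) _ [] (prog_body e 3), h]
  simp only [if_true]
  rw [s_pop0 O emp (prog e) (e + 2 + 7) (e + 2 + 8) _ _ [] (prog_body e 8),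
    s_pop0 O emp (prog e) (e + 2 + 8) (e + 2 + 9) _ _ [] (prog_body e 9),
    s_push0 O emp (prog e) (e + 2 + 9) true _ [] (prog_body e 10),
    s_push0 O emp (prog e) (e + 2 + 9 + 1) true _ [] (prog_body e 11),
    s_ask O emp (prog e) (e + 2 + 9 + 1 + 1) (e + 2 + 12) (e + 2 + 14) _ [] (prog_body e 12), h']
  simp only [Bool.false_eq_true, if_false]
  rw [s_push1 O emp (prog e) (e + 2 + 12) false _ [] (prog_body e 13),
    s_ask O emp (prog e) (e + 2 + 12 + 1) (e + 2 + 15) (e + 2 + 15) _ _ (prog_body e 14)]
  simp only [ite_self]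

theorem init (x : List Bool) :
    (⟨0, Function.update (fun _ => []) 0 x⟩ : Cfg) = cf 0 x [] := by
  unfold cf
  congr 1
  funext i
  by_cases hi : i = 0
  · subst hi; simp
  · simp [hi]

theorem time (n K : ℕ) : (e + 2) + 7 * (n + 2) ^ K + 10 ≤ (n + 2) ^ (K + e + 10) := by
  have h1 : 1 ≤ (n + 2) ^ K := Nat.one_le_pow _ _ (by omega)
  have h2 : e + 1 ≤ 2 ^ e := Nat.lt_pow_self (by norm_num)
  have h3 : 2 ^ e ≤ (n + 2) ^ e := Nat.pow_le_pow_left (by omega) e
  have h4 : 2 ^ 10 ≤ (n + 2) ^ 10 := Nat.pow_le_pow_left (by omega) 10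
  have h5 : (e + 1) * 2 ^ 10 ≤ (n + 2) ^ e * (n + 2) ^ 10 :=
    Nat.mul_le_mul (le_trans h2 h3) h4
  have h6 : (n + 2) ^ K * ((e + 1) * 2 ^ 10) ≤ (n + 2) ^ (K + e + 10) := by
    rw [pow_add, pow_add, mul_assoc]
    exact Nat.mul_le_mul_left _ h5
  refine le_trans ?_ h6
  have h7 : e * 1 ≤ e * (n + 2) ^ K := Nat.mul_le_mul_left _ h1
  nlinarith

end UNI_

open UNI_ in
theorem p_UNI (hSTAY : T_STAY) : T_UNI := by
  intro O B e K h1 h2
  refine ⟨prog e, K + e + 10, ?_⟩
  intro x
  obtain ⟨N, hN⟩ : ∃ N, N = (x.length + 2) ^ K := ⟨_, rfl⟩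
  have hyes : O (true :: false :: triple N e x) = true := by
    rw [h1, hN]; simp
  have hno : ∀ m, m < N → O (true :: false :: triple m e x) = false := by
    intro m hm
    rw [h1]
    simp only [decide_eq_false_iff_not, not_le]
    rw [← hN]; exact hm
  have hB : O (true :: true :: triple N e x) = B x := h2 N x (le_of_eq hN.symm)
  have hmid : run O emp (prog e) x (7 * N + (e + 2)) = cf (e + 2) (triple N e x) [] := by
    unfold run
    rw [init, Function.iterate_add_apply, phase1', loops O e x N N le_rfl hno]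
  have hend : ∃ t, t ≤ (x.length + 2) ^ (K + e + 10) ∧
      run O emp (prog e) x t = cf (e + 2 + 15) (true :: true :: triple N e x) [B x] := by
    have ht := time e x.length K
    rw [← hN] at ht
    cases hb : B x
    · refine ⟨10 + (7 * N + (e + 2)), by omega, ?_⟩
      unfold run at hmid ⊢
      rw [Function.iterate_add_apply, hmid, last_false O e x N hyes (by rw [hB, hb])]
    · refine ⟨9 + (7 * N + (e + 2)), by omega, ?_⟩
      unfold run at hmid ⊢
      rw [Function.iterate_add_apply, hmid, last_true O e x N hyes (by rw [hB, hb])]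
  obtain ⟨t, ht, hrun⟩ := hend
  have hpc : (prog e).length ≤ (run O emp (prog e) x t).pc := by
    rw [hrun, prog_len]
    exact le_rfl
  have hst := hSTAY O emp (prog e) x t ((x.length + 2) ^ (K + e + 10)) hpc ht
  refine ⟨?_, ?_⟩
  · simp only
    rw [hst]; exact hpc
  · simp only
    rw [hst, hrun]
    rfl

end Pool.Agent.LOW
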