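import Pool.Agent.LOW.Targets

/-!
# Project LOW: T_UREC, T_ULOC, T_RLEN
-/

set_option autoImplicit false

namespace Pool.Agent.LOW

open Classical

theorem p_UREC : T_UREC := by
  intro k
  induction k with
  | zero =>
    intro g x
    rfl
  | succ k ih =>
    intro g x
    change decide (∃ y : List Bool, y.length ≤ (x.length + 2) ^ 2 ∧
      U (k + 1) g (pair x y) = false) = decide (∃ y : List Bool, y.length ≤ (x.length + 2) ^ 2 ∧
      U k (U 1 g) (pair x y) = false)
    simp only [ih]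

namespace UREC_

theorem mem_W {m : ℕ} {y : List Bool} : y ∈ W m ↔ y.length ≤ m := by
  unfold W
  rw [Set.Finite.mem_toFinset]
  rfl

theorem mem_R_succ {n k : ℕ} {u y : List Bool} (hu : u ∈ R n k)
    (hy : y.length ≤ (u.length + 2) ^ 2) : pair u y ∈ R n (k + 1) := by
  unfold R
  rw [Finset.mem_biUnion]
  exact ⟨u, hu, Finset.mem_image.2 ⟨y, mem_W.2 hy, rfl⟩⟩

theorem of_mem_R_succ {n k : ℕ} {v : List Bool} (hv : v ∈ R n (k + 1)) :
    ∃ u ∈ R n k, ∃ y : List Bool, y.length ≤ (u.length + 2) ^ 2 ∧ pair u y = v := by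
  unfold R at hv
  rw [Finset.mem_biUnion] at hv
  obtain ⟨u, hu, h⟩ := hv
  obtain ⟨y, hy, rfl⟩ := Finset.mem_image.1 h
  exact ⟨u, hu, y, mem_W.1 hy, rfl⟩

theorem pair_length (x y : List Bool) : (pair x y).length = 2 * x.length + 1 + y.length := by
  unfold pair
  rw [List.length_append, List.length_flatMap, List.length_cons]
  have h : (List.map (fun b : Bool => [true, b].length) x).sum = 2 * x.length := by
    induction x with
    | nil => rfl
    | cons a l ih =>
      rw [List.map_cons, List.sum_cons, ih, List.length_cons]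
      simp only [List.length_cons, List.length_nil]
      ring
  rw [h]
  ring

theorem one_eq {g : Lang} {x : List Bool} : U 1 g x = decide (∃ y : List Bool,
    y.length ≤ (x.length + 2) ^ 2 ∧ g (pair x y) = false) := rfl

end UREC_

open UREC_ in
theorem p_ULOC (hUREC : T_UREC) : T_ULOC := by
  intro k
  induction k with
  | zero =>
    intro n g g' h
    exact h _ (Finset.mem_singleton_self _)
  | succ k ih =>
    intro n g g' h
    rw [hUREC, hUREC]
    refine ih n (U 1 g) (U 1 g') fun u hu => ?_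
    rw [one_eq, one_eq]
    congr 1
    refine propext (exists_congr fun y => ?_)
    constructor
    · rintro ⟨h1, h2⟩
      exact ⟨h1, by rw [← h _ (mem_R_succ hu h1)]; exact h2⟩
    · rintro ⟨h1, h2⟩
      exact ⟨h1, by rw [h _ (mem_R_succ hu h1)]; exact h2⟩

open UREC_ in
theorem p_RLEN : T_RLEN := by
  intro k
  induction k with
  | zero =>
    refine ⟨1, fun n u hu => ?_⟩
    have h : u = List.replicate n true := Finset.mem_singleton.1 hu
    rw [h, List.length_replicate, pow_one]
    omega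
  | succ k ih =>
    obtain ⟨c, hc⟩ := ih
    refine ⟨2 * c + 5, fun n v hv => ?_⟩
    obtain ⟨u, hu, y, hy, rfl⟩ := of_mem_R_succ hv
    obtain ⟨h1, h2⟩ := hc n u hu
    rw [pair_length]
    refine ⟨by omega, ?_⟩
    have h3 : 2 ≤ n + 2 := by omega
    have h4 : 1 ≤ (n + 2) ^ c := Nat.one_le_pow _ _ (by omega)
    have h5 : (u.length + 2) ^ 2 ≤ (3 * (n + 2) ^ c) ^ 2 := Nat.pow_le_pow_left (by omega) 2
    have h6 : 2 * u.length + 1 + y.length ≤ 12 * ((n + 2) ^ c) ^ 2 := by nlinarith
    have h7 : (n + 2) ^ (2 * c + 5) = (n + 2) ^ 5 * ((n + 2) ^ c) ^ 2 := by ring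
    rw [h7]
    have h8 : 2 ^ 5 ≤ (n + 2) ^ 5 := Nat.pow_le_pow_left h3 5
    calc 2 * u.length + 1 + y.length ≤ 12 * ((n + 2) ^ c) ^ 2 := h6
      _ ≤ (n + 2) ^ 5 * ((n + 2) ^ c) ^ 2 := Nat.mul_le_mul_right _ (by omega)

end Pool.Agent.LOW
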