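import Pool.Agent.LOW.Targets

/-!
# LOW, job VAL: the values of the oracle at the words `1 1 1^m 0 1^e 0 x`
-/

set_option autoImplicit false

namespace Pool.Agent.LOW

open Classical

namespace VAL_

lemma rep_inj : ∀ (m m' : ℕ) (a a' : List Bool),
    List.replicate m true ++ false :: a = List.replicate m' true ++ false :: a' →
    m = m' ∧ a = a'
  | 0, 0, a, a', h => by
      simp only [List.replicate_zero, List.nil_append, List.cons.injEq, true_and] at h
      exact ⟨rfl, h⟩
  | 0, m' + 1, a, a', h => by
      simp [List.replicate_succ] at h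
  | m + 1, 0, a, a', h => by
      simp [List.replicate_succ] at h
  | m + 1, m' + 1, a, a', h => by
      rw [List.replicate_succ, List.replicate_succ, List.cons_append, List.cons_append] at h
      obtain ⟨h1, h2⟩ := rep_inj m m' a a' (List.cons.inj h).2
      exact ⟨by rw [h1], h2⟩

lemma triple_inj {m m' e e' : ℕ} {x x' : List Bool} (h : triple m e x = triple m' e' x') :
    m = m' ∧ e = e' ∧ x = x' := by
  obtain ⟨h1, h2⟩ := rep_inj _ _ _ _ h
  obtain ⟨h3, h4⟩ := rep_inj _ _ _ _ h2
  exact ⟨h1, h3, h4⟩

lemma triple_length (m e : ℕ) (x : List Bool) : m ≤ (triple m e x).length := by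
  unfold triple
  simp only [List.length_append, List.length_replicate, List.length_cons]
  omega

lemma In_mono {V : Type} {S S' : Set V} (h : S ⊆ S') : ∀ T : DT V, T.In S → T.In S'
  | DT.leaf _, _ => trivial
  | DT.node _ l r, hT => ⟨h hT.1, In_mono h l hT.2.1, In_mono h r hT.2.2⟩

end VAL_

/-- VAL. -/
theorem p_VAL (hTRN : T_TRN) : T_VAL := by
  intro cd e m x g hg hLoc hm ⟨T, hT1, hT2, hT3⟩
  set w : List Bool := triple m e x with hw
  have hmw : m ≤ w.length := VAL_.triple_length m e x
  set L : ℕ := (true :: true :: w).length with hL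
  have hLw : L = w.length + 2 := rfl
  -- the functional does not see the difference
  have key : ∀ g' : Lang, (cd e).2.2.fn (fun v => (trn cd L v).eval g') x =
      (cd e).2.2.fn (orc cd g') x := by
    intro g'
    refine hLoc _ _ x fun v hv => ?_
    have hv' : v.length < L := by omega
    change (trn cd L v).eval g' = (tr cd v).eval g'
    rw [(hTRN cd L v).1 hv']
  have hex : ∃ T : DT (List Bool), T.depth ≤ w.length ∧ T.In (Sh w.length) ∧
      ∃ (m e : ℕ) (x : List Bool), w = triple m e x ∧ ∀ g ∈ Cyl (cd e).2.1,
        T.eval g = (cd e).2.2.fn (fun v => (trn cd L v).eval g) x := by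
    refine ⟨T, (hT1.trans hm).trans hmw, VAL_.In_mono (fun v hv => ?_) T hT2, m, e, x, rfl,
      fun g' hg' => ?_⟩
    · exact le_trans (show v.length ≤ (x.length + 2) ^ (cd e).1 from hv) (hm.trans hmw)
    · rw [hT3 g' hg', key g']
  have htr : tr cd (true :: true :: w) = hex.choose := by
    have h1 : tr cd (true :: true :: w) = build cd (trn cd L) (true :: true :: w) := by
      change (if (true :: true :: w).length = L then build cd (trn cd L) (true :: true :: w)
        else trn cd L (true :: true :: w)) = _
      rw [if_pos rfl]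
    rw [h1]
    exact dif_pos hex
  obtain ⟨-, -, m', e', x', hw', hev⟩ := hex.choose_spec
  obtain ⟨h1, h2, h3⟩ := VAL_.triple_inj hw'
  subst h1 h2 h3
  change (tr cd (true :: true :: w)).eval g = _
  rw [htr, hev g hg, key g]

end Pool.Agent.LOW
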