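import Pool.Agent.LOW.Targets

/-!
# Weights of block restrictions
-/

set_option autoImplicit false

namespace Pool.Agent.LOW

open Classical

namespace WTS_

/-- The states of the block `b`. -/
noncomputable def E {B Z : Type} (D : B → Finset Z) (b : B) : Finset (Option (Z × Bool)) :=
  Finset.insertNone (D b ×ˢ (Finset.univ : Finset Bool))

/-- The states without a free bit. -/
noncomputable def E1 {B Z : Type} (D : B → Finset Z) (b : B) : Finset (Option (Z × Bool)) :=
  Finset.insertNone (D b ×ˢ ({true} : Finset Bool))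

lemma mem_Pi {B Z : Type} [Fintype B] (D : B → Finset Z) (ρ : Res B Z) :
    ρ ∈ Pi D ↔ ∀ b, ρ b ∈ E D b := by
  unfold Pi E
  rw [Fintype.mem_piFinset]

lemma sum_pi {B Z : Type} [Fintype B] (K : ℕ)
    (G : B → Finset (Option (Z × Bool))) (S : Finset (Res B Z))
    (h : ∀ ρ, ρ ∈ S ↔ ∀ b, ρ b ∈ G b) :
    (∑ ρ ∈ S, wt K ρ) = ∏ b, ∑ x ∈ G b, wst K x := by
  have h : S = Fintype.piFinset G := by
    ext ρ
    rw [h, Fintype.mem_piFinset]
  rw [h, Finset.prod_univ_sum]
  rfl

lemma sum_all {B Z : Type} [Fintype B] (D : B → Finset Z) (K : ℕ) :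
    (∑ ρ ∈ Pi D, wt K ρ) = ∏ b, ∑ x ∈ E D b, wst K x :=
  sum_pi K (E D) (Pi D) (mem_Pi D)

lemma fac {B Z : Type} (D : B → Finset Z) (K : ℕ) (b : B) :
    ∑ x ∈ E D b, wst K x = K + (D b).card * (K + 1) := by
  unfold E
  rw [Finset.sum_insertNone, Finset.sum_product]
  simp [wst]

lemma fac1 {B Z : Type} (D : B → Finset Z) (K : ℕ) (b : B) :
    ∑ x ∈ E1 D b, wst K x = K + (D b).card * K := by
  unfold E1
  rw [Finset.sum_insertNone, Finset.sum_product]
  simp [wst]

lemma two_pow (K q g : ℕ) (hK : 1 ≤ K) (hg : (2 * K + 1) * q ≤ g) :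
    2 ^ q * (2 * K) ^ g ≤ (2 * K + 1) ^ g := by
  have h1 : 2 * (2 * K) ^ (2 * K) ≤ (2 * K + 1) ^ (2 * K) := by
    have h2 : (1 : ℝ) + (2 * K : ℕ) * (1 / (2 * K)) ≤ (1 + 1 / (2 * K)) ^ (2 * K) :=
      one_add_mul_le_pow (by
        have : (0 : ℝ) ≤ 1 / (2 * K) := by positivity
        linarith) _
    have hK' : (0 : ℝ) < 2 * K := by
      have : (1 : ℝ) ≤ K := by exact_mod_cast hK
      linarith
    have h3 : (1 : ℝ) + (2 * K : ℕ) * (1 / (2 * K)) = 2 := by
      push_cast
      field_simp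
      norm_num
    rw [h3] at h2
    have h4 : (2 : ℝ) * (2 * K) ^ (2 * K) ≤ (2 * K + 1) ^ (2 * K) := by
      calc (2 : ℝ) * (2 * K) ^ (2 * K) ≤ (1 + 1 / (2 * K)) ^ (2 * K) * (2 * K) ^ (2 * K) := by
            gcongr
        _ = ((1 + 1 / (2 * K)) * (2 * K)) ^ (2 * K) := (mul_pow _ _ _).symm
        _ = (2 * K + 1) ^ (2 * K) := by
            congr 1
            field_simp
    exact_mod_cast h4
  obtain ⟨r, hr⟩ : ∃ r, g = 2 * K * q + r := ⟨g - 2 * K * q, by
    have : 2 * K * q ≤ (2 * K + 1) * q := Nat.mul_le_mul_right _ (Nat.le_succ _)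
    omega⟩
  rw [hr, pow_add, pow_add, pow_mul (2 * K) (2 * K) q, pow_mul (2 * K + 1) (2 * K) q]
  calc 2 ^ q * (((2 * K) ^ (2 * K)) ^ q * (2 * K) ^ r)
      = (2 * (2 * K) ^ (2 * K)) ^ q * (2 * K) ^ r := by
        rw [mul_pow]
        ring
    _ ≤ ((2 * K + 1) ^ (2 * K)) ^ q * (2 * K + 1) ^ r :=
        Nat.mul_le_mul (Nat.pow_le_pow_left h1 q) (Nat.pow_le_pow_left (Nat.le_succ _) r)

end WTS_

open WTS_

theorem p_NONE : T_NONE := by
  intro B Z _ D K b hK
  refine ⟨?_, ?_⟩
  · rw [sum_all]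
    refine Finset.prod_pos fun b _ => ?_
    rw [fac]
    omega
  · rw [sum_pi K (fun b' => if b' = b then {none} else E D b')
      ((Pi D).filter (fun ρ => ρ b = none)) ?_, sum_all,
      ← Finset.mul_prod_erase _ _ (Finset.mem_univ b),
      ← Finset.mul_prod_erase Finset.univ (fun b => ∑ x ∈ E D b, wst K x) (Finset.mem_univ b)]
    · have h3 : ∏ x ∈ Finset.univ.erase b,
          (∑ y ∈ (if x = b then {none} else E D x), wst K y) =
          ∏ x ∈ Finset.univ.erase b, ∑ y ∈ E D x, wst K y := by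
        refine Finset.prod_congr rfl fun x hx => ?_
        rw [if_neg (Finset.ne_of_mem_erase hx)]
      rw [h3, fac, if_pos rfl, Finset.sum_singleton]
      have h4 : wst K (none : Option (Z × Bool)) * (D b).card ≤ K + (D b).card * (K + 1) := by
        show K * (D b).card ≤ _
        nlinarith
      calc wst K (none : Option (Z × Bool)) * (∏ x ∈ Finset.univ.erase b, ∑ y ∈ E D x, wst K y) *
            (D b).card
          = wst K (none : Option (Z × Bool)) * (D b).card *
            ∏ x ∈ Finset.univ.erase b, ∑ y ∈ E D x, wst K y := by ring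
        _ ≤ _ := Nat.mul_le_mul_right _ h4
    · intro ρ
      rw [Finset.mem_filter, mem_Pi]
      constructor
      · intro h b'
        split_ifs with hb
        · rw [hb, h.2]
          exact Finset.mem_singleton_self _
        · exact h.1 b'
      · intro h
        have hb : ρ b = none := by
          have := h b
          rw [if_pos rfl, Finset.mem_singleton] at this
          exact this
        refine ⟨fun b' => ?_, hb⟩
        by_cases hb' : b' = b
        · rw [hb', hb]
          unfold E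
          simp
        · have := h b'
          rwa [if_neg hb'] at this

theorem p_STAR : T_STAR := by
  intro B Z _ D K q G hK hD hG
  rw [sum_pi K (fun b => if b ∈ G then E1 D b else E D b)
    ((Pi D).filter (fun ρ => ∀ b ∈ G, ∀ j, ρ b ≠ some (j, false))) ?_, sum_all]
  · have h1 : (∏ b, ∑ x ∈ (if b ∈ G then E1 D b else E D b), wst K x) * (2 * K + 1) ^ G.card ≤
        (∏ b, ∑ x ∈ E D b, wst K x) * (2 * K) ^ G.card := by
      have e1 : (2 * K + 1) ^ G.card = ∏ b : B, (if b ∈ G then 2 * K + 1 else 1) := by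
        rw [Finset.prod_ite_mem, Finset.univ_inter, Finset.prod_const]
      have e2 : (2 * K) ^ G.card = ∏ b : B, (if b ∈ G then 2 * K else 1) := by
        rw [Finset.prod_ite_mem, Finset.univ_inter, Finset.prod_const]
      rw [e1, e2, ← Finset.prod_mul_distrib, ← Finset.prod_mul_distrib]
      refine Finset.prod_le_prod' fun b _ => ?_
      by_cases hb : b ∈ G
      · rw [if_pos hb, if_pos hb, if_pos hb, fac, fac1]
        have h2 : 1 ≤ (D b).card := (hD b).card_pos
        nlinarith [Nat.mul_le_mul_left K h2]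
      · rw [if_neg hb, if_neg hb, if_neg hb]
    have h2 := two_pow K q G.card hK hG
    refine Nat.le_of_mul_le_mul_right (?_ : _ * (2 * K) ^ G.card ≤ _ * (2 * K) ^ G.card)
      (by positivity)
    calc (∏ b, ∑ x ∈ (if b ∈ G then E1 D b else E D b), wst K x) * 2 ^ q * (2 * K) ^ G.card
        = (∏ b, ∑ x ∈ (if b ∈ G then E1 D b else E D b), wst K x) *
          (2 ^ q * (2 * K) ^ G.card) := by ring
      _ ≤ (∏ b, ∑ x ∈ (if b ∈ G then E1 D b else E D b), wst K x) *
          (2 * K + 1) ^ G.card := Nat.mul_le_mul_left _ h2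
      _ ≤ _ := h1
  · intro ρ
    rw [Finset.mem_filter, mem_Pi, ← forall_and]
    refine forall_congr' fun b => ?_
    by_cases hb : b ∈ G
    · rw [if_pos hb]
      unfold E E1
      rcases hr : ρ b with _ | ⟨j, c⟩
      · simp
      · cases c <;> simp [hb]
    · rw [if_neg hb]
      exact ⟨fun h => h.1, fun h => ⟨h, fun h' => absurd h' hb⟩⟩

end Pool.Agent.LOW
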